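import Pool.Agent.Lib.MP_0f8b55_lc.Layer2c
import Mathlib.Algebra.MvPolynomial.Funext
import Mathlib.Algebra.MvPolynomial.NoZeroDivisors

/-!
# From addition and multiplication constraints to gates
-/

namespace Pool.Agent.Lib.MP_0f8b55_lc

open MvPolynomial

/-- A constraint `(isMul, a, b, c)`. -/
abbrev Con : Type := Bool × ℕ × ℕ × ℕ

/-- The constraint holds. -/
def Con.holds (x : ℕ → ℝ) : Con → Prop
  | (false, a, b, c) => x a + x b = x c
  | (true, a, b, c) => x a * x b = x c

/-- The three variables are distinct. -/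
def Con.dist : Con → Prop
  | (_, a, b, c) => a ≠ b ∧ a ≠ c ∧ b ≠ c

/-- The numbers: `(0, a)` and `(1, a)` are the two summands of the variable `a`,
`(j + 2, κ)` is the `j`-th auxiliary number of the constraint `κ`. -/
abbrev Num : Type := ℕ × ℕ

/-- The gates of a constraint. -/
def conGates : Con × ℕ → List (Gate Num)
  | ((false, a, b, c), κ) =>
    [.inl ((0, a), (2, κ), (3, κ)), .inl ((0, c), (4, κ), (3, κ)), .inl ((0, b), (4, κ), (5, κ)),
     .inl ((1, c), (6, κ), (5, κ)), .inl ((1, a), (6, κ), (7, κ)), .inl ((1, b), (7, κ), (2, κ))]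
  | ((true, a, b, c), κ) =>
    [.inr (.inl ((0, a), (0, b), (2, κ), (4, κ))), .inr (.inl ((1, a), (1, b), (4, κ), (5, κ))),
     .inl ((3, κ), (5, κ), (6, κ)),
     .inr (.inl ((0, a), (1, b), (6, κ), (7, κ))), .inr (.inl ((1, a), (0, b), (7, κ), (8, κ))),
     .inl ((0, c), (2, κ), (9, κ)), .inl ((3, κ), (9, κ), (10, κ)), .inl ((1, c), (10, κ), (8, κ))]

/-- All the gates. -/
def sysGates (L : List Con) (z : ℕ) : List (Gate Num) :=
  .inr (.inr ((1, z), (0, z))) :: L.zipIdx.flatMap conGates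

theorem mem_sysGates {L : List Con} {z : ℕ} {g : Gate Num} :
    g ∈ sysGates L z ↔ g = .inr (.inr ((1, z), (0, z))) ∨
      ∃ e κ, L[κ]? = some e ∧ g ∈ conGates (e, κ) := by
  simp only [sysGates, List.mem_cons, List.mem_flatMap]
  constructor
  · rintro (h | ⟨⟨e, κ⟩, he, hg⟩)
    · exact Or.inl h
    · exact Or.inr ⟨e, κ, List.mk_mem_zipIdx_iff_getElem?.mp he, hg⟩
  · rintro (h | ⟨e, κ, he, hg⟩)
    · exact Or.inl h
    · exact Or.inr ⟨(e, κ), List.mk_mem_zipIdx_iff_getElem?.mpr he, hg⟩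

theorem layer1_sound {L : List Con} {z : ℕ} {y : Num → ℝ} {c : ℝ} (hc : c ≠ 0)
    (h : ∀ g ∈ sysGates L z, g.holds c y) :
    ∃ x : ℕ → ℝ, x z ≠ 0 ∧ ∀ e ∈ L, e.holds x := by
  refine ⟨fun a => y (0, a) + y (1, a), ?_, ?_⟩
  · have := h _ (mem_sysGates.mpr (Or.inl rfl))
    simp only [Gate.holds] at this
    simp only [this]; exact hc
  · intro e he
    obtain ⟨κ, hκ, hke⟩ := List.getElem_of_mem he
    have hk : L[κ]? = some e := by rw [List.getElem?_eq_getElem hκ, hke]
    have hg : ∀ g ∈ conGates (e, κ), g.holds c y :=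
      fun g hg => h g (mem_sysGates.mpr (Or.inr ⟨e, κ, hk, hg⟩))
    obtain ⟨t, a, b, c'⟩ := e
    cases t
    · simp only [conGates, List.mem_cons, List.not_mem_nil, or_false, forall_eq_or_imp,
        forall_eq, Gate.holds] at hg
      obtain ⟨h1, h2, h3, h4, h5, h6⟩ := hg
      simp only [Con.holds]
      linarith
    · simp only [conGates, List.mem_cons, List.not_mem_nil, or_false, forall_eq_or_imp,
        forall_eq, Gate.holds] at hg
      obtain ⟨h1, h2, h3, h4, h5, h6, h7, h8⟩ := hg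
      simp only [Con.holds]
      linarith

/-- The values of the numbers, as a function of the parameters. -/
def pv {R : Type} [CommRing R] (k : ℝ → R) (L : List Con) (x : ℕ → ℝ) (ρ : Num → R) : Num → R
  | (0, a) => k (x a) - ρ (1, a)
  | (1, a) => ρ (1, a)
  | (j + 2, κ) =>
    match L[κ]? with
    | none => ρ (2, κ)
    | some (false, a, b, c) =>
      match j with
      | 0 => ρ (2, κ)
      | 1 => ρ (2, κ) + (k (x a) - ρ (1, a))
      | 2 => ρ (2, κ) + (k (x a) - ρ (1, a)) - (k (x c) - ρ (1, c))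
      | 3 => ρ (2, κ) + (k (x a) - ρ (1, a)) - (k (x c) - ρ (1, c)) + (k (x b) - ρ (1, b))
      | 4 => ρ (2, κ) + (k (x a) - ρ (1, a)) - (k (x c) - ρ (1, c)) + (k (x b) - ρ (1, b)) -
          ρ (1, c)
      | _ => ρ (2, κ) - ρ (1, b)
    | some (true, a, b, c) =>
      match j with
      | 0 => ρ (2, κ)
      | 1 => ρ (3, κ)
      | 2 => ρ (2, κ) + (k (x a) - ρ (1, a)) * (k (x b) - ρ (1, b))
      | 3 => ρ (2, κ) + (k (x a) - ρ (1, a)) * (k (x b) - ρ (1, b)) + ρ (1, a) * ρ (1, b)
      | 4 => ρ (2, κ) + (k (x a) - ρ (1, a)) * (k (x b) - ρ (1, b)) + ρ (1, a) * ρ (1, b) +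
          ρ (3, κ)
      | 5 => ρ (2, κ) + (k (x a) - ρ (1, a)) * (k (x b) - ρ (1, b)) + ρ (1, a) * ρ (1, b) +
          ρ (3, κ) + (k (x a) - ρ (1, a)) * ρ (1, b)
      | 6 => ρ (2, κ) + (k (x a) - ρ (1, a)) * (k (x b) - ρ (1, b)) + ρ (1, a) * ρ (1, b) +
          ρ (3, κ) + (k (x a) - ρ (1, a)) * ρ (1, b) + ρ (1, a) * (k (x b) - ρ (1, b))
      | 7 => ρ (2, κ) + (k (x c) - ρ (1, c))
      | _ => ρ (2, κ) + (k (x c) - ρ (1, c)) + ρ (3, κ)

/-- The values of the numbers as polynomials. -/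
noncomputable def pp (L : List Con) (x : ℕ → ℝ) (n : Num) : MvPolynomial Num ℝ :=
  pv (fun r => C r) L x (fun n => X n) n

/-- The real values. -/
def rv (L : List Con) (x : ℕ → ℝ) (ρ : Num → ℝ) (n : Num) : ℝ :=
  pv (fun r => r) L x ρ n

theorem eval_pp (L : List Con) (x : ℕ → ℝ) (ρ : Num → ℝ) (n : Num) :
    eval ρ (pp L x n) = rv L x ρ n := by
  unfold pp rv
  obtain ⟨j, κ⟩ := n
  match j with
  | 0 => simp [pv]
  | 1 => simp [pv]
  | j + 2 =>
    simp only [pv]
    rcases L[κ]? with _ | ⟨t, a, b, c⟩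
    · simp
    · cases t
      · match j with
        | 0 => simp
        | 1 => simp
        | 2 => simp
        | 3 => simp
        | 4 => simp
        | j + 5 => simp
      · match j with
        | 0 => simp
        | 1 => simp
        | 2 => simp
        | 3 => simp
        | 4 => simp
        | 5 => simp
        | 6 => simp
        | 7 => simp
        | j + 8 => simp

/-- The number is used by some gate. -/
def Used (L : List Con) : Num → Prop
  | (0, _) => True
  | (1, _) => True
  | (j + 2, κ) => ∃ t a b c, L[κ]? = some (t, a, b, c) ∧ if t then j < 9 else j < 6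

theorem used_of_mem {L : List Con} {z : ℕ} {g : Gate Num} (hg : g ∈ sysGates L z) {n : Num}
    (hn : n ∈ g.nums) : Used L n := by
  rcases mem_sysGates.mp hg with rfl | ⟨⟨t, a, b, c⟩, κ, hk, hg⟩
  · simp only [Gate.nums, List.mem_cons, List.not_mem_nil, or_false] at hn
    rcases hn with rfl | rfl <;> trivial
  · have key : ∀ j, (if t then j < 9 else j < 6) → Used L (j + 2, κ) :=
      fun j hj => ⟨t, a, b, c, hk, hj⟩
    cases t
    · simp only [conGates, List.mem_cons, List.not_mem_nil, or_false] at hg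
      rcases hg with rfl | rfl | rfl | rfl | rfl | rfl <;>
        simp only [Gate.nums, List.mem_cons, List.not_mem_nil, or_false] at hn <;>
        rcases hn with rfl | rfl | rfl <;>
        first | exact key _ (by norm_num) | simp [Used]
    · simp only [conGates, List.mem_cons, List.not_mem_nil, or_false] at hg
      rcases hg with rfl | rfl | rfl | rfl | rfl | rfl | rfl | rfl <;>
        simp only [Gate.nums, List.mem_cons, List.not_mem_nil, or_false] at hn <;>
        first
          | (rcases hn with rfl | rfl | rfl | rfl <;>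
              first | exact key _ (by norm_num) | simp [Used])
          | (rcases hn with rfl | rfl | rfl <;>
              first | exact key _ (by norm_num) | simp [Used])

/-- The gates hold for all parameters. -/
theorem rv_holds {L : List Con} {z : ℕ} {x : ℕ → ℝ} (hL : ∀ e ∈ L, e.holds x) (hz : x z = 1)
    (ρ : Num → ℝ) : ∀ g ∈ sysGates L z, g.holds 1 (rv L x ρ) := by
  intro g hg
  rcases mem_sysGates.mp hg with rfl | ⟨⟨t, a, b, c⟩, κ, hk, hg⟩
  · simp [Gate.holds, rv, pv, hz]
  · have he := hL _ (List.mem_of_getElem? hk)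
    cases t
    · simp only [Con.holds] at he
      simp only [conGates, List.mem_cons, List.not_mem_nil, or_false] at hg
      rcases hg with rfl | rfl | rfl | rfl | rfl | rfl <;>
        simp only [Gate.holds, rv, pv, hk] <;> linarith
    · simp only [Con.holds] at he
      simp only [conGates, List.mem_cons, List.not_mem_nil, or_false] at hg
      rcases hg with rfl | rfl | rfl | rfl | rfl | rfl | rfl | rfl <;>
        simp only [Gate.holds, rv, pv, hk] <;> linarith

/-- A basis vector. -/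
def bas (m : Num) : Num → ℝ := fun n => if n = m then 1 else 0

/-- A difference. -/
def dv (L : List Con) (x : ℕ → ℝ) (m n : Num) : ℝ := rv L x (bas m) n - rv L x (fun _ => 0) n

/-- A mixed second difference. -/
def qv' (L : List Con) (x : ℕ → ℝ) (a b : ℕ) (n : Num) : ℝ :=
  rv L x (fun m => bas (1, a) m + bas (1, b) m) n - rv L x (bas (1, a)) n - rv L x (bas (1, b)) n
    + rv L x (fun _ => 0) n

theorem dv_low (L : List Con) (x : ℕ → ℝ) (j κ : ℕ) (n : Num) (hn : n.1 < 2) :
    dv L x (j + 2, κ) n = 0 := by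
  obtain ⟨i, a⟩ := n
  simp only at hn
  interval_cases i <;> simp [dv, rv, pv, bas]

theorem dv_other (L : List Con) (x : ℕ → ℝ) (j κ κ' i : ℕ) (h : κ ≠ κ') :
    dv L x (j + 2, κ) (i + 2, κ') = 0 := by
  have h' : κ' ≠ κ := h.symm
  simp only [dv, rv, pv]
  rcases L[κ']? with _ | ⟨t, a, b, c⟩
  · simp [bas, h']
  · cases t
    · match i with
      | 0 => simp [bas, h']
      | 1 => simp [bas, h']
      | 2 => simp [bas, h']
      | 3 => simp [bas, h']
      | 4 => simp [bas, h']
      | i + 5 => simp [bas, h']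
    · match i with
      | 0 => simp [bas, h']
      | 1 => simp [bas, h']
      | 2 => simp [bas, h']
      | 3 => simp [bas, h']
      | 4 => simp [bas, h']
      | 5 => simp [bas, h']
      | 6 => simp [bas, h']
      | 7 => simp [bas, h']
      | i + 8 => simp [bas, h']

/-- The signature of the auxiliary numbers of an addition. -/
def sigA : ℕ → ℝ × ℝ × ℝ
  | 0 => (0, 0, 0)
  | 1 => (-1, 0, 0)
  | 2 => (-1, 0, 1)
  | 3 => (-1, -1, 1)
  | 4 => (-1, -1, 0)
  | _ => (0, -1, 0)

theorem sigA_inj (i j : ℕ) (hi : i < 6) (hj : j < 6) (h : sigA i = sigA j) : i = j := by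
  interval_cases i <;> interval_cases j <;> simp [sigA] at h ⊢ <;> norm_num at h

/-- The signature of the auxiliary numbers of a multiplication. -/
def sigM : ℕ → (ℝ × ℝ) × ℝ × ℝ
  | 0 => ((1, 0), 0, 0)
  | 1 => ((0, 1), 0, 0)
  | 2 => ((1, 0), 1, 0)
  | 3 => ((1, 0), 2, 0)
  | 4 => ((1, 1), 2, 0)
  | 5 => ((1, 1), 1, 0)
  | 6 => ((1, 1), 0, 0)
  | 7 => ((1, 0), 0, -1)
  | _ => ((1, 1), 0, -1)

theorem sigM_inj (i j : ℕ) (hi : i < 9) (hj : j < 9) (h : sigM i = sigM j) : i = j := by
  interval_cases i <;> interval_cases j <;> simp [sigM] at h ⊢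

theorem dv_add {L : List Con} {x : ℕ → ℝ} {κ a b c : ℕ} (hk : L[κ]? = some (false, a, b, c))
    (hab : a ≠ b) (hac : a ≠ c) (hbc : b ≠ c) (j : ℕ) (hj : j < 6) :
    dv L x (2, κ) (j + 2, κ) = 1 ∧
    (dv L x (1, a) (j + 2, κ), dv L x (1, b) (j + 2, κ), dv L x (1, c) (j + 2, κ)) = sigA j := by
  have h1 := hab.symm
  have h2 := hac.symm
  have h3 := hbc.symm
  simp only [dv, rv, pv, hk]
  interval_cases j <;> simp [bas, sigA, hab, hac, hbc, h1, h2, h3]
  ring

theorem dv_mul {L : List Con} {x : ℕ → ℝ} {κ a b c : ℕ} (hk : L[κ]? = some (true, a, b, c))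
    (hab : a ≠ b) (hac : a ≠ c) (hbc : b ≠ c) (j : ℕ) (hj : j < 9) :
    ((dv L x (2, κ) (j + 2, κ), dv L x (3, κ) (j + 2, κ)), qv' L x a b (j + 2, κ),
      dv L x (1, c) (j + 2, κ)) = sigM j := by
  have h1 := hab.symm
  have h2 := hac.symm
  have h3 := hbc.symm
  simp only [dv, qv', rv, pv, hk]
  interval_cases j <;> simp [bas, sigM, hab, hac, hbc, h1, h2, h3] <;> ring

theorem rv_inj {L : List Con} {x : ℕ → ℝ} (hL : ∀ e ∈ L, e.dist) {n n' : Num} (hn : Used L n)
    (hn' : Used L n') (h : ∀ ρ, rv L x ρ n = rv L x ρ n') : n = n' := by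
  have hdv : ∀ m, dv L x m n = dv L x m n' := fun m => by simp only [dv, h]
  have hqv : ∀ a b, qv' L x a b n = qv' L x a b n' := fun a b => by simp only [qv', h]
  -- an auxiliary number has a nonzero private coefficient
  have haux : ∀ j κ, Used L (j + 2, κ) → dv L x (2, κ) (j + 2, κ) ≠ 0 ∨
      dv L x (3, κ) (j + 2, κ) ≠ 0 := by
    rintro j κ ⟨t, a, b, c, hk, hj⟩
    obtain ⟨h1, h2, h3⟩ := hL _ (List.mem_of_getElem? hk)
    cases t
    · left
      rw [(dv_add (x := x) hk h1 h2 h3 j (by simpa using hj)).1]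
      exact one_ne_zero
    · have hj' : j < 9 := by simpa using hj
      have h4 := dv_mul (x := x) hk h1 h2 h3 j hj'
      have h5 : dv L x (2, κ) (j + 2, κ) = (sigM j).1.1 := congrArg (fun p => p.1.1) h4
      have h6 : dv L x (3, κ) (j + 2, κ) = (sigM j).1.2 := congrArg (fun p => p.1.2) h4
      rw [h5, h6]
      interval_cases j <;> simp [sigM]
  obtain ⟨i, κ⟩ := n
  obtain ⟨i', κ'⟩ := n'
  by_cases hi : i < 2 <;> by_cases hi' : i' < 2
  · have h1 := hdv (1, κ)
    have h2 := hdv (1, κ')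
    interval_cases i <;> interval_cases i' <;> simp [dv, rv, pv, bas] at h1 h2 ⊢
    · exact h2
    · split_ifs at h1 <;> norm_num at h1
    · split_ifs at h1 <;> norm_num at h1
    · by_contra hcon
      have : ¬ κ' = κ := fun h => hcon h.symm
      simp [this] at h1
  · exfalso
    obtain ⟨j, rfl⟩ : ∃ j, i' = j + 2 := ⟨i' - 2, by omega⟩
    rcases haux j κ' hn' with h1 | h1
    · apply h1
      rw [← hdv]
      exact dv_low L x 0 κ' _ hi
    · apply h1
      rw [← hdv]
      exact dv_low L x 1 κ' _ hi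
  · exfalso
    obtain ⟨j, rfl⟩ : ∃ j, i = j + 2 := ⟨i - 2, by omega⟩
    rcases haux j κ hn with h1 | h1
    · apply h1
      rw [hdv]
      exact dv_low L x 0 κ _ hi'
    · apply h1
      rw [hdv]
      exact dv_low L x 1 κ _ hi'
  · obtain ⟨j, rfl⟩ : ∃ j, i = j + 2 := ⟨i - 2, by omega⟩
    obtain ⟨j', rfl⟩ : ∃ j, i' = j + 2 := ⟨i' - 2, by omega⟩
    by_cases hκ : κ = κ'
    · subst hκ
      obtain ⟨t, a, b, c, hk, hj⟩ := hn
      obtain ⟨t', a', b', c', hk', hj'⟩ := hn'
      rw [hk] at hk'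
      simp only [Option.some.injEq, Prod.mk.injEq] at hk'
      obtain ⟨rfl, rfl, rfl, rfl⟩ := hk'
      obtain ⟨h1, h2, h3⟩ := hL _ (List.mem_of_getElem? hk)
      cases t
      · have e1 := (dv_add (x := x) hk h1 h2 h3 j (by simpa using hj)).2
        have e2 := (dv_add (x := x) hk h1 h2 h3 j' (by simpa using hj')).2
        rw [hdv, hdv, hdv] at e1
        rw [sigA_inj j j' (by simpa using hj) (by simpa using hj') (e1.symm.trans e2)]
      · have e1 := dv_mul (x := x) hk h1 h2 h3 j (by simpa using hj)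
        have e2 := dv_mul (x := x) hk h1 h2 h3 j' (by simpa using hj')
        rw [hdv, hdv, hdv, hqv] at e1
        rw [sigM_inj j j' (by simpa using hj) (by simpa using hj') (e1.symm.trans e2)]
    · exfalso
      rcases haux j κ hn with h1 | h1
      · apply h1
        rw [hdv]
        exact dv_other L x 0 κ κ' j' hκ
      · apply h1
        rw [hdv]
        exact dv_other L x 1 κ κ' j' hκ

theorem rv_nonconst {L : List Con} {x : ℕ → ℝ} (hL : ∀ e ∈ L, e.dist) {n : Num}
    (hn : Used L n) : ∃ m, rv L x (bas m) n ≠ rv L x (fun _ => 0) n := by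
  by_contra hcon
  push Not at hcon
  have hdv : ∀ m, dv L x m n = 0 := fun m => by simp only [dv, hcon, sub_self]
  obtain ⟨i, κ⟩ := n
  by_cases hi : i < 2
  · have h1 := hdv (1, κ)
    interval_cases i <;> simp [dv, rv, pv, bas] at h1
  · obtain ⟨j, rfl⟩ : ∃ j, i = j + 2 := ⟨i - 2, by omega⟩
    obtain ⟨t, a, b, c, hk, hj⟩ := hn
    obtain ⟨h1, h2, h3⟩ := hL _ (List.mem_of_getElem? hk)
    cases t
    · have e1 := (dv_add (x := x) hk h1 h2 h3 j (by simpa using hj)).1
      rw [hdv] at e1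
      norm_num at e1
    · have e1 := dv_mul (x := x) hk h1 h2 h3 j (by simpa using hj)
      rw [hdv, hdv] at e1
      have hj' : j < 9 := by simpa using hj
      have e2 := congrArg (fun p => p.1) e1
      simp only at e2
      interval_cases j <;> simp [sigM] at e2

/-- Finitely many nonconstant distinct polynomials take, at some common point, distinct values
outside `{0, 1, -1}` with no product equal to `-1`. -/
theorem exists_generic {ι σ : Type} [DecidableEq ι] (S : Finset ι) (p : ι → MvPolynomial σ ℝ)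
    (hinj : ∀ i ∈ S, ∀ j ∈ S, i ≠ j → p i ≠ p j) (hc : ∀ i ∈ S, ∀ c, p i ≠ C c) :
    ∃ ρ : σ → ℝ, (∀ i ∈ S, ∀ j ∈ S, eval ρ (p i) = eval ρ (p j) → i = j) ∧
      (∀ i ∈ S, ∀ j ∈ S, eval ρ (p i) * eval ρ (p j) ≠ -1) ∧
      (∀ i ∈ S, eval ρ (p i) ≠ 0 ∧ eval ρ (p i) ≠ 1 ∧ eval ρ (p i) ≠ -1) := by
  set Q : MvPolynomial σ ℝ := (∏ i ∈ S, ∏ j ∈ S, if i = j then 1 else p i - p j) *
    (∏ i ∈ S, ∏ j ∈ S, (p i * p j + 1)) * (∏ i ∈ S, p i * (p i - 1) * (p i + 1)) with hQ
  have hQ0 : Q ≠ 0 := by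
    refine mul_ne_zero (mul_ne_zero ?_ ?_) ?_
    · refine Finset.prod_ne_zero_iff.mpr (fun i hi => Finset.prod_ne_zero_iff.mpr (fun j hj => ?_))
      split_ifs with h
      · exact one_ne_zero
      · exact sub_ne_zero.mpr (hinj i hi j hj h)
    · refine Finset.prod_ne_zero_iff.mpr (fun i hi => Finset.prod_ne_zero_iff.mpr (fun j hj => ?_))
      intro h
      have h1 : p i * p j = C (-1) := by
        rw [eq_neg_of_add_eq_zero_left h, map_neg, map_one]
      have h2 : (p i * p j).totalDegree = 0 := by rw [h1, totalDegree_C]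
      have hi0 : p i ≠ 0 := by
        have := hc i hi 0
        rwa [map_zero] at this
      have hj0 : p j ≠ 0 := by
        have := hc j hj 0
        rwa [map_zero] at this
      rw [totalDegree_mul_of_isDomain hi0 hj0] at h2
      exact hc i hi _ (totalDegree_eq_zero_iff_eq_C.mp (by omega))
    · refine Finset.prod_ne_zero_iff.mpr (fun i hi => mul_ne_zero (mul_ne_zero ?_ ?_) ?_)
      · have := hc i hi 0
        rwa [map_zero] at this
      · have := hc i hi 1
        rw [map_one] at this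
        exact sub_ne_zero.mpr this
      · have := hc i hi (-1)
        rw [map_neg, map_one] at this
        intro h
        exact this (eq_neg_of_add_eq_zero_left h)
  obtain ⟨ρ, hρ⟩ : ∃ ρ, eval ρ Q ≠ 0 := by
    by_contra hcon
    push Not at hcon
    exact hQ0 (MvPolynomial.funext (fun ρ => by rw [hcon, map_zero]))
  rw [hQ, map_mul, map_mul, map_prod, map_prod, map_prod] at hρ
  have h1 := left_ne_zero_of_mul (left_ne_zero_of_mul hρ)
  have h2 := right_ne_zero_of_mul (left_ne_zero_of_mul hρ)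
  have h3 := right_ne_zero_of_mul hρ
  refine ⟨ρ, fun i hi j hj h => ?_, fun i hi j hj h => ?_, fun i hi => ?_⟩
  · by_contra hcon
    have h4 := Finset.prod_ne_zero_iff.mp h1 i hi
    rw [map_prod] at h4
    have h5 := Finset.prod_ne_zero_iff.mp h4 j hj
    rw [if_neg hcon, map_sub, h, sub_self] at h5
    exact h5 rfl
  · have h4 := Finset.prod_ne_zero_iff.mp h2 i hi
    rw [map_prod] at h4
    have h5 := Finset.prod_ne_zero_iff.mp h4 j hj
    rw [map_add, map_mul, h, map_one] at h5
    exact h5 (by norm_num)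
  · have h4 := Finset.prod_ne_zero_iff.mp h3 i hi
    rw [map_mul, map_mul, map_sub, map_add, map_one] at h4
    refine ⟨fun h => ?_, fun h => ?_, fun h => ?_⟩
    · rw [h] at h4; norm_num at h4
    · rw [h] at h4; norm_num at h4
    · rw [h] at h4; norm_num at h4

theorem nodup_keys {L : List Con} {z : ℕ} (hL : ∀ e ∈ L, e.dist) :
    ((sysGates L z).map Gate.vkey).Nodup := by
  have hsnd : ∀ e κ, ∀ g ∈ conGates (e, κ), ∃ j, g.vkey.2 = some (j + 2, κ) := by
    rintro ⟨t, a, b, c⟩ κ g hg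
    cases t
    · simp only [conGates, List.mem_cons, List.not_mem_nil, or_false] at hg
      rcases hg with rfl | rfl | rfl | rfl | rfl | rfl <;> exact ⟨_, rfl⟩
    · simp only [conGates, List.mem_cons, List.not_mem_nil, or_false] at hg
      rcases hg with rfl | rfl | rfl | rfl | rfl | rfl | rfl | rfl <;> exact ⟨_, rfl⟩
  rw [sysGates, List.map_cons, List.nodup_cons]
  constructor
  · intro h
    obtain ⟨g, hg, h1⟩ := List.mem_map.mp h
    obtain ⟨⟨e, κ⟩, _, hg⟩ := List.mem_flatMap.mp hg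
    obtain ⟨j, hj⟩ := hsnd e κ g hg
    rw [h1] at hj
    simp [Gate.vkey] at hj
  · rw [List.map_flatMap, List.nodup_flatMap]
    constructor
    · rintro ⟨⟨t, a, b, c⟩, κ⟩ he
      have he' := List.mk_mem_zipIdx_iff_getElem?.mp he
      obtain ⟨h1, h2, h3⟩ := hL _ (List.mem_of_getElem? he')
      cases t
      · simp [conGates, Gate.vkey, h2]
      · simp [conGates, Gate.vkey, h2]
    · have hp : L.zipIdx.Pairwise (fun p q => p.2 ≠ q.2) := by
        have := List.nodup_range' (n := L.length) (s := 0)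
        have h2 : (L.zipIdx.map Prod.snd).Nodup := by
          rw [List.zipIdx_map_snd]
          exact this
        exact List.pairwise_map.mp h2
      refine hp.imp ?_
      rintro ⟨e, κ⟩ ⟨e', κ'⟩ hne
      simp only [Function.onFun]
      rw [List.disjoint_left]
      intro k hk hk'
      obtain ⟨g, hg, rfl⟩ := List.mem_map.mp hk
      obtain ⟨g', hg', h⟩ := List.mem_map.mp hk'
      obtain ⟨j, hj⟩ := hsnd e κ g hg
      obtain ⟨j', hj'⟩ := hsnd e' κ' g' hg'
      rw [h, hj] at hj'
      simp only [Option.some.injEq, Prod.mk.injEq] at hj'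
      exact hne hj'.2

theorem layer1_complete {L : List Con} {z : ℕ} {x : ℕ → ℝ} (hL : ∀ e ∈ L, e.holds x)
    (hd : ∀ e ∈ L, e.dist) (hz : x z = 1) : ∃ y : Num → ℝ, GoodVal (sysGates L z) y := by
  classical
  set S : Finset Num := ((sysGates L z).flatMap Gate.nums).toFinset with hS
  have hmem : ∀ g ∈ sysGates L z, ∀ a ∈ g.nums, a ∈ S := fun g hg a ha => by
    rw [hS, List.mem_toFinset, List.mem_flatMap]
    exact ⟨g, hg, ha⟩
  have hused : ∀ n ∈ S, Used L n := fun n hn => by
    rw [hS, List.mem_toFinset, List.mem_flatMap] at hn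
    obtain ⟨g, hg, ha⟩ := hn
    exact used_of_mem hg ha
  obtain ⟨ρ, h1, h2, h3⟩ := exists_generic S (pp L x) (fun i hi j hj hij h => by
    refine hij (rv_inj (x := x) hd (hused i hi) (hused j hj) (fun ρ => ?_))
    rw [← eval_pp, ← eval_pp, h]) (fun i hi c h => by
    obtain ⟨m, hm⟩ := rv_nonconst (x := x) hd (hused i hi)
    rw [← eval_pp, ← eval_pp, h, eval_C, eval_C] at hm
    exact hm rfl)
  simp only [eval_pp] at h1 h2 h3
  have hkey : ∀ (i i' : ℕ) (g g' : Gate Num), (sysGates L z)[i]? = some g →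
      (sysGates L z)[i']? = some g' → g.vkey = g'.vkey → i = i' := by
    intro i i' g g' hi hi' hk
    have hn := nodup_keys (L := L) (z := z) hd
    obtain ⟨l1, e1⟩ := List.getElem?_eq_some_iff.mp hi
    obtain ⟨l2, e2⟩ := List.getElem?_eq_some_iff.mp hi'
    have := (hn.getElem_inj_iff (hi := by simpa using l1) (hj := by simpa using l2)).mp (by
      rw [List.getElem_map, List.getElem_map, e1, e2, hk])
    exact this
  refine ⟨rv L x ρ, rv_holds hL hz ρ, ?_, ?_, ?_, hkey, ?_, ?_⟩
  · exact fun g hg a ha g' hg' a' ha' h => h1 a (hmem g hg a ha) a' (hmem g' hg' a' ha') h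
  · exact fun g hg a ha g' hg' a' ha' => h2 a (hmem g hg a ha) a' (hmem g' hg' a' ha')
  · exact fun g hg a ha => h3 a (hmem g hg a ha)
  · intro i i' s t m w s' w' hi hi'
    refine hkey i i' _ _ hi hi' ?_
    have g1 := List.mem_of_getElem? hi
    have g2 := List.mem_of_getElem? hi'
    rcases mem_sysGates.mp g1 with h | ⟨⟨t1, a, b, c⟩, κ, hk, hg⟩
    · simp at h
    rcases mem_sysGates.mp g2 with h | ⟨⟨t2, a', b', c'⟩, κ', hk', hg'⟩
    · simp at h
    cases t1
    · simp [conGates] at hg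
    cases t2
    · simp [conGates] at hg'
    have hκ : κ = κ' := by
      simp only [conGates, List.mem_cons, List.not_mem_nil, or_false, Sum.inr.injEq,
        Sum.inl.injEq, Prod.mk.injEq, reduceCtorEq, false_or, or_false] at hg hg'
      have e1 : m.2 = κ := by
        rcases hg with ⟨-, -, h, -⟩ | ⟨-, -, h, -⟩ | ⟨-, -, h, -⟩ | ⟨-, -, h, -⟩ <;> rw [h]
      have e2 : m.2 = κ' := by
        rcases hg' with ⟨-, -, h, -⟩ | ⟨-, -, h, -⟩ | ⟨-, -, h, -⟩ | ⟨-, -, h, -⟩ <;> rw [h]
      rw [← e1, ← e2]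
    subst hκ
    rw [hk] at hk'
    simp only [Option.some.injEq, Prod.mk.injEq, true_and] at hk'
    obtain ⟨rfl, rfl, rfl⟩ := hk'
    simp only [conGates, List.mem_cons, List.not_mem_nil, or_false, Sum.inr.injEq,
      Sum.inl.injEq, Prod.mk.injEq, reduceCtorEq, false_or, or_false] at hg hg'
    rcases hg with ⟨rfl, -, rfl, rfl⟩ | ⟨rfl, -, rfl, rfl⟩ | ⟨rfl, -, rfl, rfl⟩ |
        ⟨rfl, -, rfl, rfl⟩ <;>
      rcases hg' with ⟨rfl, -, h, rfl⟩ | ⟨rfl, -, h, rfl⟩ | ⟨rfl, -, h, rfl⟩ |
        ⟨rfl, -, h, rfl⟩ <;>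
      first | rfl | (simp at h)
  · intro g hg
    rcases mem_sysGates.mp hg with rfl | ⟨⟨t, a, b, c⟩, κ, hk, hg⟩
    · simp [Gate.vkey]
    · cases t
      · simp only [conGates, List.mem_cons, List.not_mem_nil, or_false] at hg
        rcases hg with rfl | rfl | rfl | rfl | rfl | rfl <;> simp [Gate.vkey]
      · simp only [conGates, List.mem_cons, List.not_mem_nil, or_false] at hg
        rcases hg with rfl | rfl | rfl | rfl | rfl | rfl | rfl | rfl <;> simp [Gate.vkey]

end Pool.Agent.Lib.MP_0f8b55_lc
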