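import Pool.Agent.Lib.MP_0f8b55_lc.Defs
import Pool.Agent.Lib.MP_0f8b55_lc.Layer1

/-!
# From formulas to addition and multiplication constraints
-/

namespace Pool.Agent.Lib.MP_0f8b55_lc

/-- The instructions of the stack machine. -/
inductive Ins where
  | zero | one | free | dup | swap | sw23 | sw34 | add | mul | sub
  deriving DecidableEq

instance : Fintype Ins where
  elems := {.zero, .one, .free, .dup, .swap, .sw23, .sw34, .add, .mul, .sub}
  complete := by intro x; cases x <;> simp

/-- An instruction: push a variable or an operation. -/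
abbrev Mic : Type := ℕ ⊕ Ins

/-! ### The semantics with real numbers -/

/-- One step of the machine on real numbers (the instruction `free` pushes an arbitrary number). -/
def VStep (ξ : ℕ → ℝ) (m : Mic) (s s' : List ℝ) : Prop :=
  match m with
  | .inl i => s' = ξ i :: s
  | .inr .zero => s' = 0 :: s
  | .inr .one => s' = 1 :: s
  | .inr .free => ∃ r, s' = r :: s
  | .inr .dup => s' = s.getD 0 (ξ 0) :: s
  | .inr .swap => s' = s.getD 1 (ξ 0) :: s.getD 0 (ξ 0) :: s.drop 2
  | .inr .sw23 => s' = s.getD 0 (ξ 0) :: s.getD 2 (ξ 0) :: s.getD 1 (ξ 0) :: s.drop 3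
  | .inr .sw34 => s' = s.getD 0 (ξ 0) :: s.getD 1 (ξ 0) :: s.getD 3 (ξ 0) :: s.getD 2 (ξ 0) ::
      s.drop 4
  | .inr .add => s' = (s.getD 1 (ξ 0) + s.getD 0 (ξ 0)) :: s.drop 2
  | .inr .mul => s' = (s.getD 1 (ξ 0) * s.getD 0 (ξ 0)) :: s.drop 2
  | .inr .sub => s' = (s.getD 1 (ξ 0) - s.getD 0 (ξ 0)) :: s.drop 2

/-- A run of the machine on real numbers. -/
def VRun (ξ : ℕ → ℝ) : List Mic → List ℝ → List ℝ → Prop
  | [], s, s' => s' = s
  | m :: l, s, s' => ∃ s1, VStep ξ m s s1 ∧ VRun ξ l s1 s'

theorem vrun_append (ξ : ℕ → ℝ) (l l' : List Mic) (s s' : List ℝ) :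
    VRun ξ (l ++ l') s s' ↔ ∃ s1, VRun ξ l s s1 ∧ VRun ξ l' s1 s' := by
  induction l generalizing s with
  | nil => simp [VRun]
  | cons m l ih =>
    simp only [List.cons_append, VRun, ih]
    constructor
    · rintro ⟨s1, h1, s2, h2, h3⟩
      exact ⟨s2, ⟨s1, h1, h2⟩, h3⟩
    · rintro ⟨s2, ⟨s1, h1, h2⟩, h3⟩
      exact ⟨s1, h1, s2, h2, h3⟩

/-- The instructions for a binary digit. -/
def digitMics (d : ℕ) : List Mic :=
  if d = 0 then [.inr .dup, .inr .add] else [.inr .dup, .inr .add, .inr .one, .inr .add]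

/-- The instructions for `<`. -/
def ltMics : List Mic :=
  [.inr .swap, .inr .sub, .inr .dup, .inr .free, .inr .dup, .inr .mul, .inr .mul, .inr .one,
    .inr .sub, .inr .swap, .inr .free, .inr .dup, .inr .mul, .inr .add]

/-- The instructions for conjunction. -/
def andMics : List Mic :=
  [.inr .sw23, .inr .mul, .inr .swap, .inr .sw23, .inr .dup, .inr .mul, .inr .swap, .inr .dup,
    .inr .mul, .inr .add, .inr .swap]

/-- The instructions for an operation symbol. -/
def Sym.mics : Sym → List Mic
  | .add => [.inr .add]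
  | .mul => [.inr .mul]
  | .eq => [.inr .sub, .inr .dup, .inr .free, .inr .mul, .inr .one, .inr .sub]
  | .lt => ltMics
  | .le => .inr .swap :: (ltMics ++ [.inr .swap])
  | .not => [.inr .swap]
  | .and => andMics
  | .or => .inr .swap :: .inr .sw34 :: (andMics ++ [.inr .swap])

/-- The instructions for a token. -/
def Tok.mics : Tok → List Mic
  | .var i => [.inl i]
  | .const neg l => .inr .zero :: (l.reverse.flatMap digitMics ++
      if neg then [.inr .zero, .inr .swap, .inr .sub] else [])
  | .op s => s.mics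

theorem vrun_digit (ξ : ℕ → ℝ) (d : ℕ) (hd : d < 2) (v : ℝ) (s s' : List ℝ) :
    VRun ξ (digitMics d) (v :: s) s' ↔ s' = (d + 2 * v) :: s := by
  interval_cases d
  · simp [digitMics, VRun, VStep, two_mul]
  · simp [digitMics, VRun, VStep, two_mul, add_comm]

theorem vrun_digits (ξ : ℕ → ℝ) (l : List ℕ) (hl : ∀ d ∈ l, d < 2) (s s' : List ℝ) :
    VRun ξ (l.reverse.flatMap digitMics) (0 :: s) s' ↔ s' = ((Nat.ofDigits 2 l : ℕ) : ℝ) :: s := by
  induction l generalizing s' with
  | nil => simp [VRun, Nat.ofDigits]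
  | cons d l ih =>
    rw [List.reverse_cons, List.flatMap_append, vrun_append]
    simp only [List.flatMap_cons, List.flatMap_nil, List.append_nil]
    constructor
    · rintro ⟨s1, h1, h2⟩
      rw [ih (fun d hd => hl d (List.mem_cons_of_mem _ hd))] at h1
      subst h1
      rw [vrun_digit ξ d (hl d (List.mem_cons_self ..))] at h2
      rw [h2, Nat.ofDigits_cons]
      push_cast
      rfl
    · intro h
      refine ⟨_, (ih (fun d hd => hl d (List.mem_cons_of_mem _ hd)) _).mpr rfl, ?_⟩
      rw [vrun_digit ξ d (hl d (List.mem_cons_self ..)), h, Nat.ofDigits_cons]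
      push_cast
      rfl

theorem vrun_trm (ξ : ℕ → ℝ) (t : Trm) (s s' : List ℝ) :
    VRun ξ (t.toks.flatMap Tok.mics) s s' ↔ s' = t.val ξ :: s := by
  induction t generalizing s s' with
  | var i => simp [Trm.toks, Tok.mics, VRun, VStep, Trm.val]
  | const c =>
    have hd : ∀ d ∈ Nat.digits 2 c.natAbs, d < 2 := fun d hd => Nat.digits_lt_base (by norm_num) hd
    have h0 : ∀ s', VRun ξ (.inr .zero :: (Nat.digits 2 c.natAbs).reverse.flatMap digitMics) s s' ↔
        s' = ((c.natAbs : ℕ) : ℝ) :: s := by
      intro s'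
      simp only [VRun, VStep, exists_eq_left]
      rw [vrun_digits ξ _ hd, Nat.ofDigits_digits]
    simp only [Trm.toks, List.flatMap_cons, List.flatMap_nil, List.append_nil, Tok.mics]
    rw [← List.cons_append, vrun_append]
    simp only [h0, exists_eq_left]
    by_cases hc : c < 0
    · have h1 : ((c.natAbs : ℕ) : ℝ) = -(c : ℝ) := by
        have : ((c.natAbs : ℕ) : ℤ) = -c := by omega
        have h2 : (((c.natAbs : ℕ) : ℤ) : ℝ) = ((-c : ℤ) : ℝ) := by rw [this]
        push_cast at h2
        simpa using h2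
      simp [hc, VRun, VStep, Trm.val, h1]
    · have h1 : ((c.natAbs : ℕ) : ℝ) = (c : ℝ) := by
        have : ((c.natAbs : ℕ) : ℤ) = c := by omega
        have h2 : (((c.natAbs : ℕ) : ℤ) : ℝ) = ((c : ℤ) : ℝ) := by rw [this]
        simpa using h2
      simp [hc, VRun, Trm.val, h1]
  | add t u ht hu =>
    simp only [Trm.toks, List.flatMap_append, vrun_append, ht, hu, exists_eq_left]
    simp [Tok.mics, Sym.mics, VRun, VStep, Trm.val]
  | mul t u ht hu =>
    simp only [Trm.toks, List.flatMap_append, vrun_append, ht, hu, exists_eq_left]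
    simp [Tok.mics, Sym.mics, VRun, VStep, Trm.val]

theorem vrun_lt (ξ : ℕ → ℝ) (a b : ℝ) (s s' : List ℝ) :
    VRun ξ ltMics (b :: a :: s) s' ↔
      ∃ y z, s' = ((b - a) + z * z) :: ((b - a) * (y * y) - 1) :: s := by
  simp [ltMics, VRun, VStep]

theorem vrun_and (ξ : ℕ → ℝ) (p q p' q' : ℝ) (s s' : List ℝ) :
    VRun ξ andMics (q' :: p' :: q :: p :: s) s' ↔
      s' = (q * q') :: (p' * p' + p * p) :: s := by
  simp [andMics, VRun, VStep]

theorem vrun_sound (ξ : ℕ → ℝ) (φ : Fml) (s s' : List ℝ)
    (h : VRun ξ (φ.toks.flatMap Tok.mics) s s') :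
    ∃ P Q, s' = Q :: P :: s ∧ (P = 0 → φ.Holds ξ) ∧ (Q = 0 → ¬ φ.Holds ξ) := by
  induction φ generalizing s s' with
  | eq t u =>
    simp only [Fml.toks, List.flatMap_append, vrun_append, vrun_trm, exists_eq_left] at h
    simp only [List.flatMap_cons, List.flatMap_nil, List.append_nil, Tok.mics, Sym.mics, VRun,
      VStep, exists_eq_left, List.getD_cons_zero, List.getD_cons_succ, List.drop_succ_cons,
      List.drop_zero] at h
    obtain ⟨s1, ⟨y, rfl⟩, h⟩ := h
    simp at h
    refine ⟨t.val ξ - u.val ξ, (t.val ξ - u.val ξ) * y - 1, h, fun h => ?_, fun h h' => ?_⟩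
    · simp only [Fml.Holds]; linarith
    · simp only [Fml.Holds] at h'
      rw [h'] at h
      simp at h
  | lt t u =>
    simp only [Fml.toks, List.flatMap_append, vrun_append, vrun_trm, exists_eq_left] at h
    simp only [List.flatMap_cons, List.flatMap_nil, List.append_nil, Tok.mics, Sym.mics,
      vrun_lt] at h
    obtain ⟨y, z, rfl⟩ := h
    refine ⟨_, _, rfl, fun h => ?_, fun h => ?_⟩
    · simp only [Fml.Holds]
      by_contra hcon
      push Not at hcon
      nlinarith [mul_self_nonneg y]
    · simp only [Fml.Holds]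
      nlinarith [mul_self_nonneg z]
  | le t u =>
    simp only [Fml.toks, List.flatMap_append, vrun_append, vrun_trm, exists_eq_left] at h
    simp only [List.flatMap_cons, List.flatMap_nil, List.append_nil, Tok.mics, Sym.mics,
      VRun, VStep, exists_eq_left, List.getD_cons_zero, List.getD_cons_succ,
      List.drop_succ_cons, List.drop_zero, vrun_append, vrun_lt] at h
    obtain ⟨s1, ⟨y, z, rfl⟩, h⟩ := h
    simp at h
    refine ⟨_, _, h, fun h => ?_, fun h => ?_⟩
    · simp only [Fml.Holds]
      nlinarith [mul_self_nonneg z]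
    · simp only [Fml.Holds]
      by_contra hcon
      nlinarith [mul_self_nonneg y]
  | not φ ih =>
    simp only [Fml.toks, List.flatMap_append, vrun_append] at h
    obtain ⟨s1, h1, h2⟩ := h
    obtain ⟨P, Q, rfl, h3, h4⟩ := ih _ _ h1
    simp [Tok.mics, Sym.mics, VRun, VStep] at h2
    refine ⟨Q, P, h2, fun h => by simpa [Fml.Holds] using h4 h, fun h => by
      simpa [Fml.Holds] using h3 h⟩
  | and φ ψ ih ih' =>
    simp only [Fml.toks, List.flatMap_append, vrun_append] at h
    obtain ⟨s2, ⟨s1, h1, h2⟩, h3⟩ := h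
    obtain ⟨P, Q, rfl, h4, h5⟩ := ih _ _ h1
    obtain ⟨P', Q', rfl, h6, h7⟩ := ih' _ _ h2
    simp only [List.flatMap_cons, List.flatMap_nil, List.append_nil, Tok.mics, Sym.mics,
      vrun_and] at h3
    refine ⟨_, _, h3, fun h => ?_, fun h => ?_⟩
    · have e1 : P = 0 := mul_self_eq_zero.mp (by nlinarith [mul_self_nonneg P, mul_self_nonneg P'])
      have e2 : P' = 0 := mul_self_eq_zero.mp (by nlinarith [mul_self_nonneg P, mul_self_nonneg P'])
      exact ⟨h4 e1, h6 e2⟩
    · rintro ⟨hφ, hψ⟩
      rcases mul_eq_zero.mp h with h | h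
      · exact h5 h hφ
      · exact h7 h hψ
  | or φ ψ ih ih' =>
    simp only [Fml.toks, List.flatMap_append, vrun_append] at h
    obtain ⟨s2, ⟨s1, h1, h2⟩, h3⟩ := h
    obtain ⟨P, Q, rfl, h4, h5⟩ := ih _ _ h1
    obtain ⟨P', Q', rfl, h6, h7⟩ := ih' _ _ h2
    simp only [List.flatMap_cons, List.flatMap_nil, List.append_nil, Tok.mics, Sym.mics,
      VRun, VStep, exists_eq_left, List.getD_cons_zero, List.getD_cons_succ,
      List.drop_succ_cons, List.drop_zero, vrun_append, vrun_and] at h3
    refine ⟨_, _, h3, fun h => ?_, fun h => ?_⟩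
    · rcases mul_eq_zero.mp h with h | h
      · exact Or.inl (h4 h)
      · exact Or.inr (h6 h)
    · have e1 : Q = 0 := mul_self_eq_zero.mp (by nlinarith [mul_self_nonneg Q, mul_self_nonneg Q'])
      have e2 : Q' = 0 := mul_self_eq_zero.mp (by nlinarith [mul_self_nonneg Q, mul_self_nonneg Q'])
      rintro (hφ | hψ)
      · exact h5 e1 hφ
      · exact h7 e2 hψ

theorem exists_sq_inv {D : ℝ} (h : 0 < D) : ∃ y, D * (y * y) - 1 = 0 := by
  refine ⟨1 / Real.sqrt D, ?_⟩
  have h1 : Real.sqrt D * Real.sqrt D = D := Real.mul_self_sqrt h.le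
  have h2 : Real.sqrt D ≠ 0 := (Real.sqrt_pos.mpr h).ne'
  have h3 : D * (1 / Real.sqrt D * (1 / Real.sqrt D)) = 1 := by
    field_simp
    rw [sq, h1]
  linarith

theorem exists_sq_neg {D : ℝ} (h : D ≤ 0) : ∃ z, D + z * z = 0 := by
  refine ⟨Real.sqrt (-D), ?_⟩
  rw [Real.mul_self_sqrt (by linarith)]
  ring

theorem vrun_complete (ξ : ℕ → ℝ) (φ : Fml) (s : List ℝ) :
    ∃ P Q, VRun ξ (φ.toks.flatMap Tok.mics) s (Q :: P :: s) ∧ (φ.Holds ξ → P = 0) ∧
      (¬ φ.Holds ξ → Q = 0) := by
  induction φ generalizing s with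
  | eq t u =>
    simp only [Fml.toks, List.flatMap_append, vrun_append, vrun_trm, exists_eq_left]
    simp only [List.flatMap_cons, List.flatMap_nil, List.append_nil, Tok.mics, Sym.mics, VRun,
      VStep, exists_eq_left, List.getD_cons_zero, List.getD_cons_succ, List.drop_succ_cons,
      List.drop_zero]
    refine ⟨t.val ξ - u.val ξ, (t.val ξ - u.val ξ) * (t.val ξ - u.val ξ)⁻¹ - 1,
      ⟨_, ⟨(t.val ξ - u.val ξ)⁻¹, rfl⟩, by simp⟩, fun h => ?_, fun h => ?_⟩
    · simp only [Fml.Holds] at h; rw [h]; ring
    · simp only [Fml.Holds] at h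
      rw [mul_inv_cancel₀ (sub_ne_zero.mpr h), sub_self]
  | lt t u =>
    simp only [Fml.toks, List.flatMap_append, vrun_append, vrun_trm, exists_eq_left]
    simp only [List.flatMap_cons, List.flatMap_nil, List.append_nil, Tok.mics, Sym.mics,
      vrun_lt]
    by_cases h : t.val ξ < u.val ξ
    · obtain ⟨y, hy⟩ := exists_sq_inv (sub_pos.mpr h)
      exact ⟨_, _, ⟨y, 0, rfl⟩, fun _ => hy, fun h' => absurd h h'⟩
    · obtain ⟨z, hz⟩ := exists_sq_neg (D := u.val ξ - t.val ξ) (by linarith)
      exact ⟨_, _, ⟨0, z, rfl⟩, fun h' => absurd h' h, fun _ => hz⟩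
  | le t u =>
    simp only [Fml.toks, List.flatMap_append, vrun_append, vrun_trm, exists_eq_left]
    simp only [List.flatMap_cons, List.flatMap_nil, List.append_nil, Tok.mics, Sym.mics,
      VRun, VStep, exists_eq_left, List.getD_cons_zero, List.getD_cons_succ,
      List.drop_succ_cons, List.drop_zero, vrun_append, vrun_lt]
    by_cases h : u.val ξ < t.val ξ
    · obtain ⟨y, hy⟩ := exists_sq_inv (sub_pos.mpr h)
      exact ⟨(t.val ξ - u.val ξ) + 0 * 0, (t.val ξ - u.val ξ) * (y * y) - 1,
        ⟨_, ⟨y, 0, rfl⟩, rfl⟩, fun h' => absurd h (not_lt.mpr h'), fun _ => hy⟩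
    · obtain ⟨z, hz⟩ := exists_sq_neg (D := t.val ξ - u.val ξ) (by linarith)
      exact ⟨(t.val ξ - u.val ξ) + z * z, (t.val ξ - u.val ξ) * (0 * 0) - 1,
        ⟨_, ⟨0, z, rfl⟩, rfl⟩, fun _ => hz, fun h' => absurd (not_lt.mp h) h'⟩
  | not φ ih =>
    obtain ⟨P, Q, h1, h2, h3⟩ := ih s
    simp only [Fml.toks, List.flatMap_append, vrun_append]
    refine ⟨Q, P, ⟨_, h1, by simp [Tok.mics, Sym.mics, VRun, VStep]⟩, fun h => h3 h, fun h => ?_⟩
    exact h2 (by simpa [Fml.Holds] using h)
  | and φ ψ ih ih' =>
    obtain ⟨P, Q, h1, h2, h3⟩ := ih s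
    obtain ⟨P', Q', h1', h2', h3'⟩ := ih' (Q :: P :: s)
    simp only [Fml.toks, List.flatMap_append, vrun_append]
    refine ⟨P' * P' + P * P, Q * Q', ⟨_, ⟨_, h1, h1'⟩, ?_⟩, ?_, ?_⟩
    · simp only [List.flatMap_cons, List.flatMap_nil, List.append_nil, Tok.mics, Sym.mics,
        vrun_and]
    · rintro ⟨h, h'⟩
      rw [h2 h, h2' h']; ring
    · intro h
      simp only [Fml.Holds, not_and_or] at h
      rcases h with h | h
      · rw [h3 h]; ring
      · rw [h3' h]; ring
  | or φ ψ ih ih' =>
    obtain ⟨P, Q, h1, h2, h3⟩ := ih s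
    obtain ⟨P', Q', h1', h2', h3'⟩ := ih' (Q :: P :: s)
    simp only [Fml.toks, List.flatMap_append, vrun_append]
    refine ⟨P * P', Q' * Q' + Q * Q, ⟨_, ⟨_, h1, h1'⟩, ?_⟩, ?_, ?_⟩
    · simp only [List.flatMap_cons, List.flatMap_nil, List.append_nil, Tok.mics, Sym.mics,
        VRun, VStep, exists_eq_left, List.getD_cons_zero, List.getD_cons_succ,
        List.drop_succ_cons, List.drop_zero, vrun_append, vrun_and]
    · rintro (h | h)
      · rw [h2 h]; ring
      · rw [h2' h]; ring
    · intro h
      simp only [Fml.Holds, not_or] at h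
      rw [h3 h.1, h3' h.2]; ring

/-! ### The machine on identifiers -/

/-- The state: the number of allocated identifiers, the stack of identifiers, the constraints. -/
abbrev MSt : Type := ℕ × (List ℕ × List Con)

/-- One step of the machine on identifiers. The identifiers `11`, `13` are zeros, `15` is one. -/
def istep (st : MSt) (m : Mic) : MSt :=
  match m with
  | .inl i => (st.1, 2 * i :: st.2.1, st.2.2)
  | .inr .zero => (st.1, 11 :: st.2.1, st.2.2)
  | .inr .one => (st.1, 15 :: st.2.1, st.2.2)
  | .inr .free => (st.1 + 1, (2 * st.1 + 1) :: st.2.1, st.2.2)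
  | .inr .dup => (st.1, st.2.1.getD 0 0 :: st.2.1, st.2.2)
  | .inr .swap => (st.1, st.2.1.getD 1 0 :: st.2.1.getD 0 0 :: st.2.1.drop 2, st.2.2)
  | .inr .sw23 => (st.1, st.2.1.getD 0 0 :: st.2.1.getD 2 0 :: st.2.1.getD 1 0 :: st.2.1.drop 3,
      st.2.2)
  | .inr .sw34 => (st.1, st.2.1.getD 0 0 :: st.2.1.getD 1 0 :: st.2.1.getD 3 0 ::
      st.2.1.getD 2 0 :: st.2.1.drop 4, st.2.2)
  | .inr .add => (st.1 + 2, (2 * st.1 + 3) :: st.2.1.drop 2,
      (false, st.2.1.getD 0 0, 13, 2 * st.1 + 1) ::
      (false, st.2.1.getD 1 0, 2 * st.1 + 1, 2 * st.1 + 3) :: st.2.2)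
  | .inr .mul => (st.1 + 2, (2 * st.1 + 3) :: st.2.1.drop 2,
      (false, st.2.1.getD 0 0, 13, 2 * st.1 + 1) ::
      (true, st.2.1.getD 1 0, 2 * st.1 + 1, 2 * st.1 + 3) :: st.2.2)
  | .inr .sub => (st.1 + 2, (2 * st.1 + 3) :: st.2.1.drop 2,
      (false, st.2.1.getD 0 0, 13, 2 * st.1 + 1) ::
      (false, 2 * st.1 + 1, 2 * st.1 + 3, st.2.1.getD 1 0) :: st.2.2)

/-- The identifiers in use: all even ones and the odd ones that are allocated. -/
def Old (k i : ℕ) : Prop := i % 2 = 1 → i < 2 * k + 1

/-- All the variables of a constraint are in use. -/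
def Con.old (k : ℕ) : Con → Prop
  | (_, a, b, c) => Old k a ∧ Old k b ∧ Old k c

/-- The invariant. -/
structure Inv (st : MSt) : Prop where
  le : 11 ≤ st.1
  stk : ∀ i ∈ st.2.1, Old st.1 i ∧ i ≠ 13
  dist : ∀ e ∈ st.2.2, e.dist
  old : ∀ e ∈ st.2.2, e.old st.1

/-- The meaning of the global identifiers. -/
def Glob (x : ℕ → ℝ) : Prop := x 11 = 0 ∧ x 13 = 0 ∧ x 15 = 1

theorem Old.mono {k k' i : ℕ} (h : Old k i) (hk : k ≤ k') : Old k' i := fun hi => by
  have := h hi
  omega

theorem Inv.getD {st : MSt} (h : Inv st) (j : ℕ) :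
    Old st.1 (st.2.1.getD j 0) ∧ st.2.1.getD j 0 ≠ 13 := by
  rw [List.getD_eq_getElem?_getD]
  rcases hj : st.2.1[j]? with _ | i
  · simp [Old]
  · exact h.stk i (List.mem_of_getElem? hj)

theorem istep_le (st : MSt) (m : Mic) : st.1 ≤ (istep st m).1 := by
  rcases m with i | m
  · exact le_refl _
  · cases m <;> simp [istep]

theorem istep_out (st : MSt) (m : Mic) : ∀ e ∈ st.2.2, e ∈ (istep st m).2.2 := by
  intro e he
  rcases m with i | m
  · exact he
  · cases m <;> simp [istep, he]

theorem Inv.step {st : MSt} (h : Inv st) (m : Mic) : Inv (istep st m) := by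
  have hle := h.le
  have g := fun j => h.getD j
  refine ⟨le_trans h.le (istep_le st m), ?_, ?_, ?_⟩
  · intro i hi
    have key : ∀ i ∈ st.2.1, Old (istep st m).1 i ∧ i ≠ 13 :=
      fun i hi => ⟨(h.stk i hi).1.mono (istep_le st m), (h.stk i hi).2⟩
    have key2 : ∀ j, Old (istep st m).1 (st.2.1.getD j 0) ∧ st.2.1.getD j 0 ≠ 13 :=
      fun j => ⟨(g j).1.mono (istep_le st m), (g j).2⟩
    rcases m with v | m
    · simp only [istep, List.mem_cons] at hi
      rcases hi with rfl | hi
      · exact ⟨fun h => by omega, by omega⟩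
      · exact key i hi
    · cases m <;> simp only [istep, List.mem_cons] at hi
      · rcases hi with rfl | hi
        · exact ⟨fun _ => by simp only [istep]; omega, by omega⟩
        · exact key i hi
      · rcases hi with rfl | hi
        · exact ⟨fun _ => by simp only [istep]; omega, by omega⟩
        · exact key i hi
      · rcases hi with rfl | hi
        · exact ⟨fun _ => by simp only [istep]; omega, by omega⟩
        · exact key i hi
      · rcases hi with rfl | hi
        · exact key2 0
        · exact key i hi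
      · rcases hi with rfl | rfl | hi
        · exact key2 1
        · exact key2 0
        · exact key i (List.mem_of_mem_drop hi)
      · rcases hi with rfl | rfl | rfl | hi
        · exact key2 0
        · exact key2 2
        · exact key2 1
        · exact key i (List.mem_of_mem_drop hi)
      · rcases hi with rfl | rfl | rfl | rfl | hi
        · exact key2 0
        · exact key2 1
        · exact key2 3
        · exact key2 2
        · exact key i (List.mem_of_mem_drop hi)
      · rcases hi with rfl | hi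
        · exact ⟨fun _ => by simp only [istep]; omega, by omega⟩
        · exact key i (List.mem_of_mem_drop hi)
      · rcases hi with rfl | hi
        · exact ⟨fun _ => by simp only [istep]; omega, by omega⟩
        · exact key i (List.mem_of_mem_drop hi)
      · rcases hi with rfl | hi
        · exact ⟨fun _ => by simp only [istep]; omega, by omega⟩
        · exact key i (List.mem_of_mem_drop hi)
  · intro e he
    obtain ⟨o0, n0⟩ := g 0
    obtain ⟨o1, n1⟩ := g 1
    simp only [Old] at o0 o1
    rcases m with v | m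
    · exact h.dist e he
    · cases m <;> simp only [istep, List.mem_cons] at he
      all_goals first
        | exact h.dist e he
        | (rcases he with rfl | rfl | he
           · simp only [Con.dist]; omega
           · simp only [Con.dist]; omega
           · exact h.dist e he)
  · intro e he
    have key : ∀ e ∈ st.2.2, e.old (istep st m).1 := by
      rintro ⟨t, a, b, c⟩ he
      obtain ⟨h1, h2, h3⟩ := h.old _ he
      exact ⟨h1.mono (istep_le st m), h2.mono (istep_le st m), h3.mono (istep_le st m)⟩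
    obtain ⟨o0, n0⟩ := g 0
    obtain ⟨o1, n1⟩ := g 1
    rcases m with v | m
    · exact key e he
    · cases m <;> simp only [istep, List.mem_cons] at he
      all_goals first
        | exact key e he
        | (rcases he with rfl | rfl | he
           · simp only [Con.old, istep, Old] at o0 o1 ⊢; omega
           · simp only [Con.old, istep, Old] at o0 o1 ⊢; omega
           · exact key e he)

theorem getD_map (x : ℕ → ℝ) (s : List ℕ) (j : ℕ) : (s.map x).getD j (x 0) = x (s.getD j 0) := by
  rw [List.getD_eq_getElem?_getD, List.getD_eq_getElem?_getD, List.getElem?_map]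
  cases s[j]? <;> rfl

theorem istep_sound {st : MSt} {m : Mic} {x : ℕ → ℝ} (hg : Glob x)
    (hx : ∀ e ∈ (istep st m).2.2, e.holds x) :
    VStep (fun i => x (2 * i)) m (st.2.1.map x) ((istep st m).2.1.map x) := by
  obtain ⟨h11, h13, h15⟩ := hg
  have g := fun j => getD_map x st.2.1 j
  rcases m with i | m
  · simp [istep, VStep]
  · cases m
    · simp [istep, VStep, h11]
    · simp [istep, VStep, h15]
    · simp [istep, VStep]
    · simp only [istep, VStep, mul_zero, g, List.map_cons]
    · simp only [istep, VStep, mul_zero, g, List.map_cons, List.map_drop]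
    · simp only [istep, VStep, mul_zero, g, List.map_cons, List.map_drop]
    · simp only [istep, VStep, mul_zero, g, List.map_cons, List.map_drop]
    · simp only [istep, VStep, mul_zero, g, List.map_cons, List.map_drop]
      have e1 := hx _ (List.mem_cons_self ..)
      have e2 := hx _ (List.mem_cons_of_mem _ (List.mem_cons_self ..))
      simp only [Con.holds, h13] at e1 e2
      rw [← e2, ← e1, add_zero]
    · simp only [istep, VStep, mul_zero, g, List.map_cons, List.map_drop]
      have e1 := hx _ (List.mem_cons_self ..)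
      have e2 := hx _ (List.mem_cons_of_mem _ (List.mem_cons_self ..))
      simp only [Con.holds, h13] at e1 e2
      rw [← e2, ← e1, add_zero]
    · simp only [istep, VStep, mul_zero, g, List.map_cons, List.map_drop]
      have e1 := hx _ (List.mem_cons_self ..)
      have e2 := hx _ (List.mem_cons_of_mem _ (List.mem_cons_self ..))
      simp only [Con.holds, h13] at e1 e2
      congr 1
      linarith

/-- `x'` agrees with `x` on the identifiers in use. -/
def Agree (k : ℕ) (x x' : ℕ → ℝ) : Prop := ∀ i, Old k i → x' i = x i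

theorem Agree.refl (k : ℕ) (x : ℕ → ℝ) : Agree k x x := fun _ _ => rfl

theorem Agree.trans {k k' : ℕ} {x y z : ℕ → ℝ} (h : Agree k x y) (h' : Agree k' y z)
    (hk : k ≤ k') : Agree k x z := fun i hi => (h' i (hi.mono hk)).trans (h i hi)

theorem Agree.con {k : ℕ} {x x' : ℕ → ℝ} (h : Agree k x x') {e : Con} (he : e.old k)
    (hx : e.holds x) : e.holds x' := by
  obtain ⟨t, a, b, c⟩ := e
  obtain ⟨h1, h2, h3⟩ := he
  cases t <;> simpa only [Con.holds, h a h1, h b h2, h c h3] using hx

theorem Agree.glob {k : ℕ} (hk : 11 ≤ k) {x x' : ℕ → ℝ} (h : Agree k x x') (hg : Glob x) :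
    Glob x' := by
  obtain ⟨h1, h2, h3⟩ := hg
  refine ⟨?_, ?_, ?_⟩
  · rw [h 11 (fun _ => by omega), h1]
  · rw [h 13 (fun _ => by omega), h2]
  · rw [h 15 (fun _ => by omega), h3]

theorem Agree.var {k : ℕ} {x x' : ℕ → ℝ} (h : Agree k x x') :
    (fun i => x' (2 * i)) = (fun i => x (2 * i)) := by
  funext i
  exact h _ (fun hi => by omega)

theorem Agree.map {k : ℕ} {x x' : ℕ → ℝ} (h : Agree k x x') {s : List ℕ} (hs : ∀ i ∈ s, Old k i) :
    s.map x' = s.map x := List.map_congr_left (fun i hi => h i (hs i hi))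

theorem istep_complete {st : MSt} (hi : Inv st) {m : Mic} {x : ℕ → ℝ} (hg : Glob x)
    (hx : ∀ e ∈ st.2.2, e.holds x) {s' : List ℝ}
    (hs : VStep (fun i => x (2 * i)) m (st.2.1.map x) s') :
    ∃ x', Agree st.1 x x' ∧ (∀ e ∈ (istep st m).2.2, e.holds x') ∧
      (istep st m).2.1.map x' = s' := by
  obtain ⟨h11, h13, h15⟩ := hg
  have hle := hi.le
  have g := fun j => getD_map x st.2.1 j
  have go := fun j => hi.getD j
  rcases m with i | m
  · exact ⟨x, Agree.refl _ _, hx, by simp only [VStep] at hs; rw [hs]; rfl⟩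
  · cases m
    case free =>
      obtain ⟨r, rfl⟩ := hs
      set x' : ℕ → ℝ := fun i => if i = 2 * st.1 + 1 then r else x i with hx'
      have ha : Agree st.1 x x' := fun i hi => by
        have : i ≠ 2 * st.1 + 1 := by
          intro h
          have := hi (by omega)
          omega
        simp only [hx', this, if_false]
      refine ⟨x', ha, fun e he => ha.con (hi.old e he) (hx e he), ?_⟩
      simp only [istep, List.map_cons]
      rw [ha.map (fun i h => (hi.stk i h).1)]
      simp [hx']
    case add =>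
      simp only [VStep, mul_zero, g] at hs
      set x' : ℕ → ℝ := fun i => if i = 2 * st.1 + 1 then x (st.2.1.getD 0 0) else
        if i = 2 * st.1 + 3 then x (st.2.1.getD 1 0) + x (st.2.1.getD 0 0) else x i with hx'
      have ha : Agree st.1 x x' := fun i hi => by
        have h1 : i ≠ 2 * st.1 + 1 := by
          intro h
          have := hi (by omega)
          omega
        have h2 : i ≠ 2 * st.1 + 3 := by
          intro h
          have := hi (by omega)
          omega
        simp only [hx', h1, h2, if_false]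
      have v1 : x' (2 * st.1 + 1) = x (st.2.1.getD 0 0) := by simp [hx']
      have v2 : x' (2 * st.1 + 3) = x (st.2.1.getD 1 0) + x (st.2.1.getD 0 0) := by simp [hx']
      have v3 : x' 13 = 0 := by rw [ha 13 (fun _ => by omega), h13]
      refine ⟨x', ha, ?_, ?_⟩
      · intro e he
        simp only [istep, List.mem_cons] at he
        rcases he with rfl | rfl | he
        · simp only [Con.holds, v1, v3, ha _ (go 0).1, add_zero]
        · simp only [Con.holds, v1, v2, ha _ (go 1).1]
        · exact ha.con (hi.old e he) (hx e he)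
      · simp only [istep, List.map_cons]
        rw [ha.map (fun i h => (hi.stk i (List.mem_of_mem_drop h)).1), v2, hs, List.map_drop]
    case mul =>
      simp only [VStep, mul_zero, g] at hs
      set x' : ℕ → ℝ := fun i => if i = 2 * st.1 + 1 then x (st.2.1.getD 0 0) else
        if i = 2 * st.1 + 3 then x (st.2.1.getD 1 0) * x (st.2.1.getD 0 0) else x i with hx'
      have ha : Agree st.1 x x' := fun i hi => by
        have h1 : i ≠ 2 * st.1 + 1 := by
          intro h
          have := hi (by omega)
          omega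
        have h2 : i ≠ 2 * st.1 + 3 := by
          intro h
          have := hi (by omega)
          omega
        simp only [hx', h1, h2, if_false]
      have v1 : x' (2 * st.1 + 1) = x (st.2.1.getD 0 0) := by simp [hx']
      have v2 : x' (2 * st.1 + 3) = x (st.2.1.getD 1 0) * x (st.2.1.getD 0 0) := by simp [hx']
      have v3 : x' 13 = 0 := by rw [ha 13 (fun _ => by omega), h13]
      refine ⟨x', ha, ?_, ?_⟩
      · intro e he
        simp only [istep, List.mem_cons] at he
        rcases he with rfl | rfl | he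
        · simp only [Con.holds, v1, v3, ha _ (go 0).1, add_zero]
        · simp only [Con.holds, v1, v2, ha _ (go 1).1]
        · exact ha.con (hi.old e he) (hx e he)
      · simp only [istep, List.map_cons]
        rw [ha.map (fun i h => (hi.stk i (List.mem_of_mem_drop h)).1), v2, hs, List.map_drop]
    case sub =>
      simp only [VStep, mul_zero, g] at hs
      set x' : ℕ → ℝ := fun i => if i = 2 * st.1 + 1 then x (st.2.1.getD 0 0) else
        if i = 2 * st.1 + 3 then x (st.2.1.getD 1 0) - x (st.2.1.getD 0 0) else x i with hx'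
      have ha : Agree st.1 x x' := fun i hi => by
        have h1 : i ≠ 2 * st.1 + 1 := by
          intro h
          have := hi (by omega)
          omega
        have h2 : i ≠ 2 * st.1 + 3 := by
          intro h
          have := hi (by omega)
          omega
        simp only [hx', h1, h2, if_false]
      have v1 : x' (2 * st.1 + 1) = x (st.2.1.getD 0 0) := by simp [hx']
      have v2 : x' (2 * st.1 + 3) = x (st.2.1.getD 1 0) - x (st.2.1.getD 0 0) := by simp [hx']
      have v3 : x' 13 = 0 := by rw [ha 13 (fun _ => by omega), h13]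
      refine ⟨x', ha, ?_, ?_⟩
      · intro e he
        simp only [istep, List.mem_cons] at he
        rcases he with rfl | rfl | he
        · simp only [Con.holds, v1, v3, ha _ (go 0).1, add_zero]
        · simp only [Con.holds, v1, v2, ha _ (go 1).1]
          ring
        · exact ha.con (hi.old e he) (hx e he)
      · simp only [istep, List.map_cons]
        rw [ha.map (fun i h => (hi.stk i (List.mem_of_mem_drop h)).1), v2, hs, List.map_drop]
    all_goals
      refine ⟨x, Agree.refl _ _, hx, ?_⟩
      simp only [VStep, mul_zero, g] at hs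
      rw [hs]
      simp [istep, h11, h15]

theorem foldl_le (l : List Mic) (st : MSt) : st.1 ≤ (l.foldl istep st).1 := by
  induction l generalizing st with
  | nil => exact le_refl _
  | cons m l ih => exact (istep_le st m).trans (ih _)

theorem foldl_out (l : List Mic) (st : MSt) : ∀ e ∈ st.2.2, e ∈ (l.foldl istep st).2.2 := by
  induction l generalizing st with
  | nil => exact fun e he => he
  | cons m l ih => exact fun e he => ih _ e (istep_out st m e he)

theorem Inv.foldl {st : MSt} (h : Inv st) (l : List Mic) : Inv (l.foldl istep st) := by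
  induction l generalizing st with
  | nil => exact h
  | cons m l ih => exact ih (h.step m)

theorem foldl_sound (l : List Mic) (st : MSt) {x : ℕ → ℝ} (hg : Glob x)
    (hx : ∀ e ∈ (l.foldl istep st).2.2, e.holds x) :
    VRun (fun i => x (2 * i)) l (st.2.1.map x) ((l.foldl istep st).2.1.map x) := by
  induction l generalizing st with
  | nil => exact rfl
  | cons m l ih =>
    refine ⟨(istep st m).2.1.map x, istep_sound hg (fun e he => hx e ?_), ih _ hx⟩
    exact foldl_out l _ e he

theorem foldl_complete (l : List Mic) {st : MSt} (hi : Inv st) {x : ℕ → ℝ} (hg : Glob x)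
    (hx : ∀ e ∈ st.2.2, e.holds x) {s' : List ℝ}
    (hs : VRun (fun i => x (2 * i)) l (st.2.1.map x) s') :
    ∃ x', Agree st.1 x x' ∧ (∀ e ∈ (l.foldl istep st).2.2, e.holds x') ∧
      (l.foldl istep st).2.1.map x' = s' := by
  induction l generalizing st x with
  | nil => exact ⟨x, Agree.refl _ _, hx, hs.symm⟩
  | cons m l ih =>
    obtain ⟨s1, h1, h2⟩ := hs
    obtain ⟨x1, ha, hx1, rfl⟩ := istep_complete hi hg hx h1
    rw [← ha.var] at h2
    obtain ⟨x2, ha2, hx2, hs2⟩ := ih (hi.step m) (ha.glob hi.le hg) hx1 h2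
    exact ⟨x2, ha.trans ha2 (istep_le st m), hx2, hs2⟩

/-- The constraints on the global identifiers: `1` is the nonzero number. -/
def initCons : List Con :=
  [(false, 3, 5, 7), (false, 7, 9, 5), (false, 3, 9, 11), (false, 3, 9, 13),
   (false, 15, 13, 17), (false, 15, 13, 19), (true, 15, 17, 19), (true, 15, 21, 1)]

/-- The initial state. -/
def initSt : MSt := (11, [], initCons)

/-- The final state. -/
def finSt (l : List Tok) : MSt := (l.flatMap Tok.mics ++ [Sum.inr Ins.swap]).foldl istep initSt

/-- The constraints of a token sequence. -/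
def consOf (l : List Tok) : List Con :=
  (false, (finSt l).2.1.getD 0 0, 2 * (finSt l).1 + 1, 2 * (finSt l).1 + 3) ::
    (false, 2 * (finSt l).1 + 3, 13, 2 * (finSt l).1 + 1) :: (finSt l).2.2

theorem inv_init : Inv initSt := by
  refine ⟨le_refl _, by simp [initSt], ?_, ?_⟩
  · intro e he
    simp only [initSt, initCons, List.mem_cons, List.not_mem_nil, or_false] at he
    rcases he with rfl | rfl | rfl | rfl | rfl | rfl | rfl | rfl <;> simp [Con.dist]
  · intro e he
    simp only [initSt, initCons, List.mem_cons, List.not_mem_nil, or_false] at he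
    rcases he with rfl | rfl | rfl | rfl | rfl | rfl | rfl | rfl <;>
      simp [Con.old, Old, initSt]

theorem inv_fin (l : List Tok) : Inv (finSt l) := inv_init.foldl _

theorem consOf_dist (l : List Tok) : ∀ e ∈ consOf l, e.dist := by
  have h := inv_fin l
  have hle := h.le
  obtain ⟨o0, n0⟩ := h.getD 0
  simp only [Old] at o0
  intro e he
  simp only [consOf, List.mem_cons] at he
  rcases he with rfl | rfl | he
  · simp only [Con.dist]; omega
  · simp only [Con.dist]; omega
  · exact h.dist e he

theorem glob_of_init {x : ℕ → ℝ} (h1 : x 1 ≠ 0) (h : ∀ e ∈ initCons, e.holds x) : Glob x := by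
  simp only [initCons, List.mem_cons, List.not_mem_nil, or_false, forall_eq_or_imp, forall_eq,
    Con.holds] at h
  obtain ⟨e1, e2, e3, e4, e5, e6, e7, e8⟩ := h
  have h13 : x 13 = 0 := by linarith
  refine ⟨by linarith, h13, ?_⟩
  have h17 : x 17 = x 15 := by linarith
  have h19 : x 19 = x 15 := by linarith
  have h15 : x 15 ≠ 0 := by
    intro h
    rw [h, zero_mul] at e8
    exact h1 e8.symm
  rw [h17, h19] at e7
  exact mul_left_cancel₀ h15 (by rw [e7, mul_one])

theorem phaseA_sound (φ : Fml)
    (h : ∃ x : ℕ → ℝ, x 1 ≠ 0 ∧ ∀ e ∈ consOf φ.toks, e.holds x) :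
    ∃ ξ : ℕ → ℝ, φ.Holds ξ := by
  obtain ⟨x, h1, hx⟩ := h
  have hx' : ∀ e ∈ (finSt φ.toks).2.2, e.holds x := fun e he =>
    hx e (List.mem_cons_of_mem _ (List.mem_cons_of_mem _ he))
  have hg : Glob x := glob_of_init h1 (fun e he => hx' e (foldl_out _ _ e he))
  have hr := foldl_sound _ initSt hg hx'
  rw [vrun_append] at hr
  obtain ⟨s1, h2, h3⟩ := hr
  obtain ⟨P, Q, rfl, h4, -⟩ := vrun_sound _ _ _ _ h2
  refine ⟨fun i => x (2 * i), h4 ?_⟩
  simp only [VRun, VStep, List.getD_cons_zero, List.getD_cons_succ,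
    List.drop_succ_cons, List.drop_zero, exists_eq_left] at h3
  have h5 : ((finSt φ.toks).2.1.map x).getD 0 (x 0) = P := by
    have : (finSt φ.toks).2.1.map x = P :: Q :: List.map x initSt.2.1 := h3
    rw [this]; rfl
  rw [getD_map] at h5
  have e1 := hx _ (List.mem_cons_self ..)
  have e2 := hx _ (List.mem_cons_of_mem _ (List.mem_cons_self ..))
  simp only [Con.holds] at e1 e2
  rw [hg.2.1] at e2
  rw [← h5]
  linarith

theorem phaseA_complete (φ : Fml) (h : ∃ ξ : ℕ → ℝ, φ.Holds ξ) :
    ∃ x : ℕ → ℝ, x 1 = 1 ∧ ∀ e ∈ consOf φ.toks, e.holds x := by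
  obtain ⟨ξ, hξ⟩ := h
  set x0 : ℕ → ℝ := fun i => if i % 2 = 0 then ξ (i / 2) else
    if i = 1 ∨ i = 15 ∨ i = 17 ∨ i = 19 ∨ i = 21 then 1 else 0 with hx0
  have hev : (fun i => x0 (2 * i)) = ξ := by
    funext i
    simp [hx0]
  have hg : Glob x0 := by refine ⟨?_, ?_, ?_⟩ <;> norm_num [hx0]
  have hi : ∀ e ∈ initSt.2.2, e.holds x0 := by
    intro e he
    simp only [initSt, initCons, List.mem_cons, List.not_mem_nil, or_false] at he
    rcases he with rfl | rfl | rfl | rfl | rfl | rfl | rfl | rfl <;>
      simp only [Con.holds, hx0] <;> norm_num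
  obtain ⟨P, Q, h1, h2, -⟩ := vrun_complete ξ φ (initSt.2.1.map x0)
  have hr : VRun (fun i => x0 (2 * i)) (φ.toks.flatMap Tok.mics ++ [.inr .swap])
      (initSt.2.1.map x0) (P :: Q :: initSt.2.1.map x0) := by
    rw [vrun_append, hev]
    refine ⟨_, h1, ?_⟩
    simp [VRun, VStep]
  obtain ⟨x1, ha, hx1, hs⟩ := foldl_complete _ inv_init hg hi hr
  have hP := h2 hξ
  have hinv := inv_fin φ.toks
  have hle := hinv.le
  have h5 : x1 ((finSt φ.toks).2.1.getD 0 0) = 0 := by
    rw [← getD_map x1]
    have : (finSt φ.toks).2.1.map x1 = P :: Q :: List.map x0 initSt.2.1 := hs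
    rw [this, ← hP]; rfl
  have hg1 := ha.glob (le_refl _) hg
  set k := (finSt φ.toks).1 with hk
  set x2 : ℕ → ℝ := fun i => if i = 2 * k + 1 ∨ i = 2 * k + 3 then 0 else x1 i with hx2
  have ha2 : Agree k x1 x2 := fun i hi => by
    have h1 : i ≠ 2 * k + 1 := by
      intro h
      have := hi (by omega)
      omega
    have h2 : i ≠ 2 * k + 3 := by
      intro h
      have := hi (by omega)
      omega
    simp only [hx2, h1, h2, or_self, if_false]
  refine ⟨x2, ?_, ?_⟩
  · have e1 : x2 1 = x1 1 := ha2 1 (fun _ => by omega)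
    have e2 : x1 1 = x0 1 := ha 1 (fun _ => by simp only [initSt]; omega)
    rw [e1, e2]
    norm_num [hx0]
  · have w1 : x2 (2 * k + 1) = 0 := by simp [hx2]
    have w2 : x2 (2 * k + 3) = 0 := by simp [hx2]
    have w3 : x2 13 = 0 := by rw [ha2 13 (fun _ => by omega)]; exact hg1.2.1
    intro e he
    simp only [consOf, List.mem_cons] at he
    rcases he with rfl | rfl | he
    · simp only [Con.holds, ← hk, w1, w2, ha2 _ (hinv.getD 0).1, h5, add_zero]
    · simp only [Con.holds, ← hk, w1, w2, w3, add_zero]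
    · exact ha2.con (hinv.old e he) (hx1 e he)

end Pool.Agent.Lib.MP_0f8b55_lc
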