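import Pool.Agent.Lib.MP_0f8b55_lc.Geo

/-!
# From orthogonality graphs to unit distance graphs
-/

namespace Pool.Agent.Lib.MP_0f8b55_lc

open scoped RealInnerProductSpace

variable {d : ℕ}

/-- The endpoints occurring in a list of pairs. -/
def ends {α : Type} (E : List (α × α)) : Set α := {x | ∃ e ∈ E, x = e.1 ∨ x = e.2}

theorem ends_finite {α : Type} (E : List (α × α)) : (ends E).Finite := by
  classical
  refine Set.Finite.subset (s := (↑((E.map Prod.fst ++ E.map Prod.snd).toFinset) : Set α))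
    (Finset.finite_toSet _) ?_
  rintro x ⟨e, he, hx⟩
  simp only [List.coe_toFinset, List.mem_append, List.mem_map, Set.mem_ofPred_eq]
  rcases hx with rfl | rfl
  · exact Or.inl ⟨e, he, rfl⟩
  · exact Or.inr ⟨e, he, rfl⟩

/-- A list of edges is realised by unit distances, with distinct endpoints at distinct points. -/
def Emb (d : ℕ) {α : Type} (E : List (α × α)) : Prop :=
  ∃ p : α → Eu d, (∀ e ∈ E, ‖p e.1 - p e.2‖ = 1) ∧ Set.InjOn p (ends E)

/-- A list of edges is realised by orthogonality of distinct unit vectors. -/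
def Orth (d : ℕ) {α : Type} (B : List (α × α)) : Prop :=
  ∃ v : α → Eu d, (∀ e ∈ B, ‖v e.1‖ = 1 ∧ ‖v e.2‖ = 1 ∧ ⟪v e.1, v e.2⟫ = 0) ∧
    Set.InjOn v (ends B)

/-- The vertices of the unit distance graph. -/
abbrev V3 (M : Type) : Type := Option (M ⊕ (ℕ × ℕ × Bool))

/-- The points of the `i`-th cross-polytope. -/
def cp {M : Type} (x y : M) (i k : ℕ) (σ : Bool) : V3 M :=
  if k = 0 then some (.inl (if σ then x else y)) else some (.inr (i, k, σ))

/-- The edges of the cross-polytope graph `K_{2,…,2}`. -/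
def tmpl (d : ℕ) : List ((ℕ × Bool) × (ℕ × Bool)) :=
  (((List.range d).product [true, false]).product ((List.range d).product [true, false])).filter
    (fun t => t.1.1 ≠ t.2.1)

theorem mem_tmpl {d k l : ℕ} {σ τ : Bool} :
    ((k, σ), (l, τ)) ∈ tmpl d ↔ k < d ∧ l < d ∧ k ≠ l := by
  simp only [tmpl, List.mem_filter, List.product.eq_1, List.mem_flatMap, List.mem_map]
  constructor
  · rintro ⟨⟨a, ⟨b, hb, c, hc, rfl⟩, e, ⟨f, hf, g, hg, rfl⟩, h⟩, h'⟩
    simp only [Prod.mk.injEq] at h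
    obtain ⟨⟨rfl, rfl⟩, rfl, rfl⟩ := h
    simp only [List.mem_range] at hb hf
    simp only [ne_eq, decide_not, Bool.not_eq_eq_eq_not, Bool.not_true, decide_eq_false_iff_not] at h'
    exact ⟨hb, hf, h'⟩
  · rintro ⟨h1, h2, h3⟩
    refine ⟨⟨(k, σ), ⟨k, List.mem_range.mpr h1, σ, by cases σ <;> simp, rfl⟩, (l, τ),
      ⟨l, List.mem_range.mpr h2, τ, by cases τ <;> simp, rfl⟩, rfl⟩, by simpa using h3⟩

/-- The edges for one bar. -/
def barEdges {M : Type} (d : ℕ) (q : (M × M) × ℕ) : List (V3 M × V3 M) :=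
  (none, some (.inl q.1.1)) :: (none, some (.inl q.1.2)) ::
    (tmpl d).map (fun t => (cp q.1.1 q.1.2 q.2 t.1.1 t.1.2, cp q.1.1 q.1.2 q.2 t.2.1 t.2.2))

/-- The unit distance graph of an orthogonality graph. -/
def E3 {M : Type} (d : ℕ) (B : List (M × M)) : List (V3 M × V3 M) :=
  B.zipIdx.flatMap (barEdges d)

theorem cp_mem_ends {M : Type} (hd : 3 ≤ d) {B : List (M × M)} {e : M × M} {i : ℕ}
    (he : (e, i) ∈ B.zipIdx) {k : ℕ} (hk : k < d) (σ : Bool) :
    cp e.1 e.2 i k σ ∈ ends (E3 d B) := by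
  obtain ⟨l, hl, hkl⟩ : ∃ l, l < d ∧ k ≠ l := by
    by_cases h : k = 0
    · exact ⟨1, by omega, by omega⟩
    · exact ⟨0, by omega, h⟩
  refine ⟨(cp e.1 e.2 i k σ, cp e.1 e.2 i l true), ?_, Or.inl rfl⟩
  simp only [E3, List.mem_flatMap]
  refine ⟨(e, i), he, ?_⟩
  simp only [barEdges, List.mem_cons, List.mem_map]
  exact Or.inr (Or.inr ⟨((k, σ), (l, true)), mem_tmpl.mpr ⟨hk, hl, hkl⟩, rfl⟩)

theorem exists_zipIdx {α : Type} {B : List α} {e : α} (he : e ∈ B) : ∃ i, (e, i) ∈ B.zipIdx := by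
  obtain ⟨i, hi, h⟩ := List.getElem_of_mem he
  exact ⟨i, List.mk_mem_zipIdx_iff_getElem?.mpr (by rw [List.getElem?_eq_getElem hi, h])⟩

theorem layer3_sound {M : Type} (hd : 3 ≤ d) {B : List (M × M)} (hB : ∀ e ∈ B, e.1 ≠ e.2)
    (h : Emb d (E3 d B)) : Orth d B := by
  obtain ⟨p, hp, hinj⟩ := h
  have hmem1 : ∀ e ∈ B, (none, some (.inl e.1)) ∈ E3 d B := by
    intro e he
    obtain ⟨i, hi⟩ := exists_zipIdx he
    simp only [E3, List.mem_flatMap]
    exact ⟨(e, i), hi, by simp [barEdges]⟩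
  have hmem2 : ∀ e ∈ B, (none, some (.inl e.2)) ∈ E3 d B := by
    intro e he
    obtain ⟨i, hi⟩ := exists_zipIdx he
    simp only [E3, List.mem_flatMap]
    exact ⟨(e, i), hi, by simp [barEdges]⟩
  refine ⟨fun x => p (some (.inl x)) - p none, fun e he => ?_, ?_⟩
  · have h1 := hp _ (hmem1 e he)
    have h2 := hp _ (hmem2 e he)
    simp only at h1 h2
    rw [norm_sub_rev] at h1 h2
    refine ⟨h1, h2, ?_⟩
    obtain ⟨i, hi⟩ := exists_zipIdx he
    have h3 := bar_rigid hd (P := fun k σ => p (cp e.1 e.2 i k.1 σ)) ?_ ?_ ⟨0, by omega⟩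
    · simp only [cp, if_true, Bool.false_eq_true, if_false] at h3
      have h4 : p (some (.inl e.1)) - p (some (.inl e.2))
          = (p (some (.inl e.1)) - p none) - (p (some (.inl e.2)) - p none) := by abel
      rw [h4, norm_sub_sq_real, h1, h2] at h3
      linarith
    · intro k hk
      have h5 := hinj (cp_mem_ends hd hi k.2 true) (cp_mem_ends hd hi k.2 false) hk
      by_cases h6 : k.1 = 0
      · simp only [cp, h6, Option.some.injEq, Sum.inl.injEq, if_true, Bool.false_eq_true,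
          if_false] at h5
        exact hB e he h5
      · simp only [cp, h6, if_false, Option.some.injEq, Sum.inr.injEq, Prod.mk.injEq] at h5
        exact absurd h5.2.2 (by simp)
    · intro k l hkl σ τ
      have hkl' : k.1 ≠ l.1 := fun h => hkl (Fin.ext h)
      have h7 : (cp e.1 e.2 i k.1 σ, cp e.1 e.2 i l.1 τ) ∈ E3 d B := by
        simp only [E3, List.mem_flatMap]
        refine ⟨(e, i), hi, ?_⟩
        simp only [barEdges, List.mem_cons, List.mem_map]
        exact Or.inr (Or.inr ⟨((k.1, σ), (l.1, τ)), mem_tmpl.mpr ⟨k.2, l.2, hkl'⟩, rfl⟩)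
      have h8 := hp _ h7
      simpa only using h8
  · rintro x ⟨e, he, hx⟩ y ⟨f, hf, hy⟩ hxy
    simp only [sub_left_inj] at hxy
    have hxm : some (.inl x) ∈ ends (E3 d B) := by
      rcases hx with rfl | rfl
      · exact ⟨_, hmem1 e he, Or.inr rfl⟩
      · exact ⟨_, hmem2 e he, Or.inr rfl⟩
    have hym : some (.inl y) ∈ ends (E3 d B) := by
      rcases hy with rfl | rfl
      · exact ⟨_, hmem1 f hf, Or.inr rfl⟩
      · exact ⟨_, hmem2 f hf, Or.inr rfl⟩
    have := hinj hxm hym hxy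
    simpa using this

theorem exists_ext {M : Type} (hd : 3 ≤ d) (v : M → Eu d) : ∀ (B : List (M × M)) (i0 : ℕ)
    (F : Set (Eu d)), F.Finite → (∀ e ∈ B, ‖v e.1 - v e.2‖ ^ 2 = 2) →
    ∃ q : ℕ → ℕ → Bool → Eu d,
      (∀ e ∈ B.zipIdx i0, q e.2 0 true = v e.1.1 ∧ q e.2 0 false = v e.1.2 ∧
        (∀ k l, k < d → l < d → k ≠ l → ∀ σ τ, ‖q e.2 k σ - q e.2 l τ‖ = 1)) ∧
      (∀ i k σ, i0 ≤ i → i < i0 + B.length → 0 < k → k < d → q i k σ ∉ F) ∧
      (∀ i k σ i' k' σ', i0 ≤ i → i < i0 + B.length → 0 < k → k < d →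
        i0 ≤ i' → i' < i0 + B.length → 0 < k' → k' < d → q i k σ = q i' k' σ' →
        i = i' ∧ k = k' ∧ σ = σ')
  | [], i0, F, hF, hB => by
    refine ⟨fun _ _ _ => 0, by simp, ?_, ?_⟩
    · intro i k σ h1 h2
      simp only [List.length_nil] at h2
      omega
    · intro i k σ i' k' σ' h1 h2
      simp only [List.length_nil] at h2
      omega
  | e :: B, i0, F, hF, hB => by
    obtain ⟨P, hP1, hP2, hP3, hP4, hP5⟩ := bar_extend hd (hB e (List.mem_cons_self ..)) F hF
    set F' : Set (Eu d) := F ∪ (fun x : Fin d × Bool => P x.1.1 x.2) '' Set.univ with hF'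
    have hF'f : F'.Finite := hF.union (Set.finite_univ.image _)
    obtain ⟨q, hq1, hq2, hq3⟩ := exists_ext hd v B (i0 + 1) F' hF'f
      (fun e he => hB e (List.mem_cons_of_mem _ he))
    refine ⟨fun i => if i = i0 then P else q i, ?_, ?_, ?_⟩
    · intro f hf
      rw [List.zipIdx_cons, List.mem_cons] at hf
      rcases hf with rfl | hf
      · simp only [if_true]
        exact ⟨hP1, hP2, hP3⟩
      · have h1 := List.le_snd_of_mem_zipIdx hf
        have h2 : ¬ f.2 = i0 := by omega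
        simp only [h2, if_false]
        exact hq1 f hf
    · intro i k σ h1 h2 h3 h4
      by_cases h : i = i0
      · simp only [h, if_true]
        exact hP5 k h4 (by omega) σ
      · simp only [h, if_false]
        have h5 := hq2 i k σ (by omega) (by simp only [List.length_cons] at h2; omega) h3 h4
        intro h6
        exact h5 (Or.inl h6)
    · intro i k σ i' k' σ' h1 h2 h3 h4 h1' h2' h3' h4' heq
      simp only [List.length_cons] at h2 h2'
      by_cases h : i = i0 <;> by_cases h' : i' = i0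
      · simp only [h, h', if_true] at heq
        by_cases hk : k = k'
        · subst hk
          refine ⟨by rw [h, h'], rfl, ?_⟩
          have := hP4 k h4
          cases σ <;> cases σ'
          · rfl
          · exact absurd heq.symm this
          · exact absurd heq this
          · rfl
        · exfalso
          have := hP3 k k' h4 h4' hk σ σ'
          rw [heq, sub_self, norm_zero] at this
          norm_num at this
      · exfalso
        simp only [h, h', if_true, if_false] at heq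
        refine hq2 i' k' σ' (by omega) (by omega) h3' h4' ?_
        rw [← heq]
        exact Or.inr ⟨(⟨k, h4⟩, σ), trivial, rfl⟩
      · exfalso
        simp only [h, h', if_true, if_false] at heq
        refine hq2 i k σ (by omega) (by omega) h3 h4 ?_
        rw [heq]
        exact Or.inr ⟨(⟨k', h4'⟩, σ'), trivial, rfl⟩
      · simp only [h, h', if_false] at heq
        exact hq3 i k σ i' k' σ' (by omega) (by omega) h3 h4 (by omega) (by omega) h3' h4' heq

theorem layer3_complete {M : Type} (hd : 3 ≤ d) {B : List (M × M)} (h : Orth d B) :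
    Emb d (E3 d B) := by
  obtain ⟨v, hv, hinj⟩ := h
  have h2 : ∀ e ∈ B, ‖v e.1 - v e.2‖ ^ 2 = 2 := by
    intro e he
    obtain ⟨h3, h4, h5⟩ := hv e he
    rw [norm_sub_sq_real, h3, h4, h5]; norm_num
  set F : Set (Eu d) := {0} ∪ v '' ends B with hF
  have hFf : F.Finite := (Set.finite_singleton _).union ((ends_finite B).image _)
  obtain ⟨q, hq1, hq2, hq3⟩ := exists_ext hd v B 0 F hFf h2
  set p : V3 M → Eu d := fun x => match x with
    | none => 0
    | some (.inl x) => v x
    | some (.inr (i, k, σ)) => q i k σ with hp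
  have hcp : ∀ e ∈ B.zipIdx, ∀ k σ, p (cp e.1.1 e.1.2 e.2 k σ) = q e.2 k σ := by
    intro e he k σ
    obtain ⟨h3, h4, h5⟩ := hq1 e he
    by_cases hk : k = 0
    · subst hk
      cases σ
      · simp only [cp, if_true, Bool.false_eq_true, if_false, hp, h4]
      · simp only [cp, if_true, hp, h3]
    · simp only [cp, hk, if_false, hp]
  -- description of the endpoints
  have hends : ∀ x ∈ ends (E3 d B), x = none ∨ (∃ m ∈ ends B, x = some (.inl m)) ∨
      ∃ i k σ, i < B.length ∧ 0 < k ∧ k < d ∧ x = some (.inr (i, k, σ)) := by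
    have hcpm : ∀ e ∈ B.zipIdx, ∀ k, k < d → ∀ σ, (∃ m ∈ ends B, cp e.1.1 e.1.2 e.2 k σ
        = some (.inl m)) ∨ ∃ i k' σ', i < B.length ∧ 0 < k' ∧ k' < d ∧
          cp e.1.1 e.1.2 e.2 k σ = some (.inr (i, k', σ')) := by
      intro e he k hk σ
      by_cases hk0 : k = 0
      · left
        refine ⟨if σ then e.1.1 else e.1.2, ⟨e.1, List.fst_mem_of_mem_zipIdx he, ?_⟩, ?_⟩
        · cases σ <;> simp
        · simp [cp, hk0]
      · right
        refine ⟨e.2, k, σ, ?_, by omega, hk, by simp [cp, hk0]⟩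
        have := List.snd_lt_of_mem_zipIdx he
        omega
    rintro x ⟨f, hf, hx⟩
    simp only [E3, List.mem_flatMap, barEdges, List.mem_cons, List.mem_map] at hf
    obtain ⟨⟨e, i⟩, he, hf⟩ := hf
    have heB : e ∈ B := List.fst_mem_of_mem_zipIdx he
    rcases hf with rfl | rfl | ⟨⟨⟨k, σ⟩, ⟨l, τ⟩⟩, ht, rfl⟩
    · rcases hx with rfl | rfl
      · exact Or.inl rfl
      · exact Or.inr (Or.inl ⟨e.1, ⟨e, heB, Or.inl rfl⟩, rfl⟩)
    · rcases hx with rfl | rfl
      · exact Or.inl rfl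
      · exact Or.inr (Or.inl ⟨e.2, ⟨e, heB, Or.inr rfl⟩, rfl⟩)
    · obtain ⟨hk, hl, hkl⟩ := mem_tmpl.mp ht
      rcases hx with rfl | rfl
      · exact Or.inr (hcpm (e, i) he k hk σ)
      · exact Or.inr (hcpm (e, i) he l hl τ)
  have hv0 : ∀ m ∈ ends B, v m ≠ 0 := by
    rintro m ⟨e, he, hm⟩ h0
    obtain ⟨h3, h4, h5⟩ := hv e he
    rcases hm with rfl | rfl
    · rw [h0, norm_zero] at h3; norm_num at h3
    · rw [h0, norm_zero] at h4; norm_num at h4
  refine ⟨p, ?_, ?_⟩
  · intro f hf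
    simp only [E3, List.mem_flatMap, barEdges, List.mem_cons, List.mem_map] at hf
    obtain ⟨⟨e, i⟩, he, hf⟩ := hf
    have heB : e ∈ B := List.fst_mem_of_mem_zipIdx he
    obtain ⟨h3, h4, h5⟩ := hv e heB
    rcases hf with rfl | rfl | ⟨⟨⟨k, σ⟩, ⟨l, τ⟩⟩, ht, rfl⟩
    · simp only [hp, zero_sub, norm_neg]; exact h3
    · simp only [hp, zero_sub, norm_neg]; exact h4
    · obtain ⟨hk, hl, hkl⟩ := mem_tmpl.mp ht
      have e1 := hcp (e, i) he k σ
      have e2 := hcp (e, i) he l τ
      simp only at e1 e2 ⊢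
      rw [e1, e2]
      exact (hq1 (e, i) he).2.2 k l hk hl hkl σ τ
  · intro x hx y hy hxy
    rcases hends x hx with rfl | ⟨m, hm, rfl⟩ | ⟨i, k, σ, hi, hk, hkd, rfl⟩ <;>
      rcases hends y hy with rfl | ⟨m', hm', rfl⟩ | ⟨i', k', σ', hi', hk', hkd', rfl⟩
    · rfl
    · simp only [hp] at hxy
      exact absurd hxy.symm (hv0 m' hm')
    · simp only [hp] at hxy
      refine absurd (?_ : q i' k' σ' ∈ F) (hq2 i' k' σ' (by omega) (by omega) hk' hkd')
      rw [← hxy]; exact Or.inl rfl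
    · simp only [hp] at hxy
      exact absurd hxy (hv0 m hm)
    · simp only [hp] at hxy
      rw [hinj hm hm' hxy]
    · simp only [hp] at hxy
      refine absurd (?_ : q i' k' σ' ∈ F) (hq2 i' k' σ' (by omega) (by omega) hk' hkd')
      rw [← hxy]; exact Or.inr ⟨m, hm, rfl⟩
    · simp only [hp] at hxy
      refine absurd (?_ : q i k σ ∈ F) (hq2 i k σ (by omega) (by omega) hk hkd)
      rw [hxy]; exact Or.inl rfl
    · simp only [hp] at hxy
      refine absurd (?_ : q i k σ ∈ F) (hq2 i k σ (by omega) (by omega) hk hkd)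
      rw [hxy]; exact Or.inr ⟨m', hm', rfl⟩
    · simp only [hp] at hxy
      obtain ⟨rfl, rfl, rfl⟩ := hq3 i k σ i' k' σ' (by omega) (by omega) hk hkd (by omega)
        (by omega) hk' hkd' hxy
      rfl

end Pool.Agent.Lib.MP_0f8b55_lc
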