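import Pool.Agent.Lib.MP_0f8b55_lc.Defs
import Pool.Agent.Lib.MP_0f8b55_lc.Layer3

/-!
# Euclidean dimension and embeddability; numbering of vertices
-/

namespace Pool.Agent.Lib.MP_0f8b55_lc

open scoped RealInnerProductSpace

theorem IsUnitDistance.mono {V : Type} {G : SimpleGraph V} {d d' : ℕ} (h : IsUnitDistance G d)
    (hd : d ≤ d') : IsUnitDistance G d' := by
  obtain ⟨p, hp, hG⟩ := h
  set q : V → EuclideanSpace ℝ (Fin d') := fun u =>
    WithLp.toLp 2 (fun j : Fin d' => if h : j.1 < d then p u ⟨j.1, h⟩ else 0) with hq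
  have hqa : ∀ u (j : Fin d'), q u j = if h : j.1 < d then p u ⟨j.1, h⟩ else 0 := fun u j => rfl
  refine ⟨q, fun u v huv => hp ?_, fun u v huv => ?_⟩
  · ext j
    have := congrArg (fun x : EuclideanSpace ℝ (Fin d') => x ⟨j.1, lt_of_lt_of_le j.2 hd⟩) huv
    simpa [hqa] using this
  · rw [← hG u v huv, EuclideanSpace.dist_eq, EuclideanSpace.dist_eq]
    congr 1
    have h1 : ∀ (f : ℕ → ℝ) , (∀ j, d ≤ j → f j = 0) →
        ∑ j : Fin d', f j.1 = ∑ j : Fin d, f j.1 := by
      intro f hf
      rw [Fin.sum_univ_eq_sum_range f d', Fin.sum_univ_eq_sum_range f d]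
      symm
      refine Finset.sum_subset (by simpa using hd) (fun j _ hj => hf j ?_)
      simpa using hj
    have h2 := h1 (fun j => if h : j < d then dist (p u ⟨j, h⟩) (p v ⟨j, h⟩) ^ 2 else 0)
      (fun j hj => by simp [not_lt.mpr hj])
    have h3 : ∀ j : Fin d, (if h : j.1 < d then dist (p u ⟨j.1, h⟩) (p v ⟨j.1, h⟩) ^ 2 else 0)
        = dist (p u j) (p v j) ^ 2 := fun j => by simp
    rw [Finset.sum_congr rfl (fun j _ => h3 j)] at h2
    rw [← h2]
    refine Finset.sum_congr rfl (fun j _ => ?_)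
    rw [hqa, hqa]
    by_cases h : j.1 < d
    · simp [h]
    · simp [h]

theorem exists_isUnitDistance (n : ℕ) (G : SimpleGraph (Fin n)) : IsUnitDistance G (n + 1) := by
  set e : Fin n → EuclideanSpace ℝ (Fin (n + 1)) := fun u =>
    EuclideanSpace.single u.castSucc (1 : ℝ) with he
  have hn : ∀ u, ‖e u‖ = 1 := fun u => by simp [he]
  have ho : ∀ u v, u ≠ v → ⟪e u, e v⟫ = 0 := by
    intro u v huv
    simp only [he]
    rw [EuclideanSpace.inner_single_left]
    simp [huv.symm]
  have h2 : (0:ℝ) < Real.sqrt 2 := Real.sqrt_pos.mpr (by norm_num)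
  have hd : ∀ u v, u ≠ v → dist ((1 / Real.sqrt 2) • e u) ((1 / Real.sqrt 2) • e v) = 1 := by
    intro u v huv
    rw [dist_eq_norm, ← smul_sub, norm_smul]
    have h3 : ‖e u - e v‖ ^ 2 = 2 := by
      rw [norm_sub_sq_real, hn, hn, ho u v huv]; norm_num
    have h4 : ‖e u - e v‖ = Real.sqrt 2 := by
      rw [← h3, Real.sqrt_sq (norm_nonneg _)]
    rw [h4, Real.norm_eq_abs, abs_of_pos (by positivity)]
    field_simp
  refine ⟨fun u => (1 / Real.sqrt 2) • e u, fun u v huv => ?_, fun u v huv => hd u v huv.ne⟩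
  by_contra hne
  have := hd u v hne
  simp only at huv
  rw [huv, dist_self] at this
  norm_num at this

theorem euclideanDim_le_iff {n : ℕ} (G : SimpleGraph (Fin n)) {d : ℕ} (hd : 1 ≤ d) :
    euclideanDim G ≤ d ↔ IsUnitDistance G d := by
  constructor
  · intro h
    have hne : {d | 1 ≤ d ∧ IsUnitDistance G d}.Nonempty :=
      ⟨n + 1, by omega, exists_isUnitDistance n G⟩
    exact (Nat.sInf_mem hne).2.mono h
  · intro h
    exact Nat.sInf_le ⟨hd, h⟩

/-! ### Numbering the vertices -/

variable {d : ℕ}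

/-- The list of all endpoints. -/
def endList {α : Type} (E : List (α × α)) : List α := E.flatMap (fun e => [e.1, e.2])

theorem mem_endList {α : Type} {E : List (α × α)} {a : α} : a ∈ endList E ↔ a ∈ ends E := by
  simp [endList, ends]

/-- The graph code of a list of edges on an arbitrary set. -/
def numbering {α : Type} [DecidableEq α] (E : List (α × α)) : GraphCode :=
  ((endList E).length, E.map (fun e => ((endList E).idxOf e.1, (endList E).idxOf e.2)))

theorem numbering_iff {α : Type} [DecidableEq α] (E : List (α × α)) (hE : ∀ e ∈ E, e.1 ≠ e.2)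
    (hd : 1 ≤ d) : IsUnitDistance (numbering E).graph d ↔ Emb d E := by
  set L := endList E with hL
  have hn : (numbering E).1 = L.length := rfl
  have hlt : ∀ a ∈ ends E, L.idxOf a < L.length := fun a ha =>
    List.idxOf_lt_length_iff.mpr (mem_endList.mpr ha)
  have hget : ∀ a (ha : a ∈ ends E), L[L.idxOf a]'(hlt a ha) = a := fun a ha =>
    List.getElem_idxOf (hlt a ha)
  constructor
  · rintro ⟨q, hq, hG⟩
    refine ⟨fun a => if h : L.idxOf a < L.length then q ⟨L.idxOf a, h⟩ else 0, ?_, ?_⟩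
    · intro e he
      have h1 : e.1 ∈ ends E := ⟨e, he, Or.inl rfl⟩
      have h2 : e.2 ∈ ends E := ⟨e, he, Or.inr rfl⟩
      simp only [hlt _ h1, hlt _ h2, dif_pos]
      rw [← dist_eq_norm]
      apply hG
      rw [GraphCode.graph, SimpleGraph.fromRel_adj]
      refine ⟨fun h => hE e he ?_, Or.inl ?_⟩
      · have h3 : L.idxOf e.1 = L.idxOf e.2 := congrArg Fin.val h
        rw [← hget _ h1, ← hget _ h2]
        simp only [h3]
      · exact List.mem_map.mpr ⟨e, he, rfl⟩
    · intro a ha b hb hab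
      simp only [hlt a ha, hlt b hb, dif_pos] at hab
      have h3 : L.idxOf a = L.idxOf b := congrArg Fin.val (hq hab)
      rw [← hget _ ha, ← hget _ hb]
      simp only [h3]
  · rintro ⟨p, hp, hinj⟩
    have hfin : (p '' ends E).Finite := (ends_finite E).image _
    have : Nonempty (Fin d) := ⟨⟨0, hd⟩⟩
    have hinf : (p '' ends E)ᶜ.Infinite := hfin.infinite_compl
    set r : ℕ ↪ ((p '' ends E)ᶜ : Set (Eu d)) := hinf.natEmbedding with hr
    set q : Fin L.length → Eu d := fun i => if L.idxOf L[i.1] = i.1 then p L[i.1] else r i.1 with hq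
    have hmem : ∀ i : Fin L.length, L[i.1] ∈ ends E := fun i =>
      mem_endList.mp (List.getElem_mem i.2)
    have hidx : ∀ a (ha : a ∈ ends E), q ⟨L.idxOf a, hlt a ha⟩ = p a := by
      intro a ha
      simp only [hq, hget a ha, if_true]
    refine ⟨q, ?_, ?_⟩
    · intro i j hij
      simp only [hq] at hij
      split_ifs at hij with h1 h2 h2
      · have := hinj (hmem i) (hmem j) hij
        apply Fin.ext
        rw [← h1, ← h2, this]
      · exact absurd ⟨L[i.1], hmem i, hij⟩ (r j.1).2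
      · exact absurd ⟨L[j.1], hmem j, hij.symm⟩ (r i.1).2
      · exact Fin.ext (r.injective (Subtype.ext hij))
    · have key : ∀ u v : Fin L.length, (u.1, v.1) ∈ (numbering E).2 → dist (q u) (q v) = 1 := by
        intro u v huv
        obtain ⟨e, he, heq⟩ := List.mem_map.mp huv
        simp only [Prod.mk.injEq] at heq
        have h1 : e.1 ∈ ends E := ⟨e, he, Or.inl rfl⟩
        have h2 : e.2 ∈ ends E := ⟨e, he, Or.inr rfl⟩
        have hu : u = ⟨L.idxOf e.1, hlt _ h1⟩ := Fin.ext heq.1.symm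
        have hv : v = ⟨L.idxOf e.2, hlt _ h2⟩ := Fin.ext heq.2.symm
        rw [hu, hv, hidx _ h1, hidx _ h2, dist_eq_norm]
        exact hp e he
      intro u v huv
      rw [GraphCode.graph, SimpleGraph.fromRel_adj] at huv
      rcases huv.2 with h | h
      · exact key u v h
      · rw [dist_comm]
        exact key v u h

theorem E3_ne {M : Type} (B : List (M × M)) : ∀ e ∈ E3 d B, e.1 ≠ e.2 := by
  intro e he
  simp only [E3, List.mem_flatMap, barEdges, List.mem_cons, List.mem_map] at he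
  obtain ⟨⟨b, i⟩, _, rfl | rfl | ⟨⟨⟨k, σ⟩, ⟨l, τ⟩⟩, ht, rfl⟩⟩ := he
  · simp
  · simp
  · obtain ⟨hk, hl, hkl⟩ := mem_tmpl.mp ht
    simp only [cp]
    by_cases h1 : k = 0 <;> by_cases h2 : l = 0
    · omega
    · simp [h1, h2]
    · simp [h1, h2]
    · simp only [h1, h2, if_false, ne_eq, Option.some.injEq, Sum.inr.injEq, Prod.mk.injEq]
      omega

end Pool.Agent.Lib.MP_0f8b55_lc
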