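import Pool.Agent.Lib.MP_0f8b55_lc.PhaseA
import Pool.Agent.Lib.MP_0f8b55_lc.Dim

/-!
# The reduction from the existential theory of the reals to Euclidean dimension
-/

namespace Pool.Agent.Lib.MP_0f8b55_lc

instance decPW : DecidableEq (PW Num) := inferInstance
instance decV2 : DecidableEq (V2 (PW Num)) := inferInstance
instance decV3 : DecidableEq (V3 (V2 (PW Num))) := inferInstance

/-- The graph of a token sequence. -/
def graphOf (d : ℕ) (l : List Tok) : GraphCode :=
  numbering (E3 d (B2 d (gateK (sysGates (consOf l) 1))))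

theorem graphOf_iff {d : ℕ} (hd : 3 ≤ d) (φ : Fml) :
    (∃ x : ℕ → ℝ, φ.Holds x) ↔ euclideanDim (graphOf d φ.toks).graph ≤ d := by
  rw [euclideanDim_le_iff _ (by omega : 1 ≤ d), graphOf, numbering_iff _ (E3_ne _) (by omega)]
  constructor
  · intro h
    obtain ⟨x, hx1, hx⟩ := phaseA_complete φ h
    obtain ⟨y, hy⟩ := layer1_complete hx (consOf_dist _) hx1
    obtain ⟨X, h1, h2, h3, h4, h5⟩ := layer2b_complete hy
    exact layer3_complete hd (layer2a_complete hd gateK_lt X h1 h2 h3 h4 h5)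
  · intro h
    obtain ⟨X, h1, h2, h3⟩ := layer2a_sound hd (layer3_sound hd (B2_ne gateK_ne) h)
    obtain ⟨y, c, hc, hy⟩ := layer2b_sound h1 h2 h3
    exact phaseA_sound φ (layer1_sound hc hy)

end Pool.Agent.Lib.MP_0f8b55_lc
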