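import Pool.Agent.Lib.MP_0f8b55_lc.Code
import Pool.Agent.Lib.MP_0f8b55_lc.Reduce

/-!
# The reduction is computable in polynomial time
-/

namespace Pool.Agent.Lib.MP_0f8b55_lc

open Pool.Agent.Lib.PolyTime

/-- The number of an instruction. -/
def Ins.num : Ins → ℕ
  | .zero => 0 | .one => 1 | .free => 2 | .dup => 3 | .swap => 4 | .sw23 => 5 | .sw34 => 6
  | .add => 7 | .mul => 8 | .sub => 9

instance encIns : Enc Ins := Enc.ofInj Ins.num (by
  intro a b h
  cases a <;> cases b <;> first | rfl | (simp [Ins.num] at h))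

/-! ### The stack machine -/

/-- The symbol with a given number. -/
def symOf (k : ℕ) : Sym :=
  if k = 0 then .add else if k = 1 then .mul else if k = 2 then .eq else if k = 3 then .lt
  else if k = 4 then .le else if k = 5 then .not else if k = 6 then .and else .or

theorem symOf_num (s : Sym) : symOf s.num = s := by cases s <;> rfl

instance encSym : Enc Sym := Enc.ofInj Sym.num (by
  intro a b h
  cases a <;> cases b <;> first | rfl | (simp [Sym.num] at h))

theorem pt_symOf : PT symOf := by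
  have e : ∀ j : ℕ, PT (fun k : ℕ => decide (k = j)) := fun j => PT.eqConst j
  exact PT.ite (e 0) (PT.const _) (PT.ite (e 1) (PT.const _) (PT.ite (e 2) (PT.const _)
    (PT.ite (e 3) (PT.const _) (PT.ite (e 4) (PT.const _) (PT.ite (e 5) (PT.const _)
    (PT.ite (e 6) (PT.const _) (PT.const _)))))))

theorem pt_mics : PT (fun t : Tok => t.mics) := by
  have h0 : PT (fun t : Tok => t.data) := PT.of_enc_eq (fun _ => rfl)
  have hd : PT digitMics := by
    refine (PT.ite (c := fun d : ℕ => d = 0) (PT.eqConst 0)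
      (PT.const ([.inr .dup, .inr .add] : List Mic))
      (PT.const ([.inr .dup, .inr .add, .inr .one, .inr .add] : List Mic))).congr (fun d => rfl)
  have h1 : PT (fun p : ℕ × List ℕ => ((.inr .zero :: (p.2.reverse.flatMap digitMics ++
      if p.1 = 1 then [.inr .zero, .inr .swap, .inr .sub] else [])) : List Mic)) := by
    refine PT.cons (PT.const _) (PT.append (PT.flatMap (g := fun _ d => digitMics d)
      (PT.reverse PT.snd) (hd.comp PT.snd)) ?_)
    exact PT.ite (c := fun p : ℕ × List ℕ => p.1 = 1) ((PT.eqConst 1).comp PT.fst) (PT.const _)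
      (PT.const _)
  have h2 : PT (fun s : Sym => s.mics) := PT.ofFintype _
  have h3 : PT (fun q : ℕ × (ℕ × List ℕ) => if q.1 = 0 then ([.inl q.2.1] : List Mic) else
      if q.1 = 1 then (.inr .zero :: (q.2.2.reverse.flatMap digitMics ++
        if q.2.1 = 1 then [.inr .zero, .inr .swap, .inr .sub] else [])) else
      (symOf q.2.1).mics) := by
    refine PT.ite (c := fun q : ℕ × (ℕ × List ℕ) => q.1 = 0) ((PT.eqConst 0).comp PT.fst)
      (PT.list1 (PT.inl PT.snd.fst')) ?_
    exact PT.ite (c := fun q : ℕ × (ℕ × List ℕ) => q.1 = 1) ((PT.eqConst 1).comp PT.fst)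
      (h1.comp PT.snd) (h2.comp (pt_symOf.comp PT.snd.fst'))
  refine (h3.comp h0).congr (fun t => ?_)
  rcases t with i | ⟨neg, l⟩ | s
  · rfl
  · cases neg <;> rfl
  · simp only [Tok.data, symOf_num]
    rfl

theorem pt_istep_ins (m : Ins) : PT (fun st : MSt => istep st (.inr m)) := by
  have s1 : PT (fun st : MSt => st.1) := PT.fst
  have s2 : PT (fun st : MSt => st.2.1) := PT.snd.fst'
  have s3 : PT (fun st : MSt => st.2.2) := PT.snd.snd'
  have g : ∀ j, PT (fun st : MSt => st.2.1.getD j 0) := fun j => PT.getD s2 j 0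
  have dr : ∀ j, PT (fun st : MSt => st.2.1.drop j) := fun j => PT.drop (PT.const j) s2
  have k1 : PT (fun st : MSt => 2 * st.1 + 1) := (s1.mulConst 2).addConst 1
  have k3 : PT (fun st : MSt => 2 * st.1 + 3) := (s1.mulConst 2).addConst 3
  cases m
  · exact s1.pair ((PT.cons (PT.const 11) s2).pair s3)
  · exact s1.pair ((PT.cons (PT.const 15) s2).pair s3)
  · exact s1.succ.pair ((PT.cons k1 s2).pair s3)
  · exact s1.pair ((PT.cons (g 0) s2).pair s3)
  · exact s1.pair ((PT.cons (g 1) (PT.cons (g 0) (dr 2))).pair s3)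
  · exact s1.pair ((PT.cons (g 0) (PT.cons (g 2) (PT.cons (g 1) (dr 3)))).pair s3)
  · exact s1.pair ((PT.cons (g 0) (PT.cons (g 1) (PT.cons (g 3) (PT.cons (g 2) (dr 4))))).pair s3)
  · exact (s1.addConst 2).pair ((PT.cons k3 (dr 2)).pair
      (PT.cons ((PT.const false).pair ((g 0).pair ((PT.const 13).pair k1)))
        (PT.cons ((PT.const false).pair ((g 1).pair (k1.pair k3))) s3)))
  · exact (s1.addConst 2).pair ((PT.cons k3 (dr 2)).pair
      (PT.cons ((PT.const false).pair ((g 0).pair ((PT.const 13).pair k1)))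
        (PT.cons ((PT.const true).pair ((g 1).pair (k1.pair k3))) s3)))
  · exact (s1.addConst 2).pair ((PT.cons k3 (dr 2)).pair
      (PT.cons ((PT.const false).pair ((g 0).pair ((PT.const 13).pair k1)))
        (PT.cons ((PT.const false).pair (k1.pair (k3.pair (g 1)))) s3)))

theorem pt_istep : PT (fun x : MSt × Mic => istep x.1 x.2) := by
  refine (PT.sumCases (f := fun x : MSt × Mic => x.2)
    (g := fun x i => ((x.1.1, 2 * i :: x.1.2.1, x.1.2.2) : MSt))
    (h := fun x m => istep x.1 (.inr m)) PT.snd ?_ ?_).congr (fun x => ?_)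
  · have s1 : PT (fun y : (MSt × Mic) × ℕ => y.1.1) := PT.fst.fst'
    exact s1.fst'.pair ((PT.cons (PT.snd.mulConst 2) s1.snd'.fst').pair s1.snd'.snd')
  · exact PT.finCases (α := (MSt × Mic) × Ins) (F := fun m y => istep y.1.1 (.inr m))
      (fun m => (pt_istep_ins m).comp PT.fst.fst') PT.snd
  · rcases x with ⟨st, i | m⟩ <;> rfl

/-- The bound on the intermediate states. -/
structure Bd (n V : ℕ) (st : MSt) : Prop where
  k : st.1 ≤ 11 + 2 * n
  len : st.2.1.length ≤ 4 * n
  stk : ∀ i ∈ st.2.1, i ≤ 2 * V + 4 * n + 25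
  out : st.2.2.length ≤ 8 + 2 * n
  ids : ∀ e ∈ st.2.2, e.2.1 ≤ 2 * V + 4 * n + 25 ∧ e.2.2.1 ≤ 2 * V + 4 * n + 25 ∧
    e.2.2.2 ≤ 2 * V + 4 * n + 25

theorem Bd.step {n V : ℕ} {st : MSt} (h : Bd n V st) {m : Mic} (hm : ∀ i, m = .inl i → i ≤ V) :
    Bd (n + 1) V (istep st m) := by
  obtain ⟨h1, h2, h3, h4, h5⟩ := h
  have g : ∀ j, st.2.1.getD j 0 ≤ 2 * V + 4 * n + 25 := by
    intro j
    rw [List.getD_eq_getElem?_getD]
    rcases hj : st.2.1[j]? with _ | i
    · simp
    · exact h3 i (List.mem_of_getElem? hj)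
  have g0 := g 0
  have g1 := g 1
  have g2 := g 2
  have g3 := g 3
  have key : ∀ i ∈ st.2.1, i ≤ 2 * V + 4 * (n + 1) + 25 := fun i hi => by
    have := h3 i hi
    omega
  have keyd : ∀ j, ∀ i ∈ st.2.1.drop j, i ≤ 2 * V + 4 * (n + 1) + 25 := fun j i hi =>
    key i (List.mem_of_mem_drop hi)
  have kids : ∀ e ∈ st.2.2, e.2.1 ≤ 2 * V + 4 * (n + 1) + 25 ∧
      e.2.2.1 ≤ 2 * V + 4 * (n + 1) + 25 ∧ e.2.2.2 ≤ 2 * V + 4 * (n + 1) + 25 := fun e he => by
    obtain ⟨a, b, c⟩ := h5 e he
    omega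
  rcases m with i | m
  · have hi := hm i rfl
    refine ⟨by simp only [istep]; omega, by simp only [istep, List.length_cons]; omega, ?_,
      by simp only [istep]; omega, kids⟩
    intro j hj
    simp only [istep, List.mem_cons] at hj
    rcases hj with rfl | hj
    · omega
    · exact key j hj
  · cases m
    all_goals
      refine ⟨by simp only [istep]; omega, by
        simp only [istep, List.length_cons, List.length_drop]; omega, ?_, by
        simp only [istep, List.length_cons]; omega, ?_⟩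
      · intro j hj
        simp only [istep, List.mem_cons] at hj
        first
          | (rcases hj with rfl | rfl | rfl | rfl | hj
             all_goals first | exact keyd _ _ hj | omega)
          | (rcases hj with rfl | rfl | rfl | hj
             all_goals first | exact keyd _ _ hj | omega)
          | (rcases hj with rfl | rfl | hj
             all_goals first | exact keyd _ _ hj | omega)
          | (rcases hj with rfl | hj
             all_goals first | exact key _ hj | exact keyd _ _ hj | omega)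
      · intro e he
        simp only [istep, List.mem_cons] at he
        first
          | exact kids e he
          | (rcases he with rfl | rfl | he
             · simp only; omega
             · simp only; omega
             · exact kids e he)

theorem Bd.foldl {V : ℕ} (l : List Mic) (hl : ∀ m ∈ l, ∀ i, m = .inl i → i ≤ V) {n : ℕ} {st : MSt}
    (h : Bd n V st) : Bd (n + l.length) V (l.foldl istep st) := by
  induction l generalizing n st with
  | nil => exact h
  | cons m l ih =>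
    have := ih (fun m hm => hl m (List.mem_cons_of_mem _ hm))
      (h.step (m := m) (hl m (List.mem_cons_self ..)))
    rw [List.length_cons, show n + (l.length + 1) = n + 1 + l.length by ring]
    exact this

theorem bd_init (V : ℕ) : Bd 0 V initSt := by
  refine ⟨le_refl _, by simp [initSt], by simp [initSt], by simp [initSt, initCons], ?_⟩
  intro e he
  simp only [initSt, initCons, List.mem_cons, List.not_mem_nil, or_false] at he
  rcases he with rfl | rfl | rfl | rfl | rfl | rfl | rfl | rfl <;> simp only <;> omega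

theorem Bd.size_le {n V : ℕ} {st : MSt} (h : Bd n V st) :
    size st ≤ (2 * (11 + 2 * n) + 1) + ((4 * n) * (2 * (2 * V + 4 * n + 25) + 1 + 1) + 1 +
      ((8 + 2 * n) * (6 * (2 * V + 4 * n + 25) + 10) + 1) + 1) + 1 := by
  obtain ⟨h1, h2, h3, h4, h5⟩ := h
  have e1 : size st.2.1 ≤ st.2.1.length * (2 * (2 * V + 4 * n + 25) + 1 + 1) + 1 :=
    size_list_le _ (fun i hi => by rw [size_nat]; have := h3 i hi; omega)
  have e2 : size st.2.2 ≤ st.2.2.length * (6 * (2 * V + 4 * n + 25) + 9 + 1) + 1 := by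
    refine size_list_le _ (fun e he => ?_)
    obtain ⟨a, b, c⟩ := h5 e he
    have hb : size e.1 ≤ 3 := by
      rcases e.1 with _ | _ <;> decide
    rw [size_prod, size_prod, size_prod, size_nat, size_nat, size_nat]
    omega
  have e3 : st.2.1.length * (2 * (2 * V + 4 * n + 25) + 1 + 1) ≤
      (4 * n) * (2 * (2 * V + 4 * n + 25) + 1 + 1) := Nat.mul_le_mul_right _ h2
  have e4 : st.2.2.length * (6 * (2 * V + 4 * n + 25) + 9 + 1) ≤
      (8 + 2 * n) * (6 * (2 * V + 4 * n + 25) + 10) := Nat.mul_le_mul_right _ h4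
  rw [size_prod, size_prod, size_nat]
  omega

theorem pt_finSt : PT finSt := by
  have hl : PT (fun l : List Tok => l.flatMap Tok.mics ++ [Sum.inr Ins.swap]) :=
    PT.append (PT.flatMap (g := fun (_ : List Tok) t => Tok.mics t) PT.id
      (pt_mics.comp PT.snd)) (PT.const _)
  obtain ⟨p, hp⟩ := hl.size_le
  refine PT.foldl (f := fun l : List Tok => l.flatMap Tok.mics ++ [Sum.inr Ins.swap])
    (init := fun _ => initSt) (step := fun _ st m => istep st m) hl (PT.const _)
    (pt_istep.comp PT.snd) (B := fun N => (2 * (11 + 2 * p.eval N) + 1) + ((4 * p.eval N) *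
      (2 * (2 * p.eval N + 4 * p.eval N + 25) + 1 + 1) + 1 +
      ((8 + 2 * p.eval N) * (6 * (2 * p.eval N + 4 * p.eval N + 25) + 10) + 1) + 1) + 1) ?_ ?_
  · have hP : PB (fun N => p.eval N) := PB.poly p
    have c : ∀ k, PB (fun _ => k) := PB.const
    have hM : PB (fun N => 2 * p.eval N + 4 * p.eval N + 25) :=
      (((c 2).mul hP).add ((c 4).mul hP)).add (c 25)
    exact (((((c 2).mul ((c 11).add ((c 2).mul hP))).add (c 1)).add
      ((((((c 4).mul hP).mul ((((c 2).mul hM).add (c 1)).add (c 1))).add (c 1)).add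
      ((((c 8).add ((c 2).mul hP)).mul (((c 6).mul hM).add (c 10))).add (c 1))).add (c 1)))).add
      (c 1)
  · intro l l' hl'
    set L := l.flatMap Tok.mics ++ [Sum.inr Ins.swap] with hL
    have hV : ∀ m ∈ l', ∀ i, m = Sum.inl i → i ≤ size L := by
      rintro m hm i rfl
      have h1 : (Sum.inl i : Mic) ∈ L := hl'.subset hm
      have h2 := size_mem_lt h1
      have h3 : size i ≤ size (Sum.inl i : Mic) := by
        simp only [size, Enc.enc, BT.size, BT.ser, List.length_cons, List.length_append]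
        omega
      rw [size_nat] at h3
      omega
    have hb := (Bd.foldl l' hV (bd_init _)).size_le
    have hlen : l'.length ≤ p.eval (size l) :=
      (hl'.length_le.trans (length_le_size _)).trans (hp l)
    have hs : size L ≤ p.eval (size l) := hp l
    rw [zero_add] at hb
    refine hb.trans ?_
    gcongr

theorem pt_consOf : PT consOf := by
  have s1 : PT (fun l : List Tok => (finSt l).1) := pt_finSt.fst'
  have s2 : PT (fun l : List Tok => (finSt l).2.1.getD 0 0) := PT.getD pt_finSt.snd'.fst' 0 0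
  have s3 : PT (fun l : List Tok => (finSt l).2.2) := pt_finSt.snd'.snd'
  have k1 : PT (fun l : List Tok => 2 * (finSt l).1 + 1) := (s1.mulConst 2).addConst 1
  have k3 : PT (fun l : List Tok => 2 * (finSt l).1 + 3) := (s1.mulConst 2).addConst 3
  exact PT.cons ((PT.const false).pair (s2.pair (k1.pair k3)))
    (PT.cons ((PT.const false).pair (k3.pair ((PT.const 13).pair k1))) s3)

/-! ### Layer 1 -/

theorem pt_add {α β : Type} [Enc α] [Enc β] {s m w : α → β} (hs : PT s) (hm : PT m) (hw : PT w) :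
    PT (fun a => (.inl (s a, m a, w a) : Gate β)) := PT.inl (hs.pair (hm.pair hw))

theorem pt_fma {α β : Type} [Enc α] [Enc β] {s t m w : α → β} (hs : PT s) (ht : PT t) (hm : PT m)
    (hw : PT w) : PT (fun a => (.inr (.inl (s a, t a, m a, w a)) : Gate β)) :=
  PT.inr (PT.inl (hs.pair (ht.pair (hm.pair hw))))

theorem pt_conGates : PT conGates := by
  have hk : ∀ j : ℕ, PT (fun q : Con × ℕ => ((j, q.2) : Num)) := fun j => (PT.const j).pair PT.snd
  have ha : ∀ j : ℕ, PT (fun q : Con × ℕ => ((j, q.1.2.1) : Num)) := fun j =>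
    (PT.const j).pair PT.fst.snd'.fst'
  have hb : ∀ j : ℕ, PT (fun q : Con × ℕ => ((j, q.1.2.2.1) : Num)) := fun j =>
    (PT.const j).pair PT.fst.snd'.snd'.fst'
  have hc : ∀ j : ℕ, PT (fun q : Con × ℕ => ((j, q.1.2.2.2) : Num)) := fun j =>
    (PT.const j).pair PT.fst.snd'.snd'.snd'
  refine (PT.cond (c := fun q : Con × ℕ => q.1.1)
    (f := fun q => [.inr (.inl ((0, q.1.2.1), (0, q.1.2.2.1), (2, q.2), (4, q.2))),
      .inr (.inl ((1, q.1.2.1), (1, q.1.2.2.1), (4, q.2), (5, q.2))),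
      .inl ((3, q.2), (5, q.2), (6, q.2)),
      .inr (.inl ((0, q.1.2.1), (1, q.1.2.2.1), (6, q.2), (7, q.2))),
      .inr (.inl ((1, q.1.2.1), (0, q.1.2.2.1), (7, q.2), (8, q.2))),
      .inl ((0, q.1.2.2.2), (2, q.2), (9, q.2)), .inl ((3, q.2), (9, q.2), (10, q.2)),
      .inl ((1, q.1.2.2.2), (10, q.2), (8, q.2))])
    (g := fun q => [.inl ((0, q.1.2.1), (2, q.2), (3, q.2)),
      .inl ((0, q.1.2.2.2), (4, q.2), (3, q.2)), .inl ((0, q.1.2.2.1), (4, q.2), (5, q.2)),
      .inl ((1, q.1.2.2.2), (6, q.2), (5, q.2)), .inl ((1, q.1.2.1), (6, q.2), (7, q.2)),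
      .inl ((1, q.1.2.2.1), (7, q.2), (2, q.2))])
    PT.fst.fst' ?_ ?_).congr ?_
  · exact PT.cons (pt_fma (ha 0) (hb 0) (hk 2) (hk 4)) <|
      PT.cons (pt_fma (ha 1) (hb 1) (hk 4) (hk 5)) <|
      PT.cons (pt_add (hk 3) (hk 5) (hk 6)) <|
      PT.cons (pt_fma (ha 0) (hb 1) (hk 6) (hk 7)) <|
      PT.cons (pt_fma (ha 1) (hb 0) (hk 7) (hk 8)) <|
      PT.cons (pt_add (hc 0) (hk 2) (hk 9)) <|
      PT.cons (pt_add (hk 3) (hk 9) (hk 10)) <|
      PT.cons (pt_add (hc 1) (hk 10) (hk 8)) (PT.const [])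
  · exact PT.cons (pt_add (ha 0) (hk 2) (hk 3)) <|
      PT.cons (pt_add (hc 0) (hk 4) (hk 3)) <|
      PT.cons (pt_add (hb 0) (hk 4) (hk 5)) <|
      PT.cons (pt_add (hc 1) (hk 6) (hk 5)) <|
      PT.cons (pt_add (ha 1) (hk 6) (hk 7)) <|
      PT.cons (pt_add (hb 1) (hk 7) (hk 2)) (PT.const [])
  · rintro ⟨⟨t, a, b, c⟩, κ⟩
    cases t <;> rfl

theorem pt_sysGates (z : ℕ) : PT (fun L : List Con => sysGates L z) :=
  PT.cons (PT.const _) (PT.flatMap (g := fun (_ : List Con) q => conGates q) (PT.zipIdx PT.id)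
    (pt_conGates.comp PT.snd))

/-! ### Layer 2 -/

theorem pt_bundle {α : Type} [Enc α] : PT (bundle : α → List (PW α × (ℕ ⊕ PW α))) := by
  have w : ∀ k : ℕ, PT (fun a : α => (.inr (.inl (k, a)) : PW α)) := fun k =>
    PT.inr (PT.inl ((PT.const k).pair PT.id))
  have v : ∀ k : ℕ, PT (fun a : α => (.inr (.inr (.inl (k, a))) : ℕ ⊕ PW α)) := fun k =>
    PT.inr (w k)
  have c : ∀ x : ℕ ⊕ PW α, PT (fun _ : α => x) := fun x => PT.const x
  exact PT.cons ((w 0).pair (c _)) <| PT.cons ((w 1).pair (v 0)) <|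
    PT.cons ((w 1).pair (c _)) <| PT.cons ((w 2).pair (c _)) <|
    PT.cons ((w 2).pair (v 1)) <| PT.cons ((w 3).pair (c _)) <|
    PT.cons ((w 3).pair (v 2)) <| PT.cons ((w 4).pair (v 0)) <|
    PT.cons ((w 4).pair (c _)) <| PT.cons ((w 5).pair (c _)) <|
    PT.cons ((w 5).pair (v 4)) <| PT.cons ((w 6).pair (v 3)) <|
    PT.cons ((w 6).pair (c _)) (PT.const [])

theorem pt_nums {α : Type} [Enc α] : PT (Gate.nums : Gate α → List α) := by
  refine (PT.sumCases (f := fun g : Gate α => g) (g := fun _ p => [p.1, p.2.1, p.2.2])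
    (h := fun _ q => match q with
      | Sum.inl p => [p.1, p.2.1, p.2.2.1, p.2.2.2]
      | Sum.inr p => [p.1, p.2]) PT.id ?_ ?_).congr ?_
  · exact PT.cons PT.snd.fst' (PT.cons PT.snd.snd'.fst' (PT.cons PT.snd.snd'.snd' (PT.const [])))
  · refine (PT.sumCases (f := fun x : Gate α × ((α × α × α × α) ⊕ (α × α)) => x.2)
      (g := fun _ p => [p.1, p.2.1, p.2.2.1, p.2.2.2]) (h := fun _ p => [p.1, p.2])
      PT.snd ?_ ?_).congr (fun x => by rcases x with ⟨t, p | s⟩ <;> rfl)
    · exact PT.cons PT.snd.fst' (PT.cons PT.snd.snd'.fst' (PT.cons PT.snd.snd'.snd'.fst'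
        (PT.cons PT.snd.snd'.snd'.snd' (PT.const []))))
    · exact PT.cons PT.snd.fst' (PT.cons PT.snd.snd' (PT.const []))
  · rintro (⟨s, m, w⟩ | ⟨s, t, m, w⟩ | ⟨s, m⟩) <;> rfl

theorem pt_gateCore {α : Type} [Enc α] :
    PT (gateCore : Gate α × ℕ → List (PW α × (ℕ ⊕ PW α))) := by
  refine (PT.sumCases (f := fun g : Gate α × ℕ => g.1)
    (g := fun x p => [(.inr (.inr (0, x.2)), .inr (.inr (.inl (0, p.1)))),
       (.inr (.inr (0, x.2)), .inr (.inr (.inl (2, p.2.2)))),
       (.inr (.inr (0, x.2)), .inr (.inr (.inl (6, p.2.1))))])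
    (h := fun x q => match q with
      | Sum.inl p => [(.inr (.inr (1, x.2)), .inr (.inr (.inl (3, p.2.2.1)))),
         (.inr (.inr (1, x.2)), .inr (.inr (.inl (5, p.2.1)))),
         (.inr (.inr (0, x.2)), .inr (.inr (.inl (0, p.1)))),
         (.inr (.inr (0, x.2)), .inr (.inr (.inl (2, p.2.2.2)))),
         (.inr (.inr (0, x.2)), .inr (.inr (.inr (1, x.2))))]
      | Sum.inr p => [(.inr (.inr (0, x.2)), .inr (.inr (.inl (0, p.1)))),
         (.inr (.inr (0, x.2)), .inr (.inl 3)),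
         (.inr (.inr (0, x.2)), .inr (.inr (.inl (6, p.2))))]) PT.fst ?_ ?_).congr ?_
  · have w : PT (fun x : (Gate α × ℕ) × (α × α × α) => (.inr (.inr (0, x.1.2)) : PW α)) :=
      PT.inr (PT.inr ((PT.const 0).pair PT.fst.snd'))
    have v : ∀ (k : ℕ) {f : (Gate α × ℕ) × (α × α × α) → α}, PT f →
        PT (fun x => (.inr (.inr (.inl (k, f x))) : ℕ ⊕ PW α)) := fun k _ hf =>
      PT.inr (PT.inr (PT.inl ((PT.const k).pair hf)))
    exact PT.cons (w.pair (v 0 PT.snd.fst')) <| PT.cons (w.pair (v 2 PT.snd.snd'.snd')) <|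
      PT.cons (w.pair (v 6 PT.snd.snd'.fst')) (PT.const [])
  · refine (PT.sumCases (f := fun x : (Gate α × ℕ) × ((α × α × α × α) ⊕ (α × α)) => x.2)
      (g := fun x p => [(.inr (.inr (1, x.1.2)), .inr (.inr (.inl (3, p.2.2.1)))),
         (.inr (.inr (1, x.1.2)), .inr (.inr (.inl (5, p.2.1)))),
         (.inr (.inr (0, x.1.2)), .inr (.inr (.inl (0, p.1)))),
         (.inr (.inr (0, x.1.2)), .inr (.inr (.inl (2, p.2.2.2)))),
         (.inr (.inr (0, x.1.2)), .inr (.inr (.inr (1, x.1.2))))])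
      (h := fun x p => [(.inr (.inr (0, x.1.2)), .inr (.inr (.inl (0, p.1)))),
         (.inr (.inr (0, x.1.2)), .inr (.inl 3)),
         (.inr (.inr (0, x.1.2)), .inr (.inr (.inl (6, p.2))))])
      PT.snd ?_ ?_).congr (fun x => by rcases x with ⟨t, p | s⟩ <;> rfl)
    · have w : ∀ k : ℕ, PT (fun x : ((Gate α × ℕ) × ((α × α × α × α) ⊕ (α × α))) ×
          (α × α × α × α) => (.inr (.inr (k, x.1.1.2)) : PW α)) := fun k =>
        PT.inr (PT.inr ((PT.const k).pair PT.fst.fst'.snd'))
      have v : ∀ (k : ℕ) {f : ((Gate α × ℕ) × ((α × α × α × α) ⊕ (α × α))) ×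
          (α × α × α × α) → α}, PT f →
          PT (fun x => (.inr (.inr (.inl (k, f x))) : ℕ ⊕ PW α)) := fun k _ hf =>
        PT.inr (PT.inr (PT.inl ((PT.const k).pair hf)))
      exact PT.cons ((w 1).pair (v 3 PT.snd.snd'.snd'.fst')) <|
        PT.cons ((w 1).pair (v 5 PT.snd.snd'.fst')) <|
        PT.cons ((w 0).pair (v 0 PT.snd.fst')) <|
        PT.cons ((w 0).pair (v 2 PT.snd.snd'.snd'.snd')) <|
        PT.cons ((w 0).pair (PT.inr (w 1))) (PT.const [])
    · have w : ∀ k : ℕ, PT (fun x : ((Gate α × ℕ) × ((α × α × α × α) ⊕ (α × α))) ×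
          (α × α) => (.inr (.inr (k, x.1.1.2)) : PW α)) := fun k =>
        PT.inr (PT.inr ((PT.const k).pair PT.fst.fst'.snd'))
      have v : ∀ (k : ℕ) {f : ((Gate α × ℕ) × ((α × α × α × α) ⊕ (α × α))) ×
          (α × α) → α}, PT f →
          PT (fun x => (.inr (.inr (.inl (k, f x))) : ℕ ⊕ PW α)) := fun k _ hf =>
        PT.inr (PT.inr (PT.inl ((PT.const k).pair hf)))
      exact PT.cons ((w 0).pair (v 0 PT.snd.fst')) <|
        PT.cons ((w 0).pair (PT.const _)) <|
        PT.cons ((w 0).pair (v 6 PT.snd.snd')) (PT.const [])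
  · rintro ⟨⟨s, m, w⟩ | ⟨s, t, m, w⟩ | ⟨s, m⟩, i⟩ <;> rfl

theorem pt_gateK {α : Type} [Enc α] : PT (gateK : List (Gate α) → List (PW α × (ℕ ⊕ PW α))) := by
  refine PT.append (PT.const _) (PT.flatMap (g := fun (_ : List (Gate α)) (g : Gate α × ℕ) =>
    g.1.nums.flatMap bundle ++ gateCore g) (PT.zipIdx PT.id) ?_)
  refine PT.append ?_ (pt_gateCore.comp PT.snd)
  exact PT.flatMap (f := fun x : List (Gate α) × (Gate α × ℕ) => x.2.1.nums)
    (g := fun _ a => bundle a) (pt_nums.comp PT.snd.fst') (pt_bundle.comp PT.snd)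

theorem pt_emb2 {W : Type} [Enc W] : PT (emb2 : ℕ ⊕ W → V2 W) := by
  refine (PT.sumCases (f := fun x : ℕ ⊕ W => x) (g := fun _ j => (.inl (.inl j) : V2 W))
    (h := fun _ w => (.inr w : V2 W)) PT.id (PT.inl (PT.inl PT.snd)) (PT.inr PT.snd)).congr ?_
  rintro (j | w) <;> rfl

theorem pt_B2 {W : Type} [Enc W] (d : ℕ) :
    PT (B2 d : List (W × (ℕ ⊕ W)) → List (V2 W × V2 W)) := by
  refine PT.append (PT.const _) (PT.append (PT.const _) (PT.flatMap
    (g := fun (_ : List (W × (ℕ ⊕ W))) (e : W × (ℕ ⊕ W)) => ((.inr e.1, emb2 e.2) ::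
        (extra d).map (fun j => (.inr e.1, .inl (.inl j))) : List (V2 W × V2 W))) PT.id ?_))
  refine PT.cons ((PT.inr PT.snd.fst').pair (pt_emb2.comp PT.snd.snd')) ?_
  exact PT.mapConst (extra d) (f := fun (j : ℕ) (x : List (W × (ℕ ⊕ W)) × (W × (ℕ ⊕ W))) =>
    ((.inr x.2.1, .inl (.inl j)) : V2 W × V2 W)) (fun j _ => (PT.inr PT.snd.fst').pair (PT.const _))

/-! ### Layer 3 -/

theorem pt_cp {M : Type} [Enc M] (k : ℕ) (σ : Bool) :
    PT (fun q : (M × M) × ℕ => cp q.1.1 q.1.2 q.2 k σ) := by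
  by_cases hk : k = 0
  · cases σ
    · refine (PT.some (PT.inl PT.fst.snd')).congr (fun q => ?_)
      simp [cp, hk]
    · refine (PT.some (PT.inl PT.fst.fst')).congr (fun q => ?_)
      simp [cp, hk]
  · refine (PT.some (PT.inr (PT.snd.pair (PT.const (k, σ))))).congr (fun q => ?_)
    simp [cp, hk]

theorem pt_barEdges {M : Type} [Enc M] (d : ℕ) :
    PT (barEdges d : (M × M) × ℕ → List (V3 M × V3 M)) := by
  refine PT.cons ((PT.const none).pair (PT.some (PT.inl PT.fst.fst')))
    (PT.cons ((PT.const none).pair (PT.some (PT.inl PT.fst.snd'))) ?_)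
  exact PT.mapConst (tmpl d) (f := fun (t : (ℕ × Bool) × (ℕ × Bool)) (q : (M × M) × ℕ) =>
    (cp q.1.1 q.1.2 q.2 t.1.1 t.1.2, cp q.1.1 q.1.2 q.2 t.2.1 t.2.2))
    (fun t _ => (pt_cp _ _).pair (pt_cp _ _))

theorem pt_E3 {M : Type} [Enc M] (d : ℕ) : PT (E3 d : List (M × M) → List (V3 M × V3 M)) :=
  PT.flatMap (g := fun (_ : List (M × M)) q => barEdges d q) (PT.zipIdx PT.id)
    ((pt_barEdges d).comp PT.snd)

theorem pt_numbering {α : Type} [Enc α] [DecidableEq α] :
    PT (numbering : List (α × α) → GraphCode) := by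
  have hL : PT (endList : List (α × α) → List α) :=
    PT.flatMap (g := fun (_ : List (α × α)) (e : α × α) => [e.1, e.2]) PT.id
      (PT.cons PT.snd.fst' (PT.cons PT.snd.snd' (PT.const [])))
  have h : PT (fun E : List (α × α) => ((endList E).length,
      E.map (fun e => ((endList E).idxOf e.1, (endList E).idxOf e.2)))) := by
    refine (PT.length hL).pair (PT.map (g := fun (E : List (α × α)) (e : α × α) =>
      ((endList E).idxOf e.1, (endList E).idxOf e.2)) PT.id ?_)
    exact (PT.idxOf (hL.comp PT.fst) PT.snd.fst').pair (PT.idxOf (hL.comp PT.fst) PT.snd.snd')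
  exact h.congr_enc (fun _ => rfl)

theorem pt_graphOf (d : ℕ) : PT (fun φ : Fml => graphOf d φ.toks) := by
  have h0 : PT (fun φ : Fml => φ.toks) := PT.of_enc_eq (fun _ => rfl)
  exact pt_numbering.comp ((pt_E3 d).comp ((pt_B2 d).comp (pt_gateK.comp
    ((pt_sysGates 1).comp (pt_consOf.comp h0)))))

end Pool.Agent.Lib.MP_0f8b55_lc
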