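import Pool.Agent.Lib.MP_0f8b55_lc.Defs
import Pool.Agent.Lib.PolyTime.Lists
import Pool.Agent.Lib.PolyTime

/-!
# The codes of the statement are the codes of the polynomial time toolkit
-/

namespace Pool.Agent.Lib.MP_0f8b55_lc

open Pool.Agent.Lib.PolyTime

theorem Reduces.trans {P Q R : Problem} (h1 : Reduces P Q) (h2 : Reduces Q R) : Reduces P R := by
  obtain ⟨f, ⟨hf⟩, hf'⟩ := h1
  obtain ⟨g, ⟨hg⟩, hg'⟩ := h2
  exact ⟨fun a => g (f a), computable_comp hf hg, fun a => (hf' a).trans (hg' (f a))⟩

theorem codeNat_eq (n : ℕ) : codeNat n = code n := by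
  induction n with
  | zero => rfl
  | succ n ih =>
    have : code (n + 1) = true :: false :: code n := rfl
    rw [this, ← ih]; rfl

theorem codePair_eq {α β : Type} [Enc α] [Enc β] {c : α → List Bool} {c' : β → List Bool}
    (hc : ∀ a, c a = code a) (hc' : ∀ a, c' a = code a) (p : α × β) :
    codePair c c' p = code p := by
  have : code p = true :: (code p.1 ++ code p.2) := rfl
  rw [this, codePair, hc, hc']

theorem codeList_eq {α : Type} [Enc α] {c : α → List Bool} (hc : ∀ a, c a = code a)
    (l : List α) : codeList c l = code l := by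
  induction l with
  | nil => rfl
  | cons a l ih =>
    have : code (a :: l) = true :: (code a ++ code l) := rfl
    rw [this, ← ih, ← hc]; rfl

instance encTok : Enc Tok := Enc.ofInj Tok.data Tok.data_injective

instance encFml : Enc Fml := Enc.ofInj Fml.toks Fml.toks_injective

theorem tok_code (t : Tok) : t.code = code t := by
  have : code t = code t.data := rfl
  rw [this, Tok.code]
  exact codePair_eq codeNat_eq (codePair_eq codeNat_eq (codeList_eq codeNat_eq)) _

theorem fml_code (φ : Fml) : φ.code = code φ := by
  have : code φ = code φ.toks := rfl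
  rw [this, Fml.code]
  exact codeList_eq tok_code _

theorem graph_code (I : GraphCode) :
    codePair codeNat (codeList (codePair codeNat codeNat)) I = code I :=
  codePair_eq codeNat_eq (codeList_eq (codePair_eq codeNat_eq codeNat_eq)) _

instance fintypeSym : Fintype Sym where
  elems := {.add, .mul, .eq, .lt, .le, .not, .and, .or}
  complete := by intro x; cases x <;> simp

/-- A polynomial time reduction from the existential theory of the reals to `EDIM_d`. -/
theorem reduces_of_pt {d : ℕ} {f : Fml → GraphCode} (hf : PT f)
    (h : ∀ φ : Fml, (∃ x : ℕ → ℝ, φ.Holds x) ↔ euclideanDim (f φ).graph ≤ d) :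
    Reduces ETR (EDIM d) := by
  refine ⟨f, ?_, h⟩
  have e1 : ETR.enc = (code : Fml → List Bool) := funext fml_code
  have e2 : (EDIM d).enc = (code : GraphCode → List Bool) := funext graph_code
  rw [e1, e2]
  exact hf.computable

/-- A polynomial time reduction from `EDIM_d` to the existential theory of the reals. -/
theorem inER_of_pt {d : ℕ} {f : GraphCode → Fml} (hf : PT f)
    (h : ∀ I : GraphCode, euclideanDim I.graph ≤ d ↔ ∃ x : ℕ → ℝ, (f I).Holds x) :
    InER (EDIM d) := by
  refine ⟨f, ?_, h⟩
  have e1 : ETR.enc = (code : Fml → List Bool) := funext fml_code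
  have e2 : (EDIM d).enc = (code : GraphCode → List Bool) := funext graph_code
  rw [e1, e2]
  exact hf.computable

end Pool.Agent.Lib.MP_0f8b55_lc
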