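import Mathlib.Computability.TuringMachine.Computable
import Mathlib.Analysis.InnerProductSpace.PiL2
import Mathlib.Combinatorics.SimpleGraph.Basic
import Mathlib.Data.Nat.Digits.Lemmas
import Mathlib.Tactic

/-!
# The decision problems: existential theory of the reals and Euclidean dimension

All definitions used in the statement of the result are in this file.
-/

namespace Pool.Agent.Lib.MP_0f8b55_lc

/-! ### Decision problems and reductions -/

/-- A decision problem: instances, written injectively as strings over a finite alphabet, and the
set of yes-instances. -/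
structure Problem where
  /-- the instances -/
  Inst : Type
  /-- the alphabet -/
  Letter : Type
  /-- the alphabet is finite -/
  fin : Finite Letter
  /-- the string of an instance -/
  enc : Inst → List Letter
  /-- instances are determined by their strings -/
  inj : Function.Injective enc
  /-- the yes-instances -/
  Yes : Inst → Prop

/-- Polynomial time many-one reducibility (by Turing machines, in the sense of Mathlib). -/
def Reduces (P Q : Problem) : Prop :=
  ∃ f : P.Inst → Q.Inst, Nonempty (Turing.TM2ComputableInPolyTime P.enc Q.enc f) ∧
    ∀ a, P.Yes a ↔ Q.Yes (f a)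

/-! ### Bit strings of numbers, pairs and lists -/

/-- The code of a natural number: `(10)^n 0` (unary). -/
def codeNat : ℕ → List Bool
  | 0 => [false]
  | n + 1 => true :: false :: codeNat n

/-- The code of a pair: `1 c(a) c'(b)`. -/
def codePair {α β : Type} (c : α → List Bool) (c' : β → List Bool) (p : α × β) : List Bool :=
  true :: (c p.1 ++ c' p.2)

/-- The code of a list `[a, b, …]`: `1 c(a) 1 c(b) … 0`. -/
def codeList {α : Type} (c : α → List Bool) : List α → List Bool
  | [] => [false]
  | a :: l => true :: (c a ++ codeList c l)

/-- A self-delimiting injective code. -/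
def SelfDelimiting {α : Type} (c : α → List Bool) : Prop :=
  ∀ a b s t, c a ++ s = c b ++ t → a = b ∧ s = t

theorem selfDelimiting_nat : SelfDelimiting codeNat := by
  intro a
  induction a with
  | zero =>
    intro b s t h
    cases b with
    | zero => simpa [codeNat] using h
    | succ b => simp [codeNat] at h
  | succ a ih =>
    intro b s t h
    cases b with
    | zero => simp [codeNat] at h
    | succ b =>
      simp only [codeNat, List.cons_append, List.cons.injEq, true_and] at h
      obtain ⟨h1, h2⟩ := ih b s t h
      exact ⟨by rw [h1], h2⟩

theorem SelfDelimiting.pair {α β : Type} {c : α → List Bool} {c' : β → List Bool}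
    (hc : SelfDelimiting c) (hc' : SelfDelimiting c') : SelfDelimiting (codePair c c') := by
  rintro ⟨a, b⟩ ⟨a', b'⟩ s t h
  simp only [codePair, List.cons_append, List.append_assoc, List.cons.injEq, true_and] at h
  obtain ⟨h1, h2⟩ := hc _ _ _ _ h
  obtain ⟨h3, h4⟩ := hc' _ _ _ _ h2
  exact ⟨by rw [h1, h3], h4⟩

theorem SelfDelimiting.list {α : Type} {c : α → List Bool} (hc : SelfDelimiting c) :
    SelfDelimiting (codeList c) := by
  intro a
  induction a with
  | nil =>
    intro b s t h
    cases b with
    | nil => simpa [codeList] using h
    | cons b l => simp [codeList] at h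
  | cons a l ih =>
    intro b s t h
    cases b with
    | nil => simp [codeList] at h
    | cons b l' =>
      simp only [codeList, List.cons_append, List.append_assoc, List.cons.injEq, true_and] at h
      obtain ⟨h1, h2⟩ := hc _ _ _ _ h
      obtain ⟨h3, h4⟩ := ih _ _ _ h2
      exact ⟨by rw [h1, h3], h4⟩

theorem SelfDelimiting.injective {α : Type} {c : α → List Bool} (hc : SelfDelimiting c) :
    Function.Injective c := fun a b h => (hc a b [] [] (by rw [h])).1

/-! ### The existential theory of the reals -/

/-- Polynomial expressions with integer coefficients. -/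
inductive Trm where
  | var (i : ℕ)
  | const (c : ℤ)
  | add (s t : Trm)
  | mul (s t : Trm)

/-- The value of an expression at a point. -/
noncomputable def Trm.val (x : ℕ → ℝ) : Trm → ℝ
  | .var i => x i
  | .const c => c
  | .add s t => s.val x + t.val x
  | .mul s t => s.val x * t.val x

/-- Boolean combinations of polynomial equations and inequalities. -/
inductive Fml where
  | eq (s t : Trm)
  | lt (s t : Trm)
  | le (s t : Trm)
  | not (φ : Fml)
  | and (φ ψ : Fml)
  | or (φ ψ : Fml)

/-- The truth of a formula at a point. -/
def Fml.Holds (x : ℕ → ℝ) : Fml → Prop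
  | .eq s t => s.val x = t.val x
  | .lt s t => s.val x < t.val x
  | .le s t => s.val x ≤ t.val x
  | .not φ => ¬ φ.Holds x
  | .and φ ψ => φ.Holds x ∧ ψ.Holds x
  | .or φ ψ => φ.Holds x ∨ ψ.Holds x

/-- The operation symbols. -/
inductive Sym where
  | add | mul | eq | lt | le | not | and | or
  deriving DecidableEq

/-- The number of an operation symbol. -/
def Sym.num : Sym → ℕ
  | .add => 0 | .mul => 1 | .eq => 2 | .lt => 3 | .le => 4 | .not => 5 | .and => 6 | .or => 7

/-- The tokens: variables (index), integer constants (sign and binary digits, least significant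
digit first), operation symbols. -/
inductive Tok where
  | var (i : ℕ)
  | const (neg : Bool) (digits : List ℕ)
  | op (s : Sym)

/-- An expression in reverse Polish order. -/
def Trm.toks : Trm → List Tok
  | .var i => [.var i]
  | .const c => [.const (decide (c < 0)) (Nat.digits 2 c.natAbs)]
  | .add s t => s.toks ++ t.toks ++ [.op .add]
  | .mul s t => s.toks ++ t.toks ++ [.op .mul]

/-- A formula in reverse Polish order. -/
def Fml.toks : Fml → List Tok
  | .eq s t => s.toks ++ t.toks ++ [.op .eq]
  | .lt s t => s.toks ++ t.toks ++ [.op .lt]
  | .le s t => s.toks ++ t.toks ++ [.op .le]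
  | .not φ => φ.toks ++ [.op .not]
  | .and φ ψ => φ.toks ++ ψ.toks ++ [.op .and]
  | .or φ ψ => φ.toks ++ ψ.toks ++ [.op .or]

/-- The data of a token: its kind, a number, a list of digits. -/
def Tok.data : Tok → ℕ × (ℕ × List ℕ)
  | .var i => (0, (i, []))
  | .const neg digits => (1, (if neg then 1 else 0, digits))
  | .op s => (2, (s.num, []))

theorem Tok.data_injective : Function.Injective Tok.data := by
  intro a b h
  rcases a with i | ⟨neg, l⟩ | s <;> rcases b with i' | ⟨neg', l'⟩ | s' <;>
    simp only [Tok.data, Prod.mk.injEq] at h
  · rw [h.2.1]
  · omega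
  · omega
  · omega
  · obtain ⟨-, h1, h2⟩ := h
    rw [h2]
    cases neg <;> cases neg' <;> simp_all
  · omega
  · omega
  · omega
  · have h1 := h.2.1
    cases s <;> cases s' <;> first | rfl | (simp [Sym.num] at h1)

/-- The bit string of a token. -/
def Tok.code (t : Tok) : List Bool :=
  codePair codeNat (codePair codeNat (codeList codeNat)) t.data

/-- The bit string of a formula. -/
def Fml.code (φ : Fml) : List Bool := codeList Tok.code φ.toks

/-- Reading back a token sequence (used only to prove that `toks` is injective). -/
def readTok : List (Trm ⊕ Fml) → Tok → List (Trm ⊕ Fml)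
  | st, .var i => .inl (.var i) :: st
  | st, .const neg l =>
    .inl (.const (if neg then -((Nat.ofDigits 2 l : ℕ) : ℤ) else ((Nat.ofDigits 2 l : ℕ) : ℤ))) :: st
  | .inl t :: .inl s :: st, .op .add => .inl (.add s t) :: st
  | .inl t :: .inl s :: st, .op .mul => .inl (.mul s t) :: st
  | .inl t :: .inl s :: st, .op .eq => .inr (.eq s t) :: st
  | .inl t :: .inl s :: st, .op .lt => .inr (.lt s t) :: st
  | .inl t :: .inl s :: st, .op .le => .inr (.le s t) :: st
  | .inr φ :: st, .op .not => .inr (.not φ) :: st
  | .inr ψ :: .inr φ :: st, .op .and => .inr (.and φ ψ) :: st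
  | .inr ψ :: .inr φ :: st, .op .or => .inr (.or φ ψ) :: st
  | st, _ => st

theorem Trm.read (t : Trm) (st : List (Trm ⊕ Fml)) :
    t.toks.foldl readTok st = .inl t :: st := by
  induction t generalizing st with
  | var i => rfl
  | const c =>
    simp only [toks, List.foldl_cons, List.foldl_nil, readTok, Nat.ofDigits_digits]
    by_cases h : c < 0
    · simp only [h, decide_true, if_true]
      congr 3
      omega
    · simp only [h, decide_false, Bool.false_eq_true, if_false]
      congr 3
      omega
  | add s t hs ht => simp only [toks, List.foldl_append, hs, ht]; rfl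
  | mul s t hs ht => simp only [toks, List.foldl_append, hs, ht]; rfl

theorem Fml.read (φ : Fml) (st : List (Trm ⊕ Fml)) :
    φ.toks.foldl readTok st = .inr φ :: st := by
  induction φ generalizing st with
  | eq s t => simp only [toks, List.foldl_append, Trm.read]; rfl
  | lt s t => simp only [toks, List.foldl_append, Trm.read]; rfl
  | le s t => simp only [toks, List.foldl_append, Trm.read]; rfl
  | not φ h => simp only [toks, List.foldl_append, h]; rfl
  | and φ ψ h h' => simp only [toks, List.foldl_append, h, h']; rfl
  | or φ ψ h h' => simp only [toks, List.foldl_append, h, h']; rfl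

theorem Fml.toks_injective : Function.Injective Fml.toks := by
  intro φ ψ h
  have h1 := φ.read []
  have h2 := ψ.read []
  rw [h, h2] at h1
  simpa using h1.symm

theorem selfDelimiting_tok : SelfDelimiting Tok.code := by
  intro a b s t h
  obtain ⟨h1, h2⟩ := (selfDelimiting_nat.pair (selfDelimiting_nat.pair selfDelimiting_nat.list))
    _ _ _ _ h
  exact ⟨Tok.data_injective h1, h2⟩

/-- The existential theory of the reals: given a quantifier free formula, is it satisfiable over
the reals? -/
def ETR : Problem where
  Inst := Fml
  Letter := Bool
  fin := inferInstance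
  enc := Fml.code
  inj := selfDelimiting_tok.list.injective.comp Fml.toks_injective
  Yes := fun φ => ∃ x : ℕ → ℝ, φ.Holds x

/-- The class `∃ℝ`. -/
def InER (P : Problem) : Prop := Reduces P ETR

/-- Completeness for `∃ℝ` under polynomial time many-one reductions. -/
def ERComplete (P : Problem) : Prop := InER P ∧ ∀ Q, InER Q → Reduces Q P

/-! ### Euclidean dimension -/

/-- `G` is a subgraph of the unit distance graph of `ℝ^d`. -/
def IsUnitDistance {V : Type} (G : SimpleGraph V) (d : ℕ) : Prop :=
  ∃ p : V → EuclideanSpace ℝ (Fin d), Function.Injective p ∧ ∀ u v, G.Adj u v → dist (p u) (p v) = 1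

/-- The Euclidean dimension of a graph (the least `d ≥ 1`). -/
noncomputable def euclideanDim {V : Type} (G : SimpleGraph V) : ℕ :=
  sInf {d | 1 ≤ d ∧ IsUnitDistance G d}

/-- A graph, given by its number `n` of vertices and a list of pairs; the vertices are
`0, …, n - 1` and two distinct vertices are adjacent if one of the two pairs is in the list. -/
abbrev GraphCode : Type := ℕ × List (ℕ × ℕ)

/-- The graph of a graph code. -/
def GraphCode.graph (I : GraphCode) : SimpleGraph (Fin I.1) :=
  SimpleGraph.fromRel (fun u v => (u.1, v.1) ∈ I.2)

/-- The problem `EDIM_d`: is the Euclidean dimension of a given graph at most `d`? -/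
noncomputable def EDIM (d : ℕ) : Problem where
  Inst := GraphCode
  Letter := Bool
  fin := inferInstance
  enc := codePair codeNat (codeList (codePair codeNat codeNat))
  inj := (selfDelimiting_nat.pair (selfDelimiting_nat.pair selfDelimiting_nat).list).injective
  Yes := fun I => euclideanDim I.graph ≤ d

end Pool.Agent.Lib.MP_0f8b55_lc
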