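import Mathlib.Analysis.InnerProductSpace.PiL2
import Mathlib.LinearAlgebra.FiniteDimensional.Lemmas
import Mathlib.Tactic

/-!
# The geometry of the bars

In `ℝ^d`, `d ≥ 3`, the cross-polytope graph `K_{2,…,2}` with unit edges is rigid as soon as the two
points of every pair are distinct: the points of a pair have distance `√2`.  Conversely two points
at distance `√2` can be completed to such a configuration avoiding any finite set.
-/

namespace Pool.Agent.Lib.MP_0f8b55_lc

open scoped RealInnerProductSpace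

variable {d : ℕ}

/-- The Euclidean space. -/
abbrev Eu (d : ℕ) : Type := EuclideanSpace ℝ (Fin d)

theorem norm_sub_sq_real' (a b : Eu d) : ‖a - b‖ ^ 2 = ‖a‖ ^ 2 - 2 * ⟪a, b⟫ + ‖b‖ ^ 2 :=
  norm_sub_sq_real a b

/-- A vector orthogonal to `d` nonzero pairwise orthogonal vectors of `ℝ^d` is zero. -/
theorem eq_zero_of_orthogonal {u : Fin d → Eu d} (hu : ∀ i, u i ≠ 0)
    (ho : ∀ i j, i ≠ j → ⟪u i, u j⟫ = 0) {w : Eu d} (hw : ∀ i, ⟪w, u i⟫ = 0) : w = 0 := by
  have hli : LinearIndependent ℝ u := linearIndependent_of_ne_zero_of_inner_eq_zero hu ho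
  have hcard : Fintype.card (Fin d) = Module.finrank ℝ (Eu d) := by simp
  have hspan : Submodule.span ℝ (Set.range u) = ⊤ := hli.span_eq_top_of_card_eq_finrank' hcard
  have hmem : w ∈ Submodule.span ℝ (Set.range u) := by rw [hspan]; trivial
  have key : ∀ v ∈ Submodule.span ℝ (Set.range u), ⟪w, v⟫ = 0 := by
    intro v hv
    induction hv using Submodule.span_induction with
    | mem x hx => obtain ⟨i, rfl⟩ := hx; exact hw i
    | zero => exact inner_zero_right _
    | add x y _ _ hx hy => rw [inner_add_right, hx, hy, add_zero]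
    | smul a x _ hx => rw [inner_smul_right, hx, mul_zero]
  exact inner_self_eq_zero.mp (key w hmem)

/-- Rigidity of the cross-polytope with distinct antipodal points. -/
theorem bar_rigid (hd : 3 ≤ d) {P : Fin d → Bool → Eu d} (hne : ∀ i, P i true ≠ P i false)
    (hdist : ∀ i j, i ≠ j → ∀ σ τ, ‖P i σ - P j τ‖ = 1) (i : Fin d) :
    ‖P i true - P i false‖ ^ 2 = 2 := by
  set u : Fin d → Eu d := fun i => P i true - P i false with hu
  set m : Fin d → Eu d := fun i => (1 / 2 : ℝ) • (P i true + P i false) with hm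
  have hu0 : ∀ i, u i ≠ 0 := fun i => sub_ne_zero.mpr (hne i)
  have hsq : ∀ i j, i ≠ j → ∀ σ τ, ⟪P i σ - P j τ, P i σ - P j τ⟫ = 1 := by
    intro i j hij σ τ
    rw [real_inner_self_eq_norm_sq, hdist i j hij σ τ]; norm_num
  -- orthogonality relations
  have h1 : ∀ i j, i ≠ j → ⟪u i, u j⟫ = 0 := by
    intro i j hij
    have a1 := hsq i j hij true true
    have a2 := hsq i j hij true false
    have a3 := hsq i j hij false true
    have a4 := hsq i j hij false false
    simp only [hu, inner_sub_left, inner_sub_right, real_inner_comm] at *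
    linarith
  have h2 : ∀ i j, i ≠ j → ⟪m j - m i, u i⟫ = 0 := by
    intro i j hij
    have a1 := hsq i j hij true true
    have a2 := hsq i j hij true false
    have a3 := hsq i j hij false true
    have a4 := hsq i j hij false false
    simp only [hu, hm, inner_sub_left, inner_sub_right, inner_add_left,
      inner_smul_left, real_inner_comm, RCLike.conj_to_real] at *
    linarith
  have h3 : ∀ i j, m i = m j := by
    intro i j
    by_cases hij : i = j
    · rw [hij]
    · refine sub_eq_zero.mp (eq_zero_of_orthogonal hu0 h1 (fun k => ?_))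
      by_cases hki : k = i
      · subst hki
        have := h2 k j hij
        have e : m k - m j = -(m j - m k) := by abel
        rw [e, inner_neg_left, this, neg_zero]
      · by_cases hkj : k = j
        · subst hkj
          exact h2 k i hki
        · have b1 := h2 k i hki
          have b2 := h2 k j hkj
          have e : m i - m j = (m i - m k) - (m j - m k) := by abel
          rw [e, inner_sub_left, b1, b2, sub_zero]
  have h4 : ∀ i j, i ≠ j → ‖u i‖ ^ 2 + ‖u j‖ ^ 2 = 4 := by
    intro i j hij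
    have e1 : P i true = m i + (1 / 2 : ℝ) • u i := by
      simp only [hu, hm]; module
    have e2 : P j true = m i + (1 / 2 : ℝ) • u j := by
      rw [h3 i j]; simp only [hu, hm]; module
    have e3 : P i true - P j true = (1 / 2 : ℝ) • (u i - u j) := by
      rw [e1, e2]; module
    have a1 := hdist i j hij true true
    rw [e3, norm_smul] at a1
    have a2 : ‖u i - u j‖ = 2 := by
      rw [Real.norm_eq_abs, abs_of_pos (by norm_num : (0:ℝ) < 1 / 2)] at a1
      linarith
    have a3 := norm_sub_sq_real' (u i) (u j)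
    rw [a2, h1 i j hij] at a3
    linarith
  -- three indices
  obtain ⟨j, k, hij, hik, hjk⟩ : ∃ j k : Fin d, i ≠ j ∧ i ≠ k ∧ j ≠ k := by
    have h5 : ∃ j : Fin d, j ≠ i := by
      by_cases h : i = ⟨0, by omega⟩
      · exact ⟨⟨1, by omega⟩, by rw [h]; simp⟩
      · exact ⟨⟨0, by omega⟩, fun h' => h h'.symm⟩
    obtain ⟨j, hj⟩ := h5
    have h6 : ∃ k : Fin d, k ∉ ({i, j} : Finset (Fin d)) := by
      by_contra hcon
      push Not at hcon
      have h7 : (Finset.univ : Finset (Fin d)) ⊆ {i, j} := fun k _ => hcon k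
      have h8 := Finset.card_le_card h7
      rw [Finset.card_univ, Fintype.card_fin] at h8
      have h9 := Finset.card_le_two (a := i) (b := j)
      omega
    obtain ⟨k, hk⟩ := h6
    simp only [Finset.mem_insert, Finset.mem_singleton, not_or] at hk
    exact ⟨j, k, hj.symm, Ne.symm hk.1, Ne.symm hk.2⟩
  have a1 := h4 i j hij
  have a2 := h4 i k hik
  have a3 := h4 j k hjk
  have : ‖u i‖ ^ 2 = 2 := by linarith
  exact this

/-- The reflected frame. -/
theorem orthonormal_reflect {ι : Type} [Fintype ι] [DecidableEq ι] {e : ι → Eu d}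
    (he : Orthonormal ℝ e) (c : ι → ℝ) (N : ℝ) (hN : N = ∑ k, c k ^ 2) (hN0 : N ≠ 0) :
    Orthonormal ℝ (fun k => e k - (2 * c k / N) • ∑ l, c l • e l) := by
  set x : Eu d := ∑ l, c l • e l with hx
  have h1 : ∀ k, ⟪e k, x⟫ = c k := by
    intro k
    rw [hx, inner_sum]
    simp only [inner_smul_right]
    rw [Finset.sum_eq_single k]
    · rw [real_inner_self_eq_norm_sq, he.1 k]; ring
    · intro l _ hl
      rw [he.2 (Ne.symm hl), mul_zero]
    · intro h; exact absurd (Finset.mem_univ k) h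
  have h2 : ⟪x, x⟫ = N := by
    have : ⟪x, x⟫ = ∑ l, c l * ⟪e l, x⟫ := by
      conv_lhs => rw [hx]
      rw [sum_inner]
      simp only [inner_smul_left, RCLike.conj_to_real]
      rw [← hx]
    rw [this, hN]
    refine Finset.sum_congr rfl (fun l _ => ?_)
    rw [h1]; ring
  have h3 : ∀ k l, ⟪e k - (2 * c k / N) • x, e l - (2 * c l / N) • x⟫ = ⟪e k, e l⟫ := by
    intro k l
    have h1' : ∀ k, ⟪x, e k⟫ = c k := fun k => by rw [real_inner_comm]; exact h1 k
    have e1 : ⟪e k - (2 * c k / N) • x, e l - (2 * c l / N) • x⟫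
        = ⟪e k, e l⟫ - (2 * c l / N) * ⟪e k, x⟫ - (2 * c k / N) * ⟪x, e l⟫
          + (2 * c k / N) * (2 * c l / N) * ⟪x, x⟫ := by
      rw [inner_sub_left, inner_sub_right, inner_sub_right, inner_smul_left, inner_smul_right,
        inner_smul_right, inner_smul_left]
      simp only [RCLike.conj_to_real]
      ring
    rw [e1, h1, h1', h2]
    field_simp
    ring
  refine ⟨fun k => ?_, fun k l hkl => ?_⟩
  · have h4 := h3 k k
    rw [real_inner_self_eq_norm_sq, real_inner_self_eq_norm_sq, he.1 k] at h4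
    have h5 := norm_nonneg (e k - (2 * c k / N) • x)
    nlinarith
  · show ⟪e k - (2 * c k / N) • x, e l - (2 * c l / N) • x⟫ = 0
    rw [h3, he.2 hkl]

/-- The coefficients of the reflection. -/
noncomputable def refl (d : ℕ) (s : ℝ) (k : Fin d) : ℝ :=
  if k.1 = 0 then 0 else if k.1 = 1 then s else 1

/-- Completing a pair at distance `√2` to a cross-polytope avoiding a finite set. -/
theorem bar_extend (hd : 3 ≤ d) {a b : Eu d} (hab : ‖a - b‖ ^ 2 = 2) (F : Set (Eu d))
    (hF : F.Finite) :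
    ∃ P : ℕ → Bool → Eu d, P 0 true = a ∧ P 0 false = b ∧
      (∀ k l, k < d → l < d → k ≠ l → ∀ σ τ, ‖P k σ - P l τ‖ = 1) ∧
      (∀ k, k < d → P k true ≠ P k false) ∧
      (∀ k, k < d → k ≠ 0 → ∀ σ, P k σ ∉ F) := by
  have h2 : (0:ℝ) < Real.sqrt 2 := Real.sqrt_pos.mpr (by norm_num)
  have h22 : Real.sqrt 2 * Real.sqrt 2 = 2 := Real.mul_self_sqrt (by norm_num)
  set m : Eu d := (1 / 2 : ℝ) • (a + b) with hm
  set g0 : Eu d := (1 / Real.sqrt 2) • (a - b) with hg0
  have hg0n : ‖g0‖ = 1 := by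
    have : ‖g0‖ ^ 2 = 1 := by
      rw [hg0, norm_smul, mul_pow, hab, Real.norm_eq_abs, sq_abs, div_pow, Real.sq_sqrt (by norm_num)]
      norm_num
    have h0 := norm_nonneg g0
    nlinarith
  obtain ⟨e, he⟩ : ∃ e : OrthonormalBasis (Fin d) ℝ (Eu d), e ⟨0, by omega⟩ = g0 := by
    have hv : Orthonormal ℝ (Set.domRestrict ({⟨0, by omega⟩} : Set (Fin d)) (fun _ => g0)) := by
      refine ⟨fun i => ?_, fun i j hij => ?_⟩
      · exact hg0n
      · exact absurd (Subtype.ext (i.2.trans j.2.symm)) hij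
    obtain ⟨b', hb'⟩ := hv.exists_orthonormalBasis_extension_of_card_eq (by simp)
    exact ⟨b', hb' _ rfl⟩
  -- the frame with parameter s
  set N : ℝ → ℝ := fun s => ∑ k, refl d s k ^ 2 with hN
  have hNs : ∀ s : ℝ, N s = s ^ 2 + (d - 2 : ℝ) := by
    intro s
    obtain ⟨d', rfl⟩ : ∃ d', d = d' + 2 := ⟨d - 2, by omega⟩
    simp only [hN]
    rw [Fin.sum_univ_succ, Fin.sum_univ_succ]
    simp [refl]
  have hNpos : ∀ s : ℝ, 0 < N s := by
    intro s
    rw [hNs]
    have : (3:ℝ) ≤ d := by exact_mod_cast hd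
    nlinarith [sq_nonneg s]
  set x : ℝ → Eu d := fun s => ∑ l, refl d s l • e l with hx
  set g : ℝ → Fin d → Eu d := fun s k => e k - (2 * refl d s k / N s) • x s with hg
  have hgo : ∀ s, Orthonormal ℝ (g s) := fun s =>
    orthonormal_reflect e.orthonormal (refl d s) (N s) rfl (hNpos s).ne'
  have hxe : ∀ s k, ⟪x s, e k⟫ = refl d s k := by
    intro s k
    simp only [hx]
    rw [sum_inner, Finset.sum_eq_single k]
    · rw [real_inner_smul_left, real_inner_self_eq_norm_sq, e.orthonormal.1 k]; ring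
    · intro l _ hl
      rw [real_inner_smul_left, e.orthonormal.2 hl, mul_zero]
    · intro h; exact absurd (Finset.mem_univ k) h
  have hge : ∀ s k, ⟪g s k, e k⟫ = 1 - 2 * refl d s k ^ 2 / N s := by
    intro s k
    simp only [hg]
    rw [inner_sub_left, real_inner_smul_left, hxe, real_inner_self_eq_norm_sq, e.orthonormal.1 k]
    ring
  have hginj : ∀ s t : ℝ, 0 < s → 0 < t → ∀ k : Fin d, k.1 ≠ 0 →
      ⟪g s k, e k⟫ = ⟪g t k, e k⟫ → s = t := by
    intro s t hs ht k hk h
    rw [hge, hge] at h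
    have hd' : (3:ℝ) ≤ d := by exact_mod_cast hd
    have hNs0 := hNpos s
    have hNt0 := hNpos t
    have h' : refl d s k ^ 2 / N s = refl d t k ^ 2 / N t := by
      have e1 : 2 * refl d s k ^ 2 / N s = 2 * (refl d s k ^ 2 / N s) := by ring
      have e2 : 2 * refl d t k ^ 2 / N t = 2 * (refl d t k ^ 2 / N t) := by ring
      rw [e1, e2] at h
      linarith
    rw [div_eq_div_iff hNs0.ne' hNt0.ne', hNs, hNs] at h'
    have hst : s ^ 2 = t ^ 2 := by
      by_cases hk1 : k.1 = 1
      · simp only [refl, hk1] at h'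
        norm_num at h'
        have : (s ^ 2 - t ^ 2) * ((d:ℝ) - 2) = 0 := by linarith
        rcases mul_eq_zero.mp this with h | h
        · linarith
        · linarith
      · simp only [refl, hk, hk1] at h'
        norm_num at h'
        linarith
    exact (sq_eq_sq₀ hs.le ht.le).mp hst
  set Q : ℝ → Fin d → Bool → Eu d := fun s k σ =>
    if σ then m + (1 / Real.sqrt 2) • g s k else m - (1 / Real.sqrt 2) • g s k with hQ
  have hQinj : ∀ s t : ℝ, 0 < s → 0 < t → ∀ k : Fin d, k.1 ≠ 0 → ∀ σ, Q s k σ = Q t k σ → s = t := by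
    intro s t hs ht k hk σ h
    refine hginj s t hs ht k hk ?_
    have hne : (1 / Real.sqrt 2) ≠ 0 := by positivity
    have h' : g s k = g t k := by
      cases σ
      · simp only [hQ, Bool.false_eq_true, if_false, sub_right_inj] at h
        exact smul_right_injective _ hne h
      · simp only [hQ, if_true, add_right_inj] at h
        exact smul_right_injective _ hne h
    rw [h']
  -- choose s
  obtain ⟨s, hs⟩ : ∃ s : ℕ, ∀ k : Fin d, k.1 ≠ 0 → ∀ σ, Q ((s:ℝ) + 1) k σ ∉ F := by
    by_contra hcon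
    push Not at hcon
    choose k hk σ hσ using hcon
    have : Finite F := hF
    obtain ⟨s, t, hst, h⟩ := Finite.exists_ne_map_eq_of_infinite
      (fun s : ℕ => (k s, σ s, (⟨Q ((s:ℝ) + 1) (k s) (σ s), hσ s⟩ : F)))
    simp only [Prod.mk.injEq, Subtype.mk.injEq] at h
    obtain ⟨h1, h2, h3⟩ := h
    apply hst
    have h4 := hQinj ((s:ℝ) + 1) ((t:ℝ) + 1) (by positivity) (by positivity) (k s) (hk s) (σ s)
      (by rw [h3, h1, h2])
    exact_mod_cast (add_left_injective (1:ℝ)) h4
  have hgs0 : g ((s:ℝ) + 1) ⟨0, by omega⟩ = g0 := by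
    simp only [hg]
    rw [he]
    simp [refl]
  have hQd : ∀ k l : Fin d, k ≠ l → ∀ σ τ, ‖Q ((s:ℝ) + 1) k σ - Q ((s:ℝ) + 1) l τ‖ = 1 := by
    intro k l hkl σ τ
    have h1 := (hgo ((s:ℝ) + 1)).1 k
    have h2' := (hgo ((s:ℝ) + 1)).1 l
    have h3 : ⟪g ((s:ℝ) + 1) k, g ((s:ℝ) + 1) l⟫ = 0 := (hgo ((s:ℝ) + 1)).2 hkl
    have key : ∀ (ε δ : ℝ), ε ^ 2 = 1 → δ ^ 2 = 1 →
        ‖(1 / Real.sqrt 2) • (ε • g ((s:ℝ) + 1) k + δ • g ((s:ℝ) + 1) l)‖ = 1 := by
      intro ε δ hε hδ
      have h4 : ‖(1 / Real.sqrt 2) • (ε • g ((s:ℝ) + 1) k + δ • g ((s:ℝ) + 1) l)‖ ^ 2 = 1 := by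
        rw [norm_smul, mul_pow, Real.norm_eq_abs, sq_abs, div_pow, Real.sq_sqrt (by norm_num),
          norm_add_sq_real, norm_smul, norm_smul, mul_pow, mul_pow, Real.norm_eq_abs,
          Real.norm_eq_abs, sq_abs, sq_abs, hε, hδ, h1, h2', real_inner_smul_left,
          real_inner_smul_right, h3]
        norm_num
      have h5 := norm_nonneg ((1 / Real.sqrt 2) • (ε • g ((s:ℝ) + 1) k + δ • g ((s:ℝ) + 1) l))
      nlinarith
    cases σ <;> cases τ
    · have := key (-1) 1 (by norm_num) (by norm_num)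
      refine Eq.trans ?_ this; simp only [hQ]; congr 1; simp only [Bool.false_eq_true, if_false]; module
    · have := key (-1) (-1) (by norm_num) (by norm_num)
      refine Eq.trans ?_ this; simp only [hQ]; congr 1
      simp only [Bool.false_eq_true, if_false, if_true]; module
    · have := key 1 1 (by norm_num) (by norm_num)
      refine Eq.trans ?_ this; simp only [hQ]; congr 1
      simp only [Bool.false_eq_true, if_false, if_true]; module
    · have := key 1 (-1) (by norm_num) (by norm_num)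
      refine Eq.trans ?_ this; simp only [hQ]; congr 1; simp only [if_true]; module
  refine ⟨fun k σ => if h : k < d then Q ((s:ℝ) + 1) ⟨k, h⟩ σ else 0, ?_, ?_, ?_, ?_, ?_⟩
  · have h0 : 0 < d := by omega
    simp only [h0, dif_pos]
    simp only [hQ, if_true]
    rw [hgs0, hg0, hm, smul_smul]
    have : 1 / Real.sqrt 2 * (1 / Real.sqrt 2) = 1 / 2 := by
      rw [div_mul_div_comm, h22, one_mul]
    rw [this]; module
  · have h0 : 0 < d := by omega
    simp only [h0, dif_pos]
    simp only [hQ, Bool.false_eq_true, if_false]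
    rw [hgs0, hg0, hm, smul_smul]
    have : 1 / Real.sqrt 2 * (1 / Real.sqrt 2) = 1 / 2 := by
      rw [div_mul_div_comm, h22, one_mul]
    rw [this]; module
  · intro k l hk hl hkl σ τ
    simp only [hk, hl, dif_pos]
    exact hQd _ _ (by simpa using hkl) σ τ
  · intro k hk
    simp only [hk, dif_pos]
    intro h
    simp only [hQ, Bool.false_eq_true, if_false, if_true] at h
    have h1 := (hgo ((s:ℝ) + 1)).1 ⟨k, hk⟩
    have h3 : (2 * (1 / Real.sqrt 2)) • g ((s:ℝ) + 1) ⟨k, hk⟩ = 0 := by
      have : (2 * (1 / Real.sqrt 2)) • g ((s:ℝ) + 1) ⟨k, hk⟩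
          = (m + (1 / Real.sqrt 2) • g ((s:ℝ) + 1) ⟨k, hk⟩)
            - (m - (1 / Real.sqrt 2) • g ((s:ℝ) + 1) ⟨k, hk⟩) := by module
      rw [this, h, sub_self]
    rcases smul_eq_zero.mp h3 with h4 | h4
    · have : (0:ℝ) < 2 * (1 / Real.sqrt 2) := by positivity
      linarith
    · rw [h4, norm_zero] at h1
      norm_num at h1
  · intro k hk hk0 σ
    simp only [hk, dif_pos]
    exact hs ⟨k, hk⟩ hk0 σ

end Pool.Agent.Lib.MP_0f8b55_lc
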