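import Pool.Agent.Lib.MP_0f8b55_lc.Layer3

/-!
# From planar-projective configurations in `ℝ³` to orthogonality graphs in `ℝ^d`
-/

namespace Pool.Agent.Lib.MP_0f8b55_lc

open scoped RealInnerProductSpace

variable {d : ℕ}

/-- Vertices: `inl (inl j)` is the `j`-th frame vector, `inl (inr j)` its negative. -/
abbrev V2 (W : Type) : Type := (ℕ ⊕ ℕ) ⊕ W

/-- The second endpoint of a constraint. -/
def emb2 {W : Type} : ℕ ⊕ W → V2 W
  | .inl j => .inl (.inl j)
  | .inr w => .inr w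

/-- The frame: pairwise orthogonality. -/
def frameB (d : ℕ) : List (ℕ × ℕ) :=
  ((List.range d).product (List.range d)).filter (fun t => t.1 ≠ t.2)

/-- The frame: negatives. -/
def frameN (d : ℕ) : List (ℕ × ℕ) :=
  ((List.range 3).product (List.range d)).filter (fun t => t.1 ≠ t.2)

/-- The indices of the extra dimensions. -/
def extra (d : ℕ) : List ℕ := (List.range d).filter (fun j => 3 ≤ j)

/-- The orthogonality graph in dimension `d` of a list of constraints in dimension `3`. -/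
def B2 {W : Type} (d : ℕ) (K : List (W × (ℕ ⊕ W))) : List (V2 W × V2 W) :=
  (frameB d).map (fun t => (.inl (.inl t.1), .inl (.inl t.2))) ++
    ((frameN d).map (fun t => (.inl (.inr t.1), .inl (.inl t.2))) ++
      K.flatMap (fun e => (.inr e.1, emb2 e.2) ::
        (extra d).map (fun j => (.inr e.1, .inl (.inl j)))))

theorem mem_B2_1 {W : Type} {K : List (W × (ℕ ⊕ W))} {i j : ℕ} (hi : i < d) (hj : j < d)
    (hij : i ≠ j) : ((.inl (.inl i), .inl (.inl j)) : V2 W × V2 W) ∈ B2 d K := by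
  refine List.mem_append_left _ (List.mem_map.mpr ⟨(i, j), ?_, rfl⟩)
  simp only [frameB, List.mem_filter]
  refine ⟨?_, by simpa using hij⟩
  rw [List.pair_mem_product]
  exact ⟨List.mem_range.mpr hi, List.mem_range.mpr hj⟩

theorem mem_B2_2 {W : Type} {K : List (W × (ℕ ⊕ W))} {i j : ℕ} (hi : i < 3) (hj : j < d)
    (hij : i ≠ j) : ((.inl (.inr i), .inl (.inl j)) : V2 W × V2 W) ∈ B2 d K := by
  refine List.mem_append_right _ (List.mem_append_left _ (List.mem_map.mpr ⟨(i, j), ?_, rfl⟩))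
  simp only [frameN, List.mem_filter]
  refine ⟨?_, by simpa using hij⟩
  rw [List.pair_mem_product]
  exact ⟨List.mem_range.mpr hi, List.mem_range.mpr hj⟩

theorem mem_B2_3 {W : Type} {K : List (W × (ℕ ⊕ W))} {e : W × (ℕ ⊕ W)} (he : e ∈ K) :
    ((.inr e.1, emb2 e.2) : V2 W × V2 W) ∈ B2 d K :=
  List.mem_append_right _ (List.mem_append_right _
    (List.mem_flatMap.mpr ⟨e, he, List.mem_cons_self ..⟩))

theorem mem_B2_4 {W : Type} {K : List (W × (ℕ ⊕ W))} {e : W × (ℕ ⊕ W)} (he : e ∈ K)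
    {j : ℕ} (hj : 3 ≤ j) (hjd : j < d) :
    ((.inr e.1, .inl (.inl j)) : V2 W × V2 W) ∈ B2 d K := by
  refine List.mem_append_right _ (List.mem_append_right _
    (List.mem_flatMap.mpr ⟨e, he, List.mem_cons_of_mem _ (List.mem_map.mpr ⟨j, ?_, rfl⟩)⟩))
  simp [extra, hj, hjd]

theorem mem_B2 {W : Type} {K : List (W × (ℕ ⊕ W))} {p : V2 W × V2 W} (hp : p ∈ B2 d K) :
    (∃ i j, i < d ∧ j < d ∧ i ≠ j ∧ p = (.inl (.inl i), .inl (.inl j))) ∨
    (∃ i j, i < 3 ∧ j < d ∧ i ≠ j ∧ p = (.inl (.inr i), .inl (.inl j))) ∨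
    (∃ e ∈ K, p = (.inr e.1, emb2 e.2)) ∨
    (∃ e ∈ K, ∃ j, 3 ≤ j ∧ j < d ∧ p = (.inr e.1, .inl (.inl j))) := by
  simp only [B2, List.mem_append, List.mem_map, List.mem_flatMap, List.mem_cons] at hp
  rcases hp with ⟨t, ht, rfl⟩ | ⟨t, ht, rfl⟩ | ⟨e, he, rfl | ⟨j, hj, rfl⟩⟩
  · simp only [frameB, List.mem_filter] at ht
    have h1 := List.pair_mem_product.mp (show (t.1, t.2) ∈ _ from ht.1)
    exact Or.inl ⟨t.1, t.2, List.mem_range.mp h1.1, List.mem_range.mp h1.2, by simpa using ht.2, rfl⟩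
  · simp only [frameN, List.mem_filter] at ht
    have h1 := List.pair_mem_product.mp (show (t.1, t.2) ∈ _ from ht.1)
    exact Or.inr (Or.inl ⟨t.1, t.2, List.mem_range.mp h1.1, List.mem_range.mp h1.2,
      by simpa using ht.2, rfl⟩)
  · exact Or.inr (Or.inr (Or.inl ⟨e, he, rfl⟩))
  · simp only [extra, List.mem_filter, List.mem_range, decide_eq_true_eq] at hj
    exact Or.inr (Or.inr (Or.inr ⟨e, he, j, hj.2, hj.1, rfl⟩))

theorem B2_ne {W : Type} {K : List (W × (ℕ ⊕ W))} (hK : ∀ e ∈ K, .inr e.1 ≠ e.2) :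
    ∀ p ∈ B2 d K, p.1 ≠ p.2 := by
  intro p hp
  rcases mem_B2 hp with ⟨i, j, hi, hj, hij, rfl⟩ | ⟨i, j, hi, hj, hij, rfl⟩ | ⟨e, he, rfl⟩ |
    ⟨e, he, j, hj, hjd, rfl⟩
  · simpa using hij
  · simp
  · have := hK e he
    rcases e with ⟨w, i | w'⟩
    · simp [emb2]
    · simpa [emb2] using this
  · simp

/-- The `W`-vertices occurring in the constraints. -/
def wEnds {W : Type} (K : List (W × (ℕ ⊕ W))) : Set W := {w | ∃ e ∈ K, w = e.1 ∨ .inr w = e.2}

theorem layer2a_sound {W : Type} (hd : 3 ≤ d) {K : List (W × (ℕ ⊕ W))}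
    (h : Orth d (B2 d K)) :
    ∃ X : W → ℕ → ℝ, (∀ w j, (w, .inl j) ∈ K → X w j = 0) ∧
      (∀ w w', (w, .inr w') ∈ K → X w 0 * X w' 0 + X w 1 * X w' 1 + X w 2 * X w' 2 = 0) ∧
      (∀ e ∈ K, (X e.1 0 ≠ 0 ∨ X e.1 1 ≠ 0) ∧ (X e.1 0 ≠ 0 ∨ X e.1 2 ≠ 0) ∧
        (X e.1 1 ≠ 0 ∨ X e.1 2 ≠ 0)) := by
  obtain ⟨v, hv, hinj⟩ := h
  -- the frame
  set e : Fin d → Eu d := fun j => v (.inl (.inl j.1)) with he
  have hortho : Orthonormal ℝ e := by
    refine ⟨fun j => ?_, fun i j hij => ?_⟩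
    · obtain ⟨l, hl, hjl⟩ : ∃ l, l < d ∧ j.1 ≠ l := by
        by_cases h : j.1 = 0
        · exact ⟨1, by omega, by omega⟩
        · exact ⟨0, by omega, h⟩
      exact (hv _ (mem_B2_1 j.2 hl hjl)).1
    · exact (hv _ (mem_B2_1 i.2 j.2 (fun h => hij (Fin.ext h)))).2.2
  have hspan : ⊤ ≤ Submodule.span ℝ (Set.range e) := by
    rw [hortho.linearIndependent.span_eq_top_of_card_eq_finrank' (by simp)]
  set E : OrthonormalBasis (Fin d) ℝ (Eu d) := OrthonormalBasis.mk hortho hspan with hE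
  have hEe : ∀ j, E j = e j := fun j => by rw [hE, OrthonormalBasis.coe_mk]
  have hinner : ∀ x y : Eu d, (∀ j : Fin d, 3 ≤ j.1 → ⟪x, e j⟫ = 0) → ⟪x, y⟫ =
      ⟪x, v (.inl (.inl 0))⟫ * ⟪y, v (.inl (.inl 0))⟫ +
      ⟪x, v (.inl (.inl 1))⟫ * ⟪y, v (.inl (.inl 1))⟫ +
      ⟪x, v (.inl (.inl 2))⟫ * ⟪y, v (.inl (.inl 2))⟫ := by
    intro x y hx
    rw [← E.sum_inner_mul_inner x y]
    obtain ⟨d', rfl⟩ : ∃ d', d = d' + 3 := ⟨d - 3, by omega⟩
    rw [Fin.sum_univ_succ, Fin.sum_univ_succ, Fin.sum_univ_succ]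
    rw [Finset.sum_eq_zero]
    · simp only [hEe, he, Fin.val_zero, Fin.val_succ, real_inner_comm y]
      ring
    · intro j _
      rw [hEe, hx _ (by simp), zero_mul]
  have htail : ∀ f ∈ K, ∀ j : Fin d, 3 ≤ j.1 → ⟪v (.inr f.1), e j⟫ = 0 := fun f hf j hj =>
    (hv _ (mem_B2_4 hf hj j.2)).2.2
  refine ⟨fun w j => ⟪v (.inr w), v (.inl (.inl j))⟫, ?_, ?_, ?_⟩
  · intro w j hw
    exact (hv _ (mem_B2_3 hw)).2.2
  · intro w w' hw
    have h1 := (hv _ (mem_B2_3 hw)).2.2
    rw [hinner _ _ (htail _ hw)] at h1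
    exact h1
  · intro f hf
    have hn : ‖v (.inr f.1)‖ = 1 := (hv _ (mem_B2_3 hf)).1
    have key : ∀ i : ℕ, i < 3 → ∃ j, j < 3 ∧ j ≠ i ∧ ⟪v (.inr f.1), v (.inl (.inl j))⟫ ≠ 0 := by
      intro i hi
      by_contra hcon
      push Not at hcon
      -- then v f is a multiple of e i
      have hall : ∀ j : Fin d, j.1 ≠ i → ⟪v (.inr f.1), e j⟫ = 0 := by
        intro j hj
        by_cases hj3 : j.1 < 3
        · exact hcon j.1 hj3 hj
        · exact htail f hf j (by omega)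
      have hnall : ∀ j : Fin d, j.1 ≠ i → ⟪v (.inl (.inr i)), e j⟫ = 0 := by
        intro j hj
        exact (hv _ (mem_B2_2 hi j.2 hj.symm)).2.2
      have hid : i < d := by omega
      have hmul : ∀ x : Eu d, (∀ j : Fin d, j.1 ≠ i → ⟪x, e j⟫ = 0) →
          x = ⟪x, e ⟨i, hid⟩⟫ • e ⟨i, hid⟩ := by
        intro x hx
        conv_lhs => rw [← E.sum_repr' x]
        rw [Finset.sum_eq_single ⟨i, hid⟩]
        · rw [hEe, real_inner_comm]
        · intro j _ hj
          rw [hEe, real_inner_comm, hx j (fun h => hj (Fin.ext h)), zero_smul]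
        · intro h; exact absurd (Finset.mem_univ _) h
      obtain ⟨l, hl, hil⟩ : ∃ l, l < d ∧ i ≠ l := by
        by_cases h : i = 0
        · exact ⟨1, by omega, by omega⟩
        · exact ⟨0, by omega, h⟩
      have hn2 : ‖v (.inl (.inr i))‖ = 1 := (hv _ (mem_B2_2 hi hl hil)).1
      have hei : ‖e ⟨i, hid⟩‖ = 1 := hortho.1 _
      have m1 := hmul _ hall
      have m2 := hmul _ hnall
      have c1 : |⟪v (.inr f.1), e ⟨i, hid⟩⟫| = 1 := by
        have := congrArg norm m1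
        rw [norm_smul, hei, hn, mul_one, Real.norm_eq_abs] at this
        exact this.symm
      have c2 : |⟪v (.inl (.inr i)), e ⟨i, hid⟩⟫| = 1 := by
        have := congrArg norm m2
        rw [norm_smul, hei, hn2, mul_one, Real.norm_eq_abs] at this
        exact this.symm
      have i1 : (.inr f.1 : V2 W) ∈ ends (B2 d K) := ⟨_, mem_B2_3 hf, Or.inl rfl⟩
      have i2 : (.inl (.inr i) : V2 W) ∈ ends (B2 d K) := ⟨_, mem_B2_2 hi hl hil, Or.inl rfl⟩
      have i3 : (.inl (.inl i) : V2 W) ∈ ends (B2 d K) := ⟨_, mem_B2_1 hid hl hil, Or.inl rfl⟩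
      have n1 : v (.inr f.1) ≠ e ⟨i, hid⟩ := fun h => by
        have := hinj i1 i3 h
        simp at this
      have n2 : v (.inl (.inr i)) ≠ e ⟨i, hid⟩ := fun h => by
        have := hinj i2 i3 h
        simp at this
      have n3 : v (.inr f.1) ≠ v (.inl (.inr i)) := fun h => by
        have := hinj i1 i2 h
        simp at this
      rcases (abs_eq (by norm_num)).mp c1 with h1 | h1
      · rw [h1, one_smul] at m1
        exact n1 m1
      · rcases (abs_eq (by norm_num)).mp c2 with h2 | h2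
        · rw [h2, one_smul] at m2
          exact n2 m2
        · rw [h1] at m1
          rw [h2] at m2
          exact n3 (m1.trans m2.symm)
    refine ⟨?_, ?_, ?_⟩
    · obtain ⟨j, hj, hj2, hj3⟩ := key 2 (by norm_num)
      interval_cases j
      · exact Or.inl hj3
      · exact Or.inr hj3
      · exact absurd rfl hj2
    · obtain ⟨j, hj, hj2, hj3⟩ := key 1 (by norm_num)
      interval_cases j
      · exact Or.inl hj3
      · exact absurd rfl hj2
      · exact Or.inr hj3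
    · obtain ⟨j, hj, hj2, hj3⟩ := key 0 (by norm_num)
      interval_cases j
      · exact absurd rfl hj2
      · exact Or.inl hj3
      · exact Or.inr hj3

/-- The vector of a coordinate function. -/
noncomputable def vec (d : ℕ) (f : ℕ → ℝ) : Eu d := WithLp.toLp 2 (fun j : Fin d => f j.1)

theorem vec_apply (f : ℕ → ℝ) (j : Fin d) : vec d f j = f j.1 := rfl

theorem inner_vec (f g : ℕ → ℝ) : ⟪vec d f, vec d g⟫ = ∑ j ∈ Finset.range d, f j * g j := by
  rw [PiLp.inner_apply, ← Fin.sum_univ_eq_sum_range (fun j => f j * g j)]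
  refine Finset.sum_congr rfl (fun j _ => ?_)
  rw [vec_apply, vec_apply]
  simp [mul_comm]

theorem inner_vec3 (hd : 3 ≤ d) (f g : ℕ → ℝ) (hf : ∀ j, 3 ≤ j → f j = 0) :
    ⟪vec d f, vec d g⟫ = f 0 * g 0 + f 1 * g 1 + f 2 * g 2 := by
  rw [inner_vec, ← Finset.sum_subset (s₁ := Finset.range 3)]
  · simp [Finset.sum_range_succ]
  · intro j hj
    simp only [Finset.mem_range] at hj ⊢
    omega
  · intro j _ hj
    simp only [Finset.mem_range, not_lt] at hj
    rw [hf j hj, zero_mul]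

theorem vec_inj {f g : ℕ → ℝ} (h : vec d f = vec d g) {j : ℕ} (hj : j < d) : f j = g j := by
  have := congrArg (fun x : Eu d => x ⟨j, hj⟩) h
  simpa only [vec_apply] using this

theorem smul_vec (r : ℝ) (f : ℕ → ℝ) : r • vec d f = vec d (fun j => r * f j) := by
  ext j
  simp [vec_apply]

theorem layer2a_complete {W : Type} (hd : 3 ≤ d) {K : List (W × (ℕ ⊕ W))}
    (hK : ∀ e ∈ K, ∀ j, e.2 = .inl j → j < 3) (X : W → ℕ → ℝ)
    (hX3 : ∀ w j, 3 ≤ j → X w j = 0)
    (h1 : ∀ w j, (w, .inl j) ∈ K → X w j = 0)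
    (h2 : ∀ w w', (w, .inr w') ∈ K → X w 0 * X w' 0 + X w 1 * X w' 1 + X w 2 * X w' 2 = 0)
    (h3 : ∀ w ∈ wEnds K, (X w 0 ≠ 0 ∨ X w 1 ≠ 0) ∧ (X w 0 ≠ 0 ∨ X w 2 ≠ 0) ∧
        (X w 1 ≠ 0 ∨ X w 2 ≠ 0))
    (h4 : ∀ w ∈ wEnds K, ∀ w' ∈ wEnds K, ∀ r : ℝ, 0 < r → X w 0 = r * X w' 0 →
      X w 1 = r * X w' 1 → X w 2 = r * X w' 2 → w = w') :
    Orth d (B2 d K) := by
  set nrm : W → ℝ := fun w => ‖vec d (X w)‖ with hnrm
  have hnrm2 : ∀ w, nrm w ^ 2 = X w 0 * X w 0 + X w 1 * X w 1 + X w 2 * X w 2 := by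
    intro w
    rw [hnrm, ← inner_vec3 hd _ _ (hX3 w), real_inner_self_eq_norm_sq]
  have hnpos : ∀ w ∈ wEnds K, 0 < nrm w := by
    intro w hw
    refine lt_of_le_of_ne (norm_nonneg _) (fun h => ?_)
    have h5 := hnrm2 w
    rw [← h] at h5
    have b0 := mul_self_nonneg (X w 0)
    have b1 := mul_self_nonneg (X w 1)
    have b2 := mul_self_nonneg (X w 2)
    have a0 : X w 0 = 0 := mul_self_eq_zero.mp (by linarith)
    have a1 : X w 1 = 0 := mul_self_eq_zero.mp (by linarith)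
    rcases (h3 w hw).1 with h6 | h6
    · exact h6 a0
    · exact h6 a1
  set v : V2 W → Eu d := fun x => match x with
    | .inl (.inl j) => vec d (fun i => if i = j then 1 else 0)
    | .inl (.inr j) => vec d (fun i => if i = j then -1 else 0)
    | .inr w => (nrm w)⁻¹ • vec d (X w) with hv
  have hvb : ∀ i j, i < d → ⟪v (.inl (.inl i)), v (.inl (.inl j))⟫ = if i = j then 1 else 0 := by
    intro i j hi
    simp only [hv]
    rw [inner_vec, Finset.sum_eq_single i]
    · simp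
    · intro k _ hk
      simp [hk]
    · intro h; exact absurd (Finset.mem_range.mpr hi) h
  have hvn : ∀ i j, i < d → ⟪v (.inl (.inr i)), v (.inl (.inl j))⟫ = if i = j then -1 else 0 := by
    intro i j hi
    simp only [hv]
    rw [inner_vec, Finset.sum_eq_single i]
    · simp
    · intro k _ hk
      simp [hk]
    · intro h; exact absurd (Finset.mem_range.mpr hi) h
  have hnb : ∀ i, i < d → ‖v (.inl (.inl i))‖ = 1 := by
    intro i hi
    have h5 : ‖v (.inl (.inl i))‖ ^ 2 = 1 := by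
      rw [← real_inner_self_eq_norm_sq, hvb i i hi, if_pos rfl]
    have := norm_nonneg (v (.inl (.inl i)))
    nlinarith
  have hnn : ∀ i, i < d → ‖v (.inl (.inr i))‖ = 1 := by
    intro i hi
    have h5 : ‖v (.inl (.inr i))‖ ^ 2 = 1 := by
      rw [← real_inner_self_eq_norm_sq]
      simp only [hv]
      rw [inner_vec, Finset.sum_eq_single i]
      · simp
      · intro k _ hk
        simp [hk]
      · intro h; exact absurd (Finset.mem_range.mpr hi) h
    have := norm_nonneg (v (.inl (.inr i)))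
    nlinarith
  have hnw : ∀ w ∈ wEnds K, ‖v (.inr w)‖ = 1 := by
    intro w hw
    simp only [hv]
    rw [norm_smul, Real.norm_eq_abs, abs_of_pos (inv_pos.mpr (hnpos w hw))]
    exact inv_mul_cancel₀ (hnpos w hw).ne'
  have hwj : ∀ w j, ⟪v (.inr w), v (.inl (.inl j))⟫ = if j < d then (nrm w)⁻¹ * X w j else 0 := by
    intro w j
    simp only [hv]
    rw [real_inner_smul_left, inner_vec]
    by_cases hj : j < d
    · rw [Finset.sum_eq_single j]
      · simp [hj]
      · intro k _ hk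
        simp [hk]
      · intro h; exact absurd (Finset.mem_range.mpr hj) h
    · rw [Finset.sum_eq_zero]
      · simp [hj]
      · intro k hk
        have : k ≠ j := by
          have := Finset.mem_range.mp hk
          omega
        simp [this]
  have hends : ∀ x ∈ ends (B2 d K), (∃ i, i < d ∧ x = .inl (.inl i)) ∨
      (∃ i, i < 3 ∧ x = .inl (.inr i)) ∨ ∃ w ∈ wEnds K, x = .inr w := by
    rintro x ⟨p, hp, hx⟩
    rcases mem_B2 hp with ⟨i, j, hi, hj, hij, rfl⟩ | ⟨i, j, hi, hj, hij, rfl⟩ | ⟨e, he, rfl⟩ |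
      ⟨e, he, j, hj, hjd, rfl⟩
    · rcases hx with rfl | rfl
      · exact Or.inl ⟨i, hi, rfl⟩
      · exact Or.inl ⟨j, hj, rfl⟩
    · rcases hx with rfl | rfl
      · exact Or.inr (Or.inl ⟨i, hi, rfl⟩)
      · exact Or.inl ⟨j, hj, rfl⟩
    · rcases hx with rfl | rfl
      · exact Or.inr (Or.inr ⟨e.1, ⟨e, he, Or.inl rfl⟩, rfl⟩)
      · rcases e with ⟨w, j | w'⟩
        · have := hK _ he j rfl
          exact Or.inl ⟨j, by omega, rfl⟩
        · exact Or.inr (Or.inr ⟨w', ⟨_, he, Or.inr rfl⟩, rfl⟩)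
    · rcases hx with rfl | rfl
      · exact Or.inr (Or.inr ⟨e.1, ⟨e, he, Or.inl rfl⟩, rfl⟩)
      · exact Or.inl ⟨j, hjd, rfl⟩
  -- a `W`-vector is not on an axis
  have haxis : ∀ w ∈ wEnds K, ∀ i, i < d → ∃ j, j < d ∧ j ≠ i ∧
      ⟪v (.inr w), v (.inl (.inl j))⟫ ≠ 0 := by
    intro w hw i hi
    obtain ⟨a1, a2, a3⟩ := h3 w hw
    have hn := (inv_pos.mpr (hnpos w hw)).ne'
    have fin : ∀ j, j < d → j ≠ i → X w j ≠ 0 → ∃ j, j < d ∧ j ≠ i ∧
        ⟪v (.inr w), v (.inl (.inl j))⟫ ≠ 0 := by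
      intro j hj hji hX
      refine ⟨j, hj, hji, ?_⟩
      rw [hwj, if_pos hj]
      exact mul_ne_zero hn hX
    by_cases hi0 : i = 0
    · rcases a3 with h | h
      · exact fin 1 (by omega) (by omega) h
      · exact fin 2 (by omega) (by omega) h
    · by_cases hi1 : i = 1
      · rcases a2 with h | h
        · exact fin 0 (by omega) (by omega) h
        · exact fin 2 (by omega) (by omega) h
      · rcases a1 with h | h
        · exact fin 0 (by omega) (by omega) h
        · exact fin 1 (by omega) (by omega) h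
  refine ⟨v, ?_, ?_⟩
  · intro p hp
    rcases mem_B2 hp with ⟨i, j, hi, hj, hij, rfl⟩ | ⟨i, j, hi, hj, hij, rfl⟩ | ⟨e, he, rfl⟩ |
      ⟨e, he, j, hj, hjd, rfl⟩
    · refine ⟨hnb i hi, hnb j hj, ?_⟩
      simp only
      rw [hvb i j hi, if_neg hij]
    · refine ⟨hnn i (by omega), hnb j hj, ?_⟩
      simp only
      rw [hvn i j (by omega), if_neg hij]
    · rcases e with ⟨w, j | w'⟩
      · have hj := hK _ he j rfl
        refine ⟨hnw w ⟨_, he, Or.inl rfl⟩, hnb j (by omega), ?_⟩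
        simp only [emb2]
        rw [hwj, h1 w j he]
        simp
      · refine ⟨hnw w ⟨_, he, Or.inl rfl⟩, hnw w' ⟨_, he, Or.inr rfl⟩, ?_⟩
        simp only [emb2, hv]
        rw [real_inner_smul_left, real_inner_smul_right, inner_vec3 hd _ _ (hX3 w), h2 w w' he]
        simp
    · refine ⟨hnw e.1 ⟨_, he, Or.inl rfl⟩, hnb j hjd, ?_⟩
      simp only
      rw [hwj, hX3 _ _ hj]
      simp
  · intro x hx y hy hxy
    rcases hends x hx with ⟨i, hi, rfl⟩ | ⟨i, hi, rfl⟩ | ⟨w, hw, rfl⟩ <;>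
      rcases hends y hy with ⟨j, hj, rfl⟩ | ⟨j, hj, rfl⟩ | ⟨w', hw', rfl⟩
    · have := hvb i j hi
      rw [← hxy, hvb i i hi] at this
      by_contra hcon
      have hij : i ≠ j := fun h => hcon (by rw [h])
      rw [if_pos rfl, if_neg hij] at this
      norm_num at this
    · exfalso
      have h5 := hvn j i (by omega)
      rw [← hxy, hvb i i hi, if_pos rfl] at h5
      split_ifs at h5 <;> norm_num at h5
    · exfalso
      obtain ⟨j, hj, hji, hne⟩ := haxis w' hw' i hi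
      apply hne
      rw [← hxy, hvb i j hi, if_neg hji.symm]
    · exfalso
      have h5 := hvn i j (by omega)
      rw [hxy, hvb j j hj, if_pos rfl] at h5
      split_ifs at h5 <;> norm_num at h5
    · have := hvn i j (by omega)
      rw [hxy, hvn j j (by omega)] at this
      by_contra hcon
      have hij : i ≠ j := fun h => hcon (by rw [h])
      rw [if_pos rfl, if_neg hij] at this
      norm_num at this
    · exfalso
      obtain ⟨j, hj, hji, hne⟩ := haxis w' hw' i (by omega)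
      apply hne
      rw [← hxy, hvn i j (by omega), if_neg hji.symm]
    · exfalso
      obtain ⟨k, hk, hkj, hne⟩ := haxis w hw j hj
      apply hne
      rw [hxy, hvb j k hj, if_neg hkj.symm]
    · exfalso
      obtain ⟨k, hk, hkj, hne⟩ := haxis w hw j (by omega)
      apply hne
      rw [hxy, hvn j k (by omega), if_neg hkj.symm]
    · have hp := hnpos w hw
      have hp' := hnpos w' hw'
      have key : ∀ j, j < d → X w j = (nrm w * (nrm w')⁻¹) * X w' j := by
        intro j hj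
        simp only [hv, smul_vec] at hxy
        have h5 := vec_inj hxy hj
        have h6 : X w j = nrm w * ((nrm w)⁻¹ * X w j) := by
          rw [← mul_assoc, mul_inv_cancel₀ hp.ne', one_mul]
        rw [h6, h5]; ring
      rw [h4 w hw w' hw' _ (mul_pos hp (inv_pos.mpr hp')) (key 0 (by omega)) (key 1 (by omega))
        (key 2 (by omega))]

end Pool.Agent.Lib.MP_0f8b55_lc
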