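import Pool.Agent.Lib.MP_0f8b55_lc.Layer2a

/-!
# From gates to planar-projective configurations
-/

namespace Pool.Agent.Lib.MP_0f8b55_lc

/-- Gates: `inl (s, m, w)` is `w = m + s`; `inr (inl (s, t, m, w))` is `w = m + s * t`;
`inr (inr (s, m))` is `m + s = c`. -/
abbrev Gate (α : Type) : Type := (α × α × α) ⊕ ((α × α × α × α) ⊕ (α × α))

/-- A gate holds, with constant `c`. -/
def Gate.holds {α : Type} (c : ℝ) (x : α → ℝ) : Gate α → Prop
  | .inl (s, m, w) => x w = x m + x s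
  | .inr (.inl (s, t, m, w)) => x w = x m + x s * x t
  | .inr (.inr (s, m)) => x m + x s = c

/-- The numbers in a gate. -/
def Gate.nums {α : Type} : Gate α → List α
  | .inl (s, m, w) => [s, m, w]
  | .inr (.inl (s, t, m, w)) => [s, t, m, w]
  | .inr (.inr (s, m)) => [s, m]

/-- The key of the `v`-vector. -/
def Gate.vkey {α : Type} : Gate α → α × Option α
  | .inl (s, _, w) => (s, some w)
  | .inr (.inl (s, _, _, w)) => (s, some w)
  | .inr (.inr (s, _)) => (s, none)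

/-- The projective vertices. -/
abbrev PW (α : Type) : Type := ℕ ⊕ ((ℕ × α) ⊕ (ℕ × ℕ))

/-- The constraints of the bundle of a number. -/
def bundle {α : Type} (a : α) : List (PW α × (ℕ ⊕ PW α)) :=
  [(.inr (.inl (0, a)), .inl 2),
   (.inr (.inl (1, a)), .inr (.inr (.inl (0, a)))),
   (.inr (.inl (1, a)), .inr (.inl 0)),
   (.inr (.inl (2, a)), .inl 1),
   (.inr (.inl (2, a)), .inr (.inr (.inl (1, a)))),
   (.inr (.inl (3, a)), .inl 1),
   (.inr (.inl (3, a)), .inr (.inr (.inl (2, a)))),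
   (.inr (.inl (4, a)), .inr (.inr (.inl (0, a)))),
   (.inr (.inl (4, a)), .inr (.inl 2)),
   (.inr (.inl (5, a)), .inl 0),
   (.inr (.inl (5, a)), .inr (.inr (.inl (4, a)))),
   (.inr (.inl (6, a)), .inr (.inr (.inl (3, a)))),
   (.inr (.inl (6, a)), .inr (.inl 1))]

/-- The constraints of the common frame. -/
def coreFrame {α : Type} : List (PW α × (ℕ ⊕ PW α)) :=
  [(.inl 0, .inl 0), (.inl 1, .inl 0), (.inl 1, .inr (.inl 0)),
   (.inl 2, .inl 1), (.inl 3, .inl 1), (.inl 3, .inr (.inl 2))]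

/-- The constraints of a gate proper. -/
def gateCore {α : Type} : Gate α × ℕ → List (PW α × (ℕ ⊕ PW α))
  | (.inl (s, m, w), i) =>
      [(.inr (.inr (0, i)), .inr (.inr (.inl (0, s)))),
       (.inr (.inr (0, i)), .inr (.inr (.inl (2, w)))),
       (.inr (.inr (0, i)), .inr (.inr (.inl (6, m))))]
  | (.inr (.inl (s, t, m, w)), i) =>
      [(.inr (.inr (1, i)), .inr (.inr (.inl (3, m)))),
       (.inr (.inr (1, i)), .inr (.inr (.inl (5, t)))),
       (.inr (.inr (0, i)), .inr (.inr (.inl (0, s)))),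
       (.inr (.inr (0, i)), .inr (.inr (.inl (2, w)))),
       (.inr (.inr (0, i)), .inr (.inr (.inr (1, i))))]
  | (.inr (.inr (s, m)), i) =>
      [(.inr (.inr (0, i)), .inr (.inr (.inl (0, s)))),
       (.inr (.inr (0, i)), .inr (.inl 3)),
       (.inr (.inr (0, i)), .inr (.inr (.inl (6, m))))]

/-- All constraints of a list of gates. -/
def gateK {α : Type} (G : List (Gate α)) : List (PW α × (ℕ ⊕ PW α)) :=
  coreFrame ++ G.zipIdx.flatMap (fun g => g.1.nums.flatMap bundle ++ gateCore g)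

theorem mem_gateK {α : Type} {G : List (Gate α)} {e : PW α × (ℕ ⊕ PW α)} :
    e ∈ gateK G ↔ e ∈ (coreFrame : List (PW α × (ℕ ⊕ PW α))) ∨
      (∃ g ∈ G, ∃ a ∈ g.nums, e ∈ bundle a) ∨ ∃ g i, G[i]? = some g ∧ e ∈ gateCore (g, i) := by
  simp only [gateK, List.mem_append, List.mem_flatMap]
  constructor
  · rintro (h | ⟨⟨g, i⟩, hg, ⟨a, ha, he⟩ | he⟩)
    · exact Or.inl h
    · exact Or.inr (Or.inl ⟨g, List.fst_mem_of_mem_zipIdx hg, a, ha, he⟩)
    · exact Or.inr (Or.inr ⟨g, i, List.mk_mem_zipIdx_iff_getElem?.mp hg, he⟩)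
  · rintro (h | ⟨g, hg, a, ha, he⟩ | ⟨g, i, hg, he⟩)
    · exact Or.inl h
    · obtain ⟨i, hi⟩ := exists_zipIdx hg
      exact Or.inr ⟨(g, i), hi, Or.inl ⟨a, ha, he⟩⟩
    · exact Or.inr ⟨(g, i), List.mk_mem_zipIdx_iff_getElem?.mpr hg, Or.inr he⟩

theorem gateK_lt {α : Type} {G : List (Gate α)} :
    ∀ e ∈ gateK G, ∀ j, e.2 = .inl j → j < 3 := by
  intro e he j hj
  rcases mem_gateK.mp he with h | ⟨g, _, a, _, h⟩ | ⟨g, i, _, h⟩
  · simp only [coreFrame, List.mem_cons, List.not_mem_nil, or_false] at h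
    rcases h with rfl | rfl | rfl | rfl | rfl | rfl <;> simp_all <;> omega
  · simp only [bundle, List.mem_cons, List.not_mem_nil, or_false] at h
    rcases h with rfl | rfl | rfl | rfl | rfl | rfl | rfl | rfl | rfl | rfl | rfl | rfl | rfl <;>
      simp_all <;> omega
  · rcases g with ⟨s, m, w⟩ | ⟨s, t, m, w⟩ | ⟨s, m⟩
    · simp only [gateCore, List.mem_cons, List.not_mem_nil, or_false] at h
      rcases h with rfl | rfl | rfl <;> simp_all
    · simp only [gateCore, List.mem_cons, List.not_mem_nil, or_false] at h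
      rcases h with rfl | rfl | rfl | rfl | rfl <;> simp_all
    · simp only [gateCore, List.mem_cons, List.not_mem_nil, or_false] at h
      rcases h with rfl | rfl | rfl <;> simp_all

theorem gateK_ne {α : Type} {G : List (Gate α)} :
    ∀ e ∈ gateK G, .inr e.1 ≠ e.2 := by
  intro e he
  rcases mem_gateK.mp he with h | ⟨g, _, a, _, h⟩ | ⟨g, i, _, h⟩
  · simp only [coreFrame, List.mem_cons, List.not_mem_nil, or_false] at h
    rcases h with rfl | rfl | rfl | rfl | rfl | rfl <;> simp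
  · simp only [bundle, List.mem_cons, List.not_mem_nil, or_false] at h
    rcases h with rfl | rfl | rfl | rfl | rfl | rfl | rfl | rfl | rfl | rfl | rfl | rfl | rfl <;>
      simp
  · rcases g with ⟨s, m, w⟩ | ⟨s, t, m, w⟩ | ⟨s, m⟩
    · simp only [gateCore, List.mem_cons, List.not_mem_nil, or_false] at h
      rcases h with rfl | rfl | rfl <;> simp
    · simp only [gateCore, List.mem_cons, List.not_mem_nil, or_false] at h
      rcases h with rfl | rfl | rfl | rfl | rfl <;> simp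
    · simp only [gateCore, List.mem_cons, List.not_mem_nil, or_false] at h
      rcases h with rfl | rfl | rfl <;> simp

/-- Soundness of the gates. -/
theorem layer2b_sound {α : Type} {G : List (Gate α)} {X : PW α → ℕ → ℝ}
    (h1 : ∀ w j, (w, .inl j) ∈ gateK G → X w j = 0)
    (h2 : ∀ w w', (w, .inr w') ∈ gateK G → X w 0 * X w' 0 + X w 1 * X w' 1 + X w 2 * X w' 2 = 0)
    (h3 : ∀ e ∈ gateK G, (X e.1 0 ≠ 0 ∨ X e.1 1 ≠ 0) ∧ (X e.1 0 ≠ 0 ∨ X e.1 2 ≠ 0) ∧
        (X e.1 1 ≠ 0 ∨ X e.1 2 ≠ 0)) :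
    ∃ (x : α → ℝ) (c : ℝ), c ≠ 0 ∧ ∀ g ∈ G, g.holds c x := by
  have fr : ∀ e ∈ (coreFrame : List (PW α × (ℕ ⊕ PW α))), e ∈ gateK G :=
    fun e he => mem_gateK.mpr (Or.inl he)
  have bu : ∀ g ∈ G, ∀ a ∈ g.nums, ∀ e ∈ bundle a, e ∈ gateK G :=
    fun g hg a ha e he => mem_gateK.mpr (Or.inr (Or.inl ⟨g, hg, a, ha, he⟩))
  have gc : ∀ (g : Gate α) (i : ℕ), G[i]? = some g → ∀ e ∈ gateCore (g, i), e ∈ gateK G :=
    fun g i hg e he => mem_gateK.mpr (Or.inr (Or.inr ⟨g, i, hg, he⟩))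
  -- the frame
  obtain ⟨κ, φ, hκ, hφ, D2, hD2, D1', hD1', F0, hF0, F2', hF2', eD0, eD1, eD2, eD0', eD1', eD2',
    eF0, eF1, eF2, eF0', eF1', eF2'⟩ : ∃ κ φ : ℝ, κ ≠ 0 ∧ φ ≠ 0 ∧ ∃ D2 : ℝ, D2 ≠ 0 ∧
      ∃ D1' : ℝ, D1' ≠ 0 ∧ ∃ F0 : ℝ, F0 ≠ 0 ∧ ∃ F2' : ℝ, F2' ≠ 0 ∧
      X (.inl 0) 0 = 0 ∧ X (.inl 0) 1 = -κ * D2 ∧ X (.inl 0) 2 = D2 ∧
      X (.inl 1) 0 = 0 ∧ X (.inl 1) 1 = D1' ∧ X (.inl 1) 2 = κ * D1' ∧
      X (.inl 2) 0 = F0 ∧ X (.inl 2) 1 = 0 ∧ X (.inl 2) 2 = φ * F0 ∧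
      X (.inl 3) 0 = -φ * F2' ∧ X (.inl 3) 1 = 0 ∧ X (.inl 3) 2 = F2' := by
    have a1 := h1 _ _ (fr (.inl 0, .inl 0) (by simp [coreFrame]))
    have a2 := h1 _ _ (fr (.inl 1, .inl 0) (by simp [coreFrame]))
    have a3 := h2 _ _ (fr (.inl 1, .inr (.inl 0)) (by simp [coreFrame]))
    have a4 := h1 _ _ (fr (.inl 2, .inl 1) (by simp [coreFrame]))
    have a5 := h1 _ _ (fr (.inl 3, .inl 1) (by simp [coreFrame]))
    have a6 := h2 _ _ (fr (.inl 3, .inr (.inl 2)) (by simp [coreFrame]))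
    obtain ⟨b1, b2, b3⟩ := h3 _ (fr (.inl 0, .inl 0) (by simp [coreFrame]))
    obtain ⟨c1, c2, c3⟩ := h3 _ (fr (.inl 1, .inl 0) (by simp [coreFrame]))
    obtain ⟨e1, e2, e3⟩ := h3 _ (fr (.inl 2, .inl 1) (by simp [coreFrame]))
    obtain ⟨f1, f2, f3⟩ := h3 _ (fr (.inl 3, .inl 1) (by simp [coreFrame]))
    simp only [a1, a2, a4, a5, ne_eq, not_true_eq_false, false_or, or_false] at *
    have k1 : X (.inl 1) 2 * X (.inl 0) 2 = -(X (.inl 1) 1 * X (.inl 0) 1) := by linarith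
    have k2 : X (.inl 3) 0 * X (.inl 2) 0 = -(X (.inl 3) 2 * X (.inl 2) 2) := by linarith
    refine ⟨-(X (.inl 0) 1) / X (.inl 0) 2, X (.inl 2) 2 / X (.inl 2) 0,
      div_ne_zero (neg_ne_zero.mpr b1) b2, div_ne_zero e3 e1, X (.inl 0) 2, b2,
      X (.inl 1) 1, c1, X (.inl 2) 0, e1, X (.inl 3) 2, f3, trivial, ?_, rfl, trivial, rfl, ?_, rfl,
      trivial, ?_, ?_, trivial, rfl⟩
    · field_simp
    · field_simp
      linarith
    · field_simp
    · field_simp
      linarith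
  -- bundles
  have hb : ∀ g ∈ G, ∀ a ∈ g.nums, ∃ t : ℝ, t = -(X (.inr (.inl (0, a))) 0) / X (.inr (.inl (0, a))) 1 ∧
      (∃ A1, A1 ≠ 0 ∧ X (.inr (.inl (0, a))) 0 = -t * A1 ∧ X (.inr (.inl (0, a))) 1 = A1 ∧
        X (.inr (.inl (0, a))) 2 = 0) ∧
      (∃ C2, C2 ≠ 0 ∧ X (.inr (.inl (2, a))) 0 = -κ * t * C2 ∧ X (.inr (.inl (2, a))) 1 = 0 ∧
        X (.inr (.inl (2, a))) 2 = C2) ∧
      (∃ c0, c0 ≠ 0 ∧ X (.inr (.inl (3, a))) 0 = c0 ∧ X (.inr (.inl (3, a))) 1 = 0 ∧
        X (.inr (.inl (3, a))) 2 = κ * t * c0) ∧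
      (∃ b1, b1 ≠ 0 ∧ X (.inr (.inl (5, a))) 0 = 0 ∧ X (.inr (.inl (5, a))) 1 = b1 ∧
        X (.inr (.inl (5, a))) 2 = φ * t * b1) ∧
      (∃ n2, n2 ≠ 0 ∧ X (.inr (.inl (6, a))) 0 = -κ * t * n2 ∧ X (.inr (.inl (6, a))) 1 = -κ * n2 ∧
        X (.inr (.inl (6, a))) 2 = n2) := by
    intro g hg a ha
    have q1 := h1 _ _ (bu g hg a ha (.inr (.inl (0, a)), .inl 2) (by simp [bundle]))
    have q2 := h2 _ _ (bu g hg a ha (.inr (.inl (1, a)), .inr (.inr (.inl (0, a)))) (by simp [bundle]))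
    have q3 := h2 _ _ (bu g hg a ha (.inr (.inl (1, a)), .inr (.inl 0)) (by simp [bundle]))
    have q4 := h1 _ _ (bu g hg a ha (.inr (.inl (2, a)), .inl 1) (by simp [bundle]))
    have q5 := h2 _ _ (bu g hg a ha (.inr (.inl (2, a)), .inr (.inr (.inl (1, a)))) (by simp [bundle]))
    have q6 := h1 _ _ (bu g hg a ha (.inr (.inl (3, a)), .inl 1) (by simp [bundle]))
    have q7 := h2 _ _ (bu g hg a ha (.inr (.inl (3, a)), .inr (.inr (.inl (2, a)))) (by simp [bundle]))
    have q8 := h2 _ _ (bu g hg a ha (.inr (.inl (4, a)), .inr (.inr (.inl (0, a)))) (by simp [bundle]))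
    have q9 := h2 _ _ (bu g hg a ha (.inr (.inl (4, a)), .inr (.inl 2)) (by simp [bundle]))
    have q10 := h1 _ _ (bu g hg a ha (.inr (.inl (5, a)), .inl 0) (by simp [bundle]))
    have q11 := h2 _ _ (bu g hg a ha (.inr (.inl (5, a)), .inr (.inr (.inl (4, a)))) (by simp [bundle]))
    have q12 := h2 _ _ (bu g hg a ha (.inr (.inl (6, a)), .inr (.inr (.inl (3, a)))) (by simp [bundle]))
    have q13 := h2 _ _ (bu g hg a ha (.inr (.inl (6, a)), .inr (.inl 1)) (by simp [bundle]))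
    have n0 := h3 _ (bu g hg a ha (.inr (.inl (0, a)), .inl 2) (by simp [bundle]))
    have n1 := h3 _ (bu g hg a ha (.inr (.inl (1, a)), .inr (.inl 0)) (by simp [bundle]))
    have n2 := h3 _ (bu g hg a ha (.inr (.inl (2, a)), .inl 1) (by simp [bundle]))
    have n3 := h3 _ (bu g hg a ha (.inr (.inl (3, a)), .inl 1) (by simp [bundle]))
    have n4 := h3 _ (bu g hg a ha (.inr (.inl (4, a)), .inr (.inl 2)) (by simp [bundle]))
    have n5 := h3 _ (bu g hg a ha (.inr (.inl (5, a)), .inl 0) (by simp [bundle]))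
    have n6 := h3 _ (bu g hg a ha (.inr (.inl (6, a)), .inr (.inl 1)) (by simp [bundle]))
    simp only at n0 n1 n2 n3 n4 n5 n6
    generalize X (.inr (.inl (0, a))) = A at *
    generalize X (.inr (.inl (1, a))) = U at *
    generalize X (.inr (.inl (2, a))) = C at *
    generalize X (.inr (.inl (3, a))) = E at *
    generalize X (.inr (.inl (4, a))) = H at *
    generalize X (.inr (.inl (5, a))) = B at *
    generalize X (.inr (.inl (6, a))) = N at *
    rw [eD0, eD1, eD2] at q3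
    rw [eF0, eF1, eF2] at q9
    rw [eD0', eD1', eD2'] at q13
    have hA1 : A 1 ≠ 0 := by
      rcases n0.2.2 with h | h
      · exact h
      · exact absurd q1 h
    obtain ⟨t, ht⟩ : ∃ t : ℝ, t = -(A 0) / A 1 := ⟨_, rfl⟩
    have hA0 : A 0 = -t * A 1 := by rw [ht]; field_simp
    -- u
    have u1 : U 1 = t * U 0 := by
      rw [hA0, q1] at q2
      have : A 1 * (U 1 - t * U 0) = 0 := by linarith
      rcases mul_eq_zero.mp this with h | h
      · exact absurd h hA1
      · linarith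
    have u2 : U 2 = κ * t * U 0 := by
      have : D2 * (U 2 - κ * U 1) = 0 := by linarith
      rcases mul_eq_zero.mp this with h | h
      · exact absurd h hD2
      · rw [u1] at h; linarith
    have u0 : U 0 ≠ 0 := by
      intro h
      rw [h] at u1 u2
      rcases n1.1 with h' | h'
      · exact h' h
      · exact h' (by rw [u1]; ring)
    -- C
    have c0 : C 0 = -κ * t * C 2 := by
      rw [q4, u1, u2] at q5
      have : U 0 * (C 0 + κ * t * C 2) = 0 := by linarith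
      rcases mul_eq_zero.mp this with h | h
      · exact absurd h u0
      · linarith
    have c2 : C 2 ≠ 0 := by
      intro h
      rcases n2.2.2 with h' | h'
      · exact h' q4
      · exact h' h
    -- E
    have e2 : E 2 = κ * t * E 0 := by
      rw [q4, c0] at q7
      have : C 2 * (E 2 - κ * t * E 0) = 0 := by linarith
      rcases mul_eq_zero.mp this with h | h
      · exact absurd h c2
      · linarith
    have e0 : E 0 ≠ 0 := by
      intro h
      rcases n3.1 with h' | h'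
      · exact h' h
      · exact h' q6
    -- H
    have hh1 : H 1 = t * H 0 := by
      rw [hA0, q1] at q8
      have : A 1 * (H 1 - t * H 0) = 0 := by linarith
      rcases mul_eq_zero.mp this with h | h
      · exact absurd h hA1
      · linarith
    have hh0 : H 0 = -φ * H 2 := by
      have : F0 * (H 0 + φ * H 2) = 0 := by linarith
      rcases mul_eq_zero.mp this with h | h
      · exact absurd h hF0
      · linarith
    have hh2 : H 2 ≠ 0 := by
      intro h
      rw [h] at hh0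
      have h0 : H 0 = 0 := by rw [hh0]; ring
      rcases n4.2.1 with h' | h'
      · exact h' h0
      · exact h' h
    -- B
    have b2 : B 2 = φ * t * B 1 := by
      rw [q10, hh1, hh0] at q11
      have : H 2 * (B 2 - φ * t * B 1) = 0 := by linarith
      rcases mul_eq_zero.mp this with h | h
      · exact absurd h hh2
      · linarith
    have b1 : B 1 ≠ 0 := by
      intro h
      rcases n5.1 with h' | h'
      · exact h' q10
      · exact h' h
    -- N
    have nn0 : N 0 = -κ * t * N 2 := by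
      rw [q6, e2] at q12
      have : E 0 * (N 0 + κ * t * N 2) = 0 := by linarith
      rcases mul_eq_zero.mp this with h | h
      · exact absurd h e0
      · linarith
    have nn1 : N 1 = -κ * N 2 := by
      have : D1' * (N 1 + κ * N 2) = 0 := by linarith
      rcases mul_eq_zero.mp this with h | h
      · exact absurd h hD1'
      · linarith
    have nn2 : N 2 ≠ 0 := by
      intro h
      rw [h] at nn0 nn1
      rcases n6.1 with h' | h'
      · exact h' (by rw [nn0]; ring)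
      · exact h' (by rw [nn1]; ring)
    exact ⟨t, ht, ⟨A 1, hA1, hA0, rfl, q1⟩, ⟨C 2, c2, c0, q4, rfl⟩, ⟨E 0, e0, rfl, q6, e2⟩,
      ⟨B 1, b1, q10, rfl, b2⟩, ⟨N 2, nn2, nn0, nn1, rfl⟩⟩
  -- the values
  set T : α → ℝ := fun a => -(X (.inr (.inl (0, a))) 0) / X (.inr (.inl (0, a))) 1 with hT
  have hb' : ∀ g ∈ G, ∀ a ∈ g.nums,
      (∃ A1, A1 ≠ 0 ∧ X (.inr (.inl (0, a))) 0 = -T a * A1 ∧ X (.inr (.inl (0, a))) 1 = A1 ∧
        X (.inr (.inl (0, a))) 2 = 0) ∧
      (∃ C2, C2 ≠ 0 ∧ X (.inr (.inl (2, a))) 0 = -κ * T a * C2 ∧ X (.inr (.inl (2, a))) 1 = 0 ∧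
        X (.inr (.inl (2, a))) 2 = C2) ∧
      (∃ c0, c0 ≠ 0 ∧ X (.inr (.inl (3, a))) 0 = c0 ∧ X (.inr (.inl (3, a))) 1 = 0 ∧
        X (.inr (.inl (3, a))) 2 = κ * T a * c0) ∧
      (∃ b1, b1 ≠ 0 ∧ X (.inr (.inl (5, a))) 0 = 0 ∧ X (.inr (.inl (5, a))) 1 = b1 ∧
        X (.inr (.inl (5, a))) 2 = φ * T a * b1) ∧
      (∃ n2, n2 ≠ 0 ∧ X (.inr (.inl (6, a))) 0 = -κ * T a * n2 ∧
        X (.inr (.inl (6, a))) 1 = -κ * n2 ∧ X (.inr (.inl (6, a))) 2 = n2) := by
    intro g hg a ha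
    obtain ⟨t, ht, hrest⟩ := hb g hg a ha
    have : T a = t := by rw [ht]
    rw [this]
    exact hrest
  -- the `v`-vectors
  have hvv : ∀ (g : Gate α) (i : ℕ) (s w : α) (V : ℕ → ℝ), G[i]? = some g → s ∈ g.nums → w ∈ g.nums →
      (V 0 ≠ 0 ∨ V 1 ≠ 0) →
      V 0 * X (.inr (.inl (0, s))) 0 + V 1 * X (.inr (.inl (0, s))) 1
        + V 2 * X (.inr (.inl (0, s))) 2 = 0 →
      V 0 * X (.inr (.inl (2, w))) 0 + V 1 * X (.inr (.inl (2, w))) 1
        + V 2 * X (.inr (.inl (2, w))) 2 = 0 →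
      V 0 ≠ 0 ∧ V 1 = T s * V 0 ∧ V 2 = κ * T w * V 0 := by
    intro g i s w V hg hs hw hn p1 p2
    have hgG : g ∈ G := List.mem_of_getElem? hg
    obtain ⟨⟨A1, hA1, a0, a1, a2⟩, -⟩ := hb' g hgG s hs
    obtain ⟨-, ⟨C2, hC2, c0, c1, c2⟩, -⟩ := hb' g hgG w hw
    rw [a0, a1, a2] at p1
    rw [c0, c1, c2] at p2
    have v1 : V 1 = T s * V 0 := by
      have : A1 * (V 1 - T s * V 0) = 0 := by linarith
      rcases mul_eq_zero.mp this with h | h
      · exact absurd h hA1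
      · linarith
    have v2 : V 2 = κ * T w * V 0 := by
      have : C2 * (V 2 - κ * T w * V 0) = 0 := by linarith
      rcases mul_eq_zero.mp this with h | h
      · exact absurd h hC2
      · linarith
    refine ⟨fun h => ?_, v1, v2⟩
    rw [h] at v1
    rcases hn with h' | h'
    · exact h' h
    · exact h' (by rw [v1]; ring)
  refine ⟨fun a => φ / κ * T a, (φ / κ) ^ 2, pow_ne_zero _ (div_ne_zero hφ hκ), ?_⟩
  intro g hgG
  obtain ⟨i, hi, hgi⟩ := List.getElem_of_mem hgG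
  have hg : G[i]? = some g := by rw [List.getElem?_eq_getElem hi, hgi]
  rcases g with ⟨s, m, w⟩ | ⟨s, t, m, w⟩ | ⟨s, m⟩
  · have p1 := h2 _ _ (gc _ i hg (.inr (.inr (0, i)), .inr (.inr (.inl (0, s)))) (by simp [gateCore]))
    have p2 := h2 _ _ (gc _ i hg (.inr (.inr (0, i)), .inr (.inr (.inl (2, w)))) (by simp [gateCore]))
    have p3 := h2 _ _ (gc _ i hg (.inr (.inr (0, i)), .inr (.inr (.inl (6, m)))) (by simp [gateCore]))
    have hn := (h3 _ (gc _ i hg (.inr (.inr (0, i)), .inr (.inr (.inl (0, s))))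
      (by simp [gateCore]))).1
    obtain ⟨v0, v1, v2⟩ := hvv _ i s w _ hg (by simp [Gate.nums]) (by simp [Gate.nums]) hn p1 p2
    obtain ⟨-, -, -, -, ⟨n2, hn2, n0, n1, n2'⟩⟩ := hb' _ hgG m (by simp [Gate.nums])
    rw [n0, n1, n2', v1, v2] at p3
    have key : T w = T m + T s := by
      have : (X (.inr (.inr (0, i))) 0 * n2 * κ) * (T w - (T m + T s)) = 0 := by linarith
      rcases mul_eq_zero.mp this with h | h
      · exact absurd h (mul_ne_zero (mul_ne_zero v0 hn2) hκ)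
      · linarith
    simp only [Gate.holds, key]
    ring
  · have p1 := h2 _ _ (gc _ i hg (.inr (.inr (0, i)), .inr (.inr (.inl (0, s)))) (by simp [gateCore]))
    have p2 := h2 _ _ (gc _ i hg (.inr (.inr (0, i)), .inr (.inr (.inl (2, w)))) (by simp [gateCore]))
    have p3 := h2 _ _ (gc _ i hg (.inr (.inr (0, i)), .inr (.inr (.inr (1, i)))) (by simp [gateCore]))
    have p4 := h2 _ _ (gc _ i hg (.inr (.inr (1, i)), .inr (.inr (.inl (3, m)))) (by simp [gateCore]))
    have p5 := h2 _ _ (gc _ i hg (.inr (.inr (1, i)), .inr (.inr (.inl (5, t)))) (by simp [gateCore]))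
    have hn := (h3 _ (gc _ i hg (.inr (.inr (0, i)), .inr (.inr (.inl (0, s))))
      (by simp [gateCore]))).1
    have hnN := (h3 _ (gc _ i hg (.inr (.inr (1, i)), .inr (.inr (.inl (3, m))))
      (by simp [gateCore]))).2.1
    obtain ⟨v0, v1, v2⟩ := hvv _ i s w _ hg (by simp [Gate.nums]) (by simp [Gate.nums]) hn p1 p2
    obtain ⟨-, -, ⟨c0, hc0, cc0, cc1, cc2⟩, -, -⟩ := hb' _ hgG m (by simp [Gate.nums])
    obtain ⟨-, -, -, ⟨b1, hb1, bb0, bb1, bb2⟩, -⟩ := hb' _ hgG t (by simp [Gate.nums])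
    rw [cc0, cc1, cc2] at p4
    rw [bb0, bb1, bb2] at p5
    have N0 : X (.inr (.inr (1, i))) 0 = -κ * T m * X (.inr (.inr (1, i))) 2 := by
      have : c0 * (X (.inr (.inr (1, i))) 0 + κ * T m * X (.inr (.inr (1, i))) 2) = 0 := by
        linarith
      rcases mul_eq_zero.mp this with h | h
      · exact absurd h hc0
      · linarith
    have N1 : X (.inr (.inr (1, i))) 1 = -φ * T t * X (.inr (.inr (1, i))) 2 := by
      have : b1 * (X (.inr (.inr (1, i))) 1 + φ * T t * X (.inr (.inr (1, i))) 2) = 0 := by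
        linarith
      rcases mul_eq_zero.mp this with h | h
      · exact absurd h hb1
      · linarith
    have N2 : X (.inr (.inr (1, i))) 2 ≠ 0 := by
      intro h
      rcases hnN with h' | h'
      · exact h' (by rw [N0, h]; ring)
      · exact h' h
    rw [N0, N1, v1, v2] at p3
    have key : κ * T w = κ * T m + φ * T s * T t := by
      have : (X (.inr (.inr (0, i))) 0 * X (.inr (.inr (1, i))) 2) *
          (κ * T w - (κ * T m + φ * T s * T t)) = 0 := by linarith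
      rcases mul_eq_zero.mp this with h | h
      · exact absurd h (mul_ne_zero v0 N2)
      · linarith
    simp only [Gate.holds]
    have : φ / κ * T w = (φ / κ) / κ * (κ * T w) := by field_simp
    rw [this, key]
    field_simp
  · have p1 := h2 _ _ (gc _ i hg (.inr (.inr (0, i)), .inr (.inr (.inl (0, s)))) (by simp [gateCore]))
    have p2 := h2 _ _ (gc _ i hg (.inr (.inr (0, i)), .inr (.inl 3)) (by simp [gateCore]))
    have p3 := h2 _ _ (gc _ i hg (.inr (.inr (0, i)), .inr (.inr (.inl (6, m)))) (by simp [gateCore]))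
    have hn := (h3 _ (gc _ i hg (.inr (.inr (0, i)), .inr (.inr (.inl (0, s))))
      (by simp [gateCore]))).1
    obtain ⟨⟨A1, hA1, a0, a1, a2⟩, -⟩ := hb' _ hgG s (by simp [Gate.nums])
    obtain ⟨-, -, -, -, ⟨n2, hn2, n0, n1, n2'⟩⟩ := hb' _ hgG m (by simp [Gate.nums])
    rw [a0, a1, a2] at p1
    rw [eF0', eF1', eF2'] at p2
    have v1 : X (.inr (.inr (0, i))) 1 = T s * X (.inr (.inr (0, i))) 0 := by
      have : A1 * (X (.inr (.inr (0, i))) 1 - T s * X (.inr (.inr (0, i))) 0) = 0 := by linarith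
      rcases mul_eq_zero.mp this with h | h
      · exact absurd h hA1
      · linarith
    have v2 : X (.inr (.inr (0, i))) 2 = φ * X (.inr (.inr (0, i))) 0 := by
      have : F2' * (X (.inr (.inr (0, i))) 2 - φ * X (.inr (.inr (0, i))) 0) = 0 := by linarith
      rcases mul_eq_zero.mp this with h | h
      · exact absurd h hF2'
      · linarith
    have v0 : X (.inr (.inr (0, i))) 0 ≠ 0 := by
      intro h
      rcases hn with h' | h'
      · exact h' h
      · exact h' (by rw [v1, h]; ring)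
    rw [n0, n1, n2', v1, v2] at p3
    have key : κ * (T m + T s) = φ := by
      have : (X (.inr (.inr (0, i))) 0 * n2) * (φ - κ * (T m + T s)) = 0 := by linarith
      rcases mul_eq_zero.mp this with h | h
      · exact absurd h (mul_ne_zero v0 hn2)
      · linarith
    simp only [Gate.holds]
    have : φ / κ * T m + φ / κ * T s = φ / κ * (1 / κ) * (κ * (T m + T s)) := by field_simp
    rw [this, key]
    field_simp

end Pool.Agent.Lib.MP_0f8b55_lc
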