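import Pool.Agent.Lib.MP_0f8b55_lc.Layer2b

/-!
# Realising the gates
-/

namespace Pool.Agent.Lib.MP_0f8b55_lc

/-- The thirteen kinds of vectors. -/
def kindVec (k : ℕ) (p q : ℝ) : ℝ × ℝ × ℝ :=
  match k with
  | 0 => (0, -1, 1)
  | 1 => (0, 1, 1)
  | 2 => (1, 0, 1)
  | 3 => (-1, 0, 1)
  | 4 => (-p, 1, 0)
  | 5 => (1, p, p)
  | 6 => (-p, 0, 1)
  | 7 => (1, 0, p)
  | 8 => (1, p, -1)
  | 9 => (0, 1, p)
  | 10 => (-p, -1, 1)
  | 11 => (1, p, q)
  | _ => (-p, -q, 1)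

/-- Conditions -/
def kindOk (k : ℕ) (p q : ℝ) : Prop :=
  match k with
  | 0 => True | 1 => True | 2 => True | 3 => True
  | 4 => p ≠ 0 ∧ p ≠ 1 ∧ p ≠ -1
  | 5 => p ≠ 0 ∧ p ≠ 1 ∧ p ≠ -1
  | 6 => p ≠ 0 ∧ p ≠ 1 ∧ p ≠ -1
  | 7 => p ≠ 0 ∧ p ≠ 1 ∧ p ≠ -1
  | 8 => p ≠ 0 ∧ p ≠ 1 ∧ p ≠ -1
  | 9 => p ≠ 0 ∧ p ≠ 1 ∧ p ≠ -1
  | 10 => p ≠ 0 ∧ p ≠ 1 ∧ p ≠ -1
  | 11 => p ≠ 0 ∧ p ≠ 1 ∧ p ≠ -1 ∧ q ≠ 0 ∧ q ≠ -1 ∧ p ≠ q
  | _ => p ≠ 0 ∧ p ≠ 1 ∧ p ≠ -1 ∧ q ≠ 0 ∧ q ≠ 1 ∧ q ≠ -1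

set_option maxHeartbeats 4000000 in
theorem kind_inj (k k' : ℕ) (hk : k < 13) (hk' : k' < 13) (p q p' q' r : ℝ) (hr : 0 < r)
    (h : kindOk k p q) (h' : kindOk k' p' q') (hp : 4 ≤ k → 4 ≤ k' → p * p' ≠ -1)
    (hpq : 4 ≤ k → 11 ≤ k' → p * q' ≠ -1) (hqp : 11 ≤ k → 4 ≤ k' → q * p' ≠ -1)
    (e0 : (kindVec k p q).1 = r * (kindVec k' p' q').1)
    (e1 : (kindVec k p q).2.1 = r * (kindVec k' p' q').2.1)
    (e2 : (kindVec k p q).2.2 = r * (kindVec k' p' q').2.2) :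
    k = k' ∧ (4 ≤ k → p = p') ∧ (11 ≤ k → q = q') := by
  interval_cases k <;> interval_cases k' <;>
    simp only [kindVec, kindOk] at h h' e0 e1 e2 <;> norm_num at hp hpq hqp ⊢ <;> grind

/-- The vector with three given coordinates. -/
def tri (v : ℝ × ℝ × ℝ) : ℕ → ℝ := fun j =>
  if j = 0 then v.1 else if j = 1 then v.2.1 else if j = 2 then v.2.2 else 0

theorem tri_0 (v : ℝ × ℝ × ℝ) : tri v 0 = v.1 := rfl
theorem tri_1 (v : ℝ × ℝ × ℝ) : tri v 1 = v.2.1 := rfl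
theorem tri_2 (v : ℝ × ℝ × ℝ) : tri v 2 = v.2.2 := rfl

/-- The last coordinate of the `v`-vector. -/
noncomputable def Gate.qv {α : Type} (x : α → ℝ) (g : Gate α) : ℝ :=
  match g.vkey.2 with
  | none => 1
  | some w => x w

/-- The numbers on the `N`-vector. -/
def Gate.mt {α : Type} : Gate α → α × α
  | .inl (_, m, _) => (m, m)
  | .inr (.inl (_, t, m, _)) => (m, t)
  | .inr (.inr (_, m)) => (m, m)

/-- The kind and the parameters of a vertex. -/
noncomputable def kd {α : Type} (G : List (Gate α)) (x : α → ℝ) : PW α → ℕ × ℝ × ℝ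
  | .inl k => (k, 0, 0)
  | .inr (.inl (k, a)) => (4 + k, x a, 0)
  | .inr (.inr (k, i)) =>
    match G[i]? with
    | none => (0, 0, 0)
    | some g => if k = 0 then (11, x g.vkey.1, g.qv x) else (12, x g.mt.1, x g.mt.2)

/-- The vectors. -/
noncomputable def XX {α : Type} (G : List (Gate α)) (x : α → ℝ) (w : PW α) : ℕ → ℝ :=
  tri (kindVec (kd G x w).1 (kd G x w).2.1 (kd G x w).2.2)

/-- The vertices that occur. -/
def Occ {α : Type} (G : List (Gate α)) : PW α → Prop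
  | .inl k => k < 4
  | .inr (.inl (k, a)) => k < 7 ∧ ∃ g ∈ G, a ∈ g.nums
  | .inr (.inr (k, i)) => ∃ g, G[i]? = some g ∧ (k = 0 ∨ (k = 1 ∧ ∃ s t m w,
      g = .inr (.inl (s, t, m, w))))

theorem occ_of_mem {α : Type} {G : List (Gate α)} {w : PW α} (hw : w ∈ wEnds (gateK G)) :
    Occ G w := by
  obtain ⟨e, he, hw⟩ := hw
  rcases mem_gateK.mp he with h | ⟨g, hg, a, ha, h⟩ | ⟨g, i, hg, h⟩
  · simp only [coreFrame, List.mem_cons, List.not_mem_nil, or_false] at h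
    rcases h with rfl | rfl | rfl | rfl | rfl | rfl <;>
      rcases hw with rfl | hw <;> first | (simp [Occ]; done) | skip
    all_goals first | (simp at hw; done) | (simp only [Sum.inr.injEq] at hw; subst hw; simp [Occ])
  · simp only [bundle, List.mem_cons, List.not_mem_nil, or_false] at h
    have key : ∀ k, k < 7 → Occ G (.inr (.inl (k, a))) := fun k hk => ⟨hk, g, hg, ha⟩
    rcases h with rfl | rfl | rfl | rfl | rfl | rfl | rfl | rfl | rfl | rfl | rfl | rfl | rfl <;>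
      rcases hw with rfl | hw <;> first | (exact key _ (by norm_num)) | skip
    all_goals first
      | (simp at hw; done)
      | (simp only [Sum.inr.injEq] at hw; subst hw; first
          | exact key _ (by norm_num)
          | simp [Occ])
  · have hgG : g ∈ G := List.mem_of_getElem? hg
    have key : ∀ a ∈ g.nums, ∀ k, k < 7 → Occ G (.inr (.inl (k, a))) :=
      fun a ha k hk => ⟨hk, g, hgG, ha⟩
    have key0 : Occ G (.inr (.inr (0, i))) := ⟨g, hg, Or.inl rfl⟩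
    rcases g with ⟨s, m, w⟩ | ⟨s, t, m, w⟩ | ⟨s, m⟩
    · simp only [gateCore, List.mem_cons, List.not_mem_nil, or_false] at h
      rcases h with rfl | rfl | rfl <;> rcases hw with rfl | hw
      all_goals first
        | exact key0
        | (simp only [Sum.inr.injEq] at hw; subst hw; exact key _ (by simp [Gate.nums]) _ (by norm_num))
    · have key1 : Occ G (.inr (.inr (1, i))) := ⟨_, hg, Or.inr ⟨rfl, s, t, m, w, rfl⟩⟩
      simp only [gateCore, List.mem_cons, List.not_mem_nil, or_false] at h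
      rcases h with rfl | rfl | rfl | rfl | rfl <;> rcases hw with rfl | hw
      all_goals first
        | exact key0
        | exact key1
        | (simp only [Sum.inr.injEq] at hw; subst hw; first
            | exact key1
            | exact key _ (by simp [Gate.nums]) _ (by norm_num))
    · simp only [gateCore, List.mem_cons, List.not_mem_nil, or_false] at h
      rcases h with rfl | rfl | rfl <;> rcases hw with rfl | hw
      all_goals first
        | exact key0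
        | (simp only [Sum.inr.injEq] at hw; subst hw; first
            | exact key _ (by simp [Gate.nums]) _ (by norm_num)
            | simp [Occ])

/-- The good values. -/
structure GoodVal {α : Type} (G : List (Gate α)) (x : α → ℝ) : Prop where
  holds : ∀ g ∈ G, g.holds 1 x
  inj : ∀ g ∈ G, ∀ a ∈ g.nums, ∀ g' ∈ G, ∀ a' ∈ g'.nums, x a = x a' → a = a'
  prod : ∀ g ∈ G, ∀ a ∈ g.nums, ∀ g' ∈ G, ∀ a' ∈ g'.nums, x a * x a' ≠ -1
  val : ∀ g ∈ G, ∀ a ∈ g.nums, x a ≠ 0 ∧ x a ≠ 1 ∧ x a ≠ -1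
  keyv : ∀ (i i' : ℕ) (g g' : Gate α), G[i]? = some g → G[i']? = some g' →
    g.vkey = g'.vkey → i = i'
  keyn : ∀ (i i' : ℕ) (s t m w s' w' : α), G[i]? = some (.inr (.inl (s, t, m, w))) →
    G[i']? = some (.inr (.inl (s', t, m, w'))) → i = i'
  ne : ∀ g ∈ G, g.vkey.2 ≠ some g.vkey.1

theorem vkey_mem {α : Type} (g : Gate α) : g.vkey.1 ∈ g.nums := by
  rcases g with ⟨s, m, w⟩ | ⟨s, t, m, w⟩ | ⟨s, m⟩ <;> simp [Gate.vkey, Gate.nums]

theorem vkey_mem2 {α : Type} (g : Gate α) (w : α) (h : g.vkey.2 = some w) : w ∈ g.nums := by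
  rcases g with ⟨s, m, w⟩ | ⟨s, t, m, w⟩ | ⟨s, m⟩ <;> simp_all [Gate.vkey, Gate.nums]

theorem mt_mem {α : Type} (g : Gate α) : g.mt.1 ∈ g.nums ∧ g.mt.2 ∈ g.nums := by
  rcases g with ⟨s, m, w⟩ | ⟨s, t, m, w⟩ | ⟨s, m⟩ <;> simp [Gate.mt, Gate.nums]

theorem GoodVal.qv_ok {α : Type} {G : List (Gate α)} {x : α → ℝ} (h : GoodVal G x) {g : Gate α}
    (hg : g ∈ G) : g.qv x ≠ 0 ∧ g.qv x ≠ -1 ∧ x g.vkey.1 ≠ g.qv x ∧
      ∀ g' ∈ G, ∀ a' ∈ g'.nums, g.qv x * x a' ≠ -1 := by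
  have h1 := h.ne g hg
  unfold Gate.qv
  rcases hk : g.vkey.2 with _ | w
  · simp only
    refine ⟨one_ne_zero, by norm_num, (h.val g hg _ (vkey_mem g)).2.1, fun g' hg' a' ha' => ?_⟩
    rw [one_mul]
    exact (h.val g' hg' a' ha').2.2
  · simp only
    have hw := vkey_mem2 g w hk
    refine ⟨(h.val g hg w hw).1, (h.val g hg w hw).2.2, fun he => ?_, fun g' hg' a' ha' =>
      h.prod g hg w hw g' hg' a' ha'⟩
    have := h.inj g hg _ (vkey_mem g) g hg w hw he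
    rw [hk, this] at h1
    exact h1 rfl

theorem GoodVal.kindOk {α : Type} {G : List (Gate α)} {x : α → ℝ} (h : GoodVal G x) {w : PW α}
    (hw : Occ G w) : (kd G x w).1 < 13 ∧ kindOk (kd G x w).1 (kd G x w).2.1 (kd G x w).2.2 := by
  rcases w with k | ⟨k, a⟩ | ⟨k, i⟩
  · simp only [Occ] at hw
    refine ⟨by simp only [kd]; omega, ?_⟩
    simp only [kd]
    interval_cases k <;> simp [MP_0f8b55_lc.kindOk]
  · obtain ⟨hk, g, hg, ha⟩ := hw
    have h1 := h.val g hg a ha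
    refine ⟨by simp only [kd]; omega, ?_⟩
    simp only [kd]
    interval_cases k <;> simpa only [MP_0f8b55_lc.kindOk] using h1
  · obtain ⟨g, hg, hk⟩ := hw
    have hgG : g ∈ G := List.mem_of_getElem? hg
    rcases hk with rfl | ⟨rfl, s, t, m, w, rfl⟩
    · simp only [kd, hg, if_true]
      have h1 := h.val g hgG _ (vkey_mem g)
      obtain ⟨h2, h3, h4, -⟩ := h.qv_ok hgG
      exact ⟨by norm_num, h1.1, h1.2.1, h1.2.2, h2, h3, h4⟩
    · simp only [kd, hg, one_ne_zero, if_false]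
      have h1 := h.val _ hgG m (by simp [Gate.nums])
      have h2 := h.val _ hgG t (by simp [Gate.nums])
      exact ⟨by norm_num, h1.1, h1.2.1, h1.2.2, h2.1, h2.2.1, h2.2.2⟩

/-- The first parameter is the value of a number. -/
theorem kd_val {α : Type} {G : List (Gate α)} {x : α → ℝ} {w : PW α}
    (hw : Occ G w) (hk : 4 ≤ (kd G x w).1) : ∃ g ∈ G, ∃ a ∈ g.nums, (kd G x w).2.1 = x a := by
  rcases w with k | ⟨k, a⟩ | ⟨k, i⟩
  · simp only [Occ] at hw
    simp only [kd] at hk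
    omega
  · obtain ⟨_, g, hg, ha⟩ := hw
    exact ⟨g, hg, a, ha, rfl⟩
  · obtain ⟨g, hg, hk⟩ := hw
    have hgG : g ∈ G := List.mem_of_getElem? hg
    rcases hk with rfl | ⟨rfl, s, t, m, w, rfl⟩
    · exact ⟨g, hgG, _, vkey_mem g, by simp only [kd, hg, if_true]⟩
    · exact ⟨_, hgG, m, by simp [Gate.nums], by simp only [kd, hg, one_ne_zero, if_false, Gate.mt]⟩

theorem GoodVal.kd_q {α : Type} {G : List (Gate α)} {x : α → ℝ} (h : GoodVal G x) {w : PW α}
    (hw : Occ G w) (hk : 11 ≤ (kd G x w).1) :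
    ∀ g' ∈ G, ∀ a' ∈ g'.nums, (kd G x w).2.2 * x a' ≠ -1 := by
  rcases w with k | ⟨k, a⟩ | ⟨k, i⟩
  · simp only [Occ] at hw
    simp only [kd] at hk
    omega
  · obtain ⟨hk7, g, hg, ha⟩ := hw
    simp only [kd] at hk
    omega
  · obtain ⟨g, hg, hk⟩ := hw
    have hgG : g ∈ G := List.mem_of_getElem? hg
    rcases hk with rfl | ⟨rfl, s, t, m, w, rfl⟩
    · simp only [kd, hg, if_true]
      exact (h.qv_ok hgG).2.2.2
    · simp only [kd, hg, one_ne_zero, if_false, Gate.mt]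
      exact h.prod _ hgG t (by simp [Gate.nums])

theorem kindVec_ne (k : ℕ) (hk : k < 13) (p q : ℝ) (h : kindOk k p q) :
    ((kindVec k p q).1 ≠ 0 ∨ (kindVec k p q).2.1 ≠ 0) ∧
    ((kindVec k p q).1 ≠ 0 ∨ (kindVec k p q).2.2 ≠ 0) ∧
    ((kindVec k p q).2.1 ≠ 0 ∨ (kindVec k p q).2.2 ≠ 0) := by
  interval_cases k <;> simp only [kindVec, kindOk] at h ⊢ <;> simp_all

theorem GoodVal.kd_inj {α : Type} {G : List (Gate α)} {x : α → ℝ} (h : GoodVal G x) {w w' : PW α}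
    (hw : Occ G w) (hw' : Occ G w') (h1 : (kd G x w).1 = (kd G x w').1)
    (h2 : 4 ≤ (kd G x w).1 → (kd G x w).2.1 = (kd G x w').2.1)
    (h3 : 11 ≤ (kd G x w).1 → (kd G x w).2.2 = (kd G x w').2.2) : w = w' := by
  rcases w with k | ⟨k, a⟩ | ⟨k, i⟩
  · simp only [Occ] at hw
    rcases w' with k' | ⟨k', a'⟩ | ⟨k', i'⟩
    · simp only [kd] at h1; rw [h1]
    · simp only [kd] at h1; omega
    · obtain ⟨g, hg, hk⟩ := hw'
      rcases hk with rfl | ⟨rfl, s, t, m, w, rfl⟩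
      · simp only [kd, hg, if_true] at h1; omega
      · simp only [kd, hg, one_ne_zero, if_false] at h1; omega
  · obtain ⟨hk7, g, hg, ha⟩ := hw
    rcases w' with k' | ⟨k', a'⟩ | ⟨k', i'⟩
    · simp only [Occ] at hw'
      simp only [kd] at h1; omega
    · obtain ⟨hk7', g', hg', ha'⟩ := hw'
      simp only [kd] at h1 h2
      have h4 := h.inj g hg a ha g' hg' a' ha' (h2 (by omega))
      have h5 : k = k' := by omega
      rw [h4, h5]
    · obtain ⟨g, hg, hk⟩ := hw'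
      rcases hk with rfl | ⟨rfl, s, t, m, w, rfl⟩
      · simp only [kd, hg, if_true] at h1; omega
      · simp only [kd, hg, one_ne_zero, if_false] at h1; omega
  · obtain ⟨g, hg, hk⟩ := hw
    have hgG : g ∈ G := List.mem_of_getElem? hg
    rcases w' with k' | ⟨k', a'⟩ | ⟨k', i'⟩
    · simp only [Occ] at hw'
      rcases hk with rfl | ⟨rfl, s, t, m, w, rfl⟩
      · simp only [kd, hg, if_true] at h1; omega
      · simp only [kd, hg, one_ne_zero, if_false] at h1; omega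
    · obtain ⟨hk7', g', hg', ha'⟩ := hw'
      rcases hk with rfl | ⟨rfl, s, t, m, w, rfl⟩
      · simp only [kd, hg, if_true] at h1; omega
      · simp only [kd, hg, one_ne_zero, if_false] at h1; omega
    · obtain ⟨g', hg', hk'⟩ := hw'
      have hgG' : g' ∈ G := List.mem_of_getElem? hg'
      rcases hk with rfl | ⟨rfl, s, t, m, w, rfl⟩ <;>
        rcases hk' with rfl | ⟨rfl, s', t', m', w', rfl⟩
      · simp only [kd, hg, hg', if_true] at h1 h2 h3
        have e1 := h.inj g hgG _ (vkey_mem g) g' hgG' _ (vkey_mem g') (h2 (by norm_num))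
        have e2 := h3 (by norm_num)
        have e3 : g.vkey = g'.vkey := by
          refine Prod.ext e1 ?_
          unfold Gate.qv at e2
          rcases hk : g.vkey.2 with _ | w <;> rcases hk' : g'.vkey.2 with _ | w'
          · rfl
          · rw [hk, hk'] at e2
            exact absurd e2.symm (h.val g' hgG' w' (vkey_mem2 g' w' hk')).2.1
          · rw [hk, hk'] at e2
            exact absurd e2 (h.val g hgG w (vkey_mem2 g w hk)).2.1
          · rw [hk, hk'] at e2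
            rw [h.inj g hgG w (vkey_mem2 g w hk) g' hgG' w' (vkey_mem2 g' w' hk') e2]
        rw [h.keyv i i' g g' hg hg' e3]
      · simp only [kd, hg, hg', if_true, one_ne_zero, if_false] at h1; omega
      · simp only [kd, hg, hg', if_true, one_ne_zero, if_false] at h1; omega
      · simp only [kd, hg, hg', one_ne_zero, if_false, Gate.mt] at h1 h2 h3
        have e1 := h.inj _ hgG m (by simp [Gate.nums]) _ hgG' m' (by simp [Gate.nums])
          (h2 (by norm_num))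
        have e2 := h.inj _ hgG t (by simp [Gate.nums]) _ hgG' t' (by simp [Gate.nums])
          (h3 (by norm_num))
        subst e1 e2
        rw [h.keyn i i' s t m w s' w' hg hg']

theorem layer2b_complete {α : Type} {G : List (Gate α)} {x : α → ℝ} (h : GoodVal G x) :
    ∃ X : PW α → ℕ → ℝ, (∀ w j, 3 ≤ j → X w j = 0) ∧
    (∀ w j, (w, .inl j) ∈ gateK G → X w j = 0) ∧
    (∀ w w', (w, .inr w') ∈ gateK G → X w 0 * X w' 0 + X w 1 * X w' 1 + X w 2 * X w' 2 = 0) ∧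
    (∀ w ∈ wEnds (gateK G), (X w 0 ≠ 0 ∨ X w 1 ≠ 0) ∧ (X w 0 ≠ 0 ∨ X w 2 ≠ 0) ∧
        (X w 1 ≠ 0 ∨ X w 2 ≠ 0)) ∧
    (∀ w ∈ wEnds (gateK G), ∀ w' ∈ wEnds (gateK G), ∀ r : ℝ, 0 < r → X w 0 = r * X w' 0 →
      X w 1 = r * X w' 1 → X w 2 = r * X w' 2 → w = w') := by
  refine ⟨XX G x, ?_, ?_, ?_, ?_, ?_⟩
  · intro w j hj
    have h0 : j ≠ 0 := by omega
    have h1 : j ≠ 1 := by omega
    have h2 : j ≠ 2 := by omega
    simp [XX, tri, h0, h1, h2]
  · intro w j hw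
    rcases mem_gateK.mp hw with h | ⟨g, hg, a, ha, h⟩ | ⟨g, i, hg, h⟩
    · simp only [coreFrame, List.mem_cons, List.not_mem_nil, or_false, Prod.mk.injEq,
        Sum.inl.injEq, reduceCtorEq, and_false, false_or, or_false] at h
      rcases h with ⟨rfl, rfl⟩ | ⟨rfl, rfl⟩ | ⟨rfl, rfl⟩ | ⟨rfl, rfl⟩ <;> simp [XX, tri, kd, kindVec]
    · simp only [bundle, List.mem_cons, List.not_mem_nil, or_false, Prod.mk.injEq,
        Sum.inl.injEq, reduceCtorEq, and_false, false_or, or_false] at h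
      rcases h with ⟨rfl, rfl⟩ | ⟨rfl, rfl⟩ | ⟨rfl, rfl⟩ | ⟨rfl, rfl⟩ <;> simp [XX, tri, kd, kindVec]
    · rcases g with ⟨s, m, w⟩ | ⟨s, t, m, w⟩ | ⟨s, m⟩ <;> simp [gateCore] at h
  · intro w w' hw
    rcases mem_gateK.mp hw with h | ⟨g, hg, a, ha, h⟩ | ⟨g, i, hg, h'⟩
    · simp only [coreFrame, List.mem_cons, List.not_mem_nil, or_false, Prod.mk.injEq,
        Sum.inr.injEq, reduceCtorEq, and_false, false_or, or_false] at h
      rcases h with ⟨rfl, rfl⟩ | ⟨rfl, rfl⟩ <;> simp [XX, tri, kd, kindVec]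
    · simp only [bundle, List.mem_cons, List.not_mem_nil, or_false, Prod.mk.injEq,
        Sum.inr.injEq, reduceCtorEq, and_false, false_or, or_false] at h
      rcases h with ⟨rfl, rfl⟩ | ⟨rfl, rfl⟩ | ⟨rfl, rfl⟩ | ⟨rfl, rfl⟩ | ⟨rfl, rfl⟩ | ⟨rfl, rfl⟩ |
        ⟨rfl, rfl⟩ | ⟨rfl, rfl⟩ | ⟨rfl, rfl⟩ <;> simp [XX, tri, kd, kindVec]
    · have hgG : g ∈ G := List.mem_of_getElem? hg
      have hh := h.holds g hgG
      rcases g with ⟨s, m, z⟩ | ⟨s, t, m, z⟩ | ⟨s, m⟩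
      · simp only [gateCore, List.mem_cons, List.not_mem_nil, or_false, Prod.mk.injEq,
          Sum.inr.injEq] at h'
        simp only [Gate.holds] at hh
        rcases h' with ⟨rfl, rfl⟩ | ⟨rfl, rfl⟩ | ⟨rfl, rfl⟩ <;>
          simp only [XX, tri, kd, hg, kindVec, Gate.qv, Gate.vkey, if_true] <;> norm_num <;>
          rw [hh] <;> ring
      · simp only [gateCore, List.mem_cons, List.not_mem_nil, or_false, Prod.mk.injEq,
          Sum.inr.injEq] at h'
        simp only [Gate.holds] at hh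
        rcases h' with ⟨rfl, rfl⟩ | ⟨rfl, rfl⟩ | ⟨rfl, rfl⟩ | ⟨rfl, rfl⟩ | ⟨rfl, rfl⟩ <;>
          simp only [XX, tri, kd, hg, kindVec, Gate.qv, Gate.vkey, Gate.mt, if_true] <;> norm_num <;>
          rw [hh] <;> ring
      · simp only [gateCore, List.mem_cons, List.not_mem_nil, or_false, Prod.mk.injEq,
          Sum.inr.injEq] at h'
        simp only [Gate.holds] at hh
        rcases h' with ⟨rfl, rfl⟩ | ⟨rfl, rfl⟩ | ⟨rfl, rfl⟩ <;>
          simp only [XX, tri, kd, hg, kindVec, Gate.qv, Gate.vkey, if_true] <;> norm_num <;>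
          linarith
  · intro w hw
    obtain ⟨h1, h2⟩ := h.kindOk (occ_of_mem hw)
    exact kindVec_ne _ h1 _ _ h2
  · intro w hw w' hw' r hr e0 e1 e2
    have o := occ_of_mem hw
    have o' := occ_of_mem hw'
    obtain ⟨h1, h2⟩ := h.kindOk o
    obtain ⟨h1', h2'⟩ := h.kindOk o'
    obtain ⟨k1, k2, k3⟩ := kind_inj _ _ h1 h1' _ _ _ _ r hr h2 h2' (fun a b => by
      obtain ⟨g, hg, c, hc, e⟩ := kd_val o a
      obtain ⟨g', hg', c', hc', e'⟩ := kd_val o' b
      rw [e, e']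
      exact h.prod g hg c hc g' hg' c' hc') (fun a b => by
      obtain ⟨g, hg, c, hc, e⟩ := kd_val o a
      rw [e, mul_comm]
      exact h.kd_q o' b g hg c hc) (fun a b => by
      obtain ⟨g', hg', c', hc', e'⟩ := kd_val o' b
      rw [e']
      exact h.kd_q o a g' hg' c' hc') e0 e1 e2
    exact h.kd_inj o o' k1 k2 k3

end Pool.Agent.Lib.MP_0f8b55_lc
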