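import Pool.Agent.Lib.MP_0f8b55_lc.Code
import Pool.Agent.Lib.MP_0f8b55_lc.Dim

/-!
# Membership of `EDIM_d` in the class `∃ℝ`
-/

namespace Pool.Agent.Lib.MP_0f8b55_lc

open Pool.Agent.Lib.PolyTime

theorem Trm.toks_injective : Function.Injective Trm.toks := by
  intro s t h
  have h1 := s.read []
  have h2 := t.read []
  rw [h, h2] at h1
  simpa using h1.symm

instance encTrm : Enc Trm := Enc.ofInj Trm.toks Trm.toks_injective

/-! ### Building formulas in polynomial time -/

variable {α : Type} [Enc α]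

theorem pt_trm_toks {f : α → Trm} (hf : PT f) : PT (fun a => (f a).toks) :=
  (PT.of_enc_eq (fun _ => rfl) : PT (fun t : Trm => t.toks)).comp hf

theorem pt_trm_of {f : α → Trm} (hf : PT (fun a => (f a).toks)) : PT f :=
  hf.congr_enc (fun _ => rfl)

theorem pt_fml_toks {f : α → Fml} (hf : PT f) : PT (fun a => (f a).toks) :=
  (PT.of_enc_eq (fun _ => rfl) : PT (fun t : Fml => t.toks)).comp hf

theorem pt_fml_of {f : α → Fml} (hf : PT (fun a => (f a).toks)) : PT f :=
  hf.congr_enc (fun _ => rfl)

theorem pt_var {f : α → ℕ} (hf : PT f) : PT (fun a => Trm.var (f a)) := by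
  refine pt_trm_of (PT.list1 ?_)
  exact ((PT.const 0).pair (hf.pair (PT.const ([] : List ℕ))) :
    PT (fun a => ((0, (f a, [])) : ℕ × (ℕ × List ℕ)))).congr_enc (fun _ => rfl)

theorem pt_tadd {f g : α → Trm} (hf : PT f) (hg : PT g) : PT (fun a => Trm.add (f a) (g a)) :=
  pt_trm_of (PT.append (PT.append (pt_trm_toks hf) (pt_trm_toks hg)) (PT.const _))

theorem pt_tmul {f g : α → Trm} (hf : PT f) (hg : PT g) : PT (fun a => Trm.mul (f a) (g a)) :=
  pt_trm_of (PT.append (PT.append (pt_trm_toks hf) (pt_trm_toks hg)) (PT.const _))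

theorem pt_feq {f g : α → Trm} (hf : PT f) (hg : PT g) : PT (fun a => Fml.eq (f a) (g a)) :=
  pt_fml_of (PT.append (PT.append (pt_trm_toks hf) (pt_trm_toks hg)) (PT.const _))

theorem pt_fnot {f : α → Fml} (hf : PT f) : PT (fun a => Fml.not (f a)) :=
  pt_fml_of (PT.append (pt_fml_toks hf) (PT.const _))

theorem pt_fand {f g : α → Fml} (hf : PT f) (hg : PT g) : PT (fun a => Fml.and (f a) (g a)) :=
  pt_fml_of (PT.append (PT.append (pt_fml_toks hf) (pt_fml_toks hg)) (PT.const _))

/-- The conjunction of a list of formulas. -/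
def conj (l : List Fml) : Fml := l.foldl Fml.and (.eq (.const 0) (.const 0))

theorem conj_holds (l : List Fml) (x : ℕ → ℝ) : (conj l).Holds x ↔ ∀ φ ∈ l, φ.Holds x := by
  have key : ∀ (l : List Fml) (ψ : Fml), (l.foldl Fml.and ψ).Holds x ↔
      ψ.Holds x ∧ ∀ φ ∈ l, φ.Holds x := by
    intro l
    induction l with
    | nil => simp
    | cons φ l ih =>
      intro ψ
      rw [List.foldl_cons, ih]
      simp only [Fml.Holds, List.forall_mem_cons]
      tauto
  rw [conj, key]
  simp [Fml.Holds]

theorem size_and (φ ψ : Fml) : size (Fml.and φ ψ) ≤ size φ + size ψ + size [Tok.op .and] := by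
  have h1 := size_append (φ.toks ++ ψ.toks) [Tok.op .and]
  have h2 := size_append φ.toks ψ.toks
  have e1 : size (Fml.and φ ψ) = size (φ.toks ++ ψ.toks ++ [Tok.op .and]) := rfl
  have e2 : size φ = size φ.toks := rfl
  have e3 : size ψ = size ψ.toks := rfl
  omega

theorem pt_conj {f : α → List Fml} (hf : PT f) : PT (fun a => conj (f a)) := by
  obtain ⟨p, hp⟩ := hf.size_le
  refine PT.foldl_add (f := f) (init := fun _ => Fml.eq (.const 0) (.const 0))
    (step := fun _ s b => Fml.and s b) hf (PT.const _) (pt_fand PT.snd.fst' PT.snd.snd')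
    (C := fun n => p.eval n + size [Tok.op .and]) ((PB.poly p).add (PB.const _)) ?_
  intro a s b hb
  have h1 := size_and s b
  have h2 := size_mem_lt hb
  have h3 := hp a
  omega

/-! ### The formula of a graph -/

/-- A difference of two variables. -/
def diffTrm (a b : ℕ) : Trm := .add (.var a) (.mul (.const (-1)) (.var b))

/-- The squared distance of two points. -/
def distTrm (d u v : ℕ) : Trm :=
  (List.range d).foldl (fun t j => .add t (.mul (diffTrm (u * d + j) (v * d + j))
    (diffTrm (u * d + j) (v * d + j)))) (.const 0)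

theorem val_diffTrm (x : ℕ → ℝ) (a b : ℕ) : (diffTrm a b).val x = x a - x b := by
  simp [diffTrm, Trm.val]
  ring

theorem val_distTrm (x : ℕ → ℝ) (d u v : ℕ) :
    (distTrm d u v).val x = ∑ j ∈ Finset.range d, (x (u * d + j) - x (v * d + j)) ^ 2 := by
  have key : ∀ (l : List ℕ) (t : Trm), (l.foldl (fun t j => Trm.add t
      (.mul (diffTrm (u * d + j) (v * d + j)) (diffTrm (u * d + j) (v * d + j)))) t).val x =
      t.val x + (l.map (fun j => (x (u * d + j) - x (v * d + j)) ^ 2)).sum := by
    intro l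
    induction l with
    | nil => simp
    | cons j l ih =>
      intro t
      rw [List.foldl_cons, ih, List.map_cons, List.sum_cons]
      simp only [Trm.val, val_diffTrm]
      ring
  rw [distTrm, key]
  simp only [Trm.val, Int.cast_zero, zero_add]
  rw [Finset.sum_range, ← List.sum_ofFn]
  congr 1
  refine List.ext_getElem (by simp) (fun i h1 h2 => by simp)

theorem pt_distTrm {f g : α → ℕ} (d : ℕ) (hf : PT f) (hg : PT g) :
    PT (fun a => distTrm d (f a) (g a)) := by
  have hdiff : ∀ j, PT (fun a => diffTrm (f a * d + j) (g a * d + j)) := by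
    intro j
    have h1 : PT (fun a => f a * d + j) := ((hf.mulConst d).addConst j).congr (fun a => by
      rw [mul_comm])
    have h2 : PT (fun a => g a * d + j) := ((hg.mulConst d).addConst j).congr (fun a => by
      rw [mul_comm])
    exact pt_tadd (pt_var h1) (pt_tmul (PT.const _) (pt_var h2))
  have key : ∀ (l : List ℕ) (t : α → Trm), PT t → PT (fun a => l.foldl (fun t j => Trm.add t
      (.mul (diffTrm (f a * d + j) (g a * d + j)) (diffTrm (f a * d + j) (g a * d + j)))) (t a)) := by
    intro l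
    induction l with
    | nil => exact fun t ht => ht
    | cons j l ih =>
      intro t ht
      exact ih (fun a => Trm.add (t a) (.mul (diffTrm (f a * d + j) (g a * d + j))
        (diffTrm (f a * d + j) (g a * d + j)))) (pt_tadd ht (pt_tmul (hdiff j) (hdiff j)))
  exact key _ _ (PT.const _)

/-- The formula expressing that the graph is a unit distance graph. -/
def memFml (d : ℕ) (I : GraphCode) : Fml :=
  conj ((I.2.filter (fun e => (!decide (e.1 = e.2) && decide (e.1 < I.1)) && decide (e.2 < I.1))).map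
      (fun e => .eq (distTrm d e.1 e.2) (.const 1)) ++
    (List.range I.1).flatMap (fun u => (List.range u).map
      (fun v => .not (.eq (distTrm d u v) (.const 0)))))

theorem pt_memFml (d : ℕ) : PT (memFml d) := by
  have h1 : PT (fun I : GraphCode => I.1) := PT.fst
  have h2 : PT (fun I : GraphCode => I.2) := PT.snd
  refine pt_conj (PT.append ?_ ?_)
  · refine PT.map (g := fun (_ : GraphCode) (e : ℕ × ℕ) => Fml.eq (distTrm d e.1 e.2) (.const 1))
      (PT.filter (p := fun (I : GraphCode) (e : ℕ × ℕ) =>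
        (!decide (e.1 = e.2) && decide (e.1 < I.1)) && decide (e.2 < I.1)) h2 ?_) ?_
    · exact PT.and (PT.and (PT.not (PT.eq PT.snd.fst' PT.snd.snd'))
        (PT.lt PT.snd.fst' (h1.comp PT.fst))) (PT.lt PT.snd.snd' (h1.comp PT.fst))
    · exact pt_feq (pt_distTrm d PT.snd.fst' PT.snd.snd') (PT.const _)
  · refine PT.flatMap (g := fun (_ : GraphCode) (u : ℕ) => (List.range u).map
      (fun v => Fml.not (.eq (distTrm d u v) (.const 0)))) (PT.range h1) ?_
    refine PT.map (f := fun x : GraphCode × ℕ => List.range x.2)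
      (g := fun (x : GraphCode × ℕ) (v : ℕ) => Fml.not (.eq (distTrm d x.2 v) (.const 0)))
      (PT.range PT.snd) ?_
    exact pt_fnot (pt_feq (pt_distTrm d PT.fst.snd' PT.snd) (PT.const _))

theorem memFml_iff {d : ℕ} (hd : 1 ≤ d) (I : GraphCode) :
    euclideanDim I.graph ≤ d ↔ ∃ x : ℕ → ℝ, (memFml d I).Holds x := by
  rw [euclideanDim_le_iff _ hd]
  -- the meaning of the formula
  have hform : ∀ x : ℕ → ℝ, (memFml d I).Holds x ↔
      (∀ u v, (u, v) ∈ I.2 → u ≠ v → u < I.1 → v < I.1 →
        ∑ j ∈ Finset.range d, (x (u * d + j) - x (v * d + j)) ^ 2 = 1) ∧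
      (∀ u, u < I.1 → ∀ v, v < u →
        ∑ j ∈ Finset.range d, (x (u * d + j) - x (v * d + j)) ^ 2 ≠ 0) := by
    intro x
    rw [memFml, conj_holds]
    simp only [List.mem_append, List.mem_map, List.mem_filter, List.mem_flatMap, List.mem_range,
      Bool.and_eq_true, Bool.not_eq_true', decide_eq_false_iff_not, decide_eq_true_eq]
    constructor
    · intro h
      refine ⟨fun u v huv hne hu hv => ?_, fun u hu v hv => ?_⟩
      · have := h _ (Or.inl ⟨(u, v), ⟨huv, ⟨hne, hu⟩, hv⟩, rfl⟩)
        simpa [Fml.Holds, val_distTrm, Trm.val] using this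
      · have := h _ (Or.inr ⟨u, hu, v, hv, rfl⟩)
        simpa [Fml.Holds, val_distTrm, Trm.val] using this
    · rintro ⟨h1, h2⟩ φ (⟨⟨u, v⟩, ⟨huv, ⟨hne, hu⟩, hv⟩, rfl⟩ | ⟨u, hu, v, hv, rfl⟩)
      · have := h1 u v huv hne hu hv
        simpa [Fml.Holds, val_distTrm, Trm.val] using this
      · have := h2 u hu v hv
        simpa [Fml.Holds, val_distTrm, Trm.val] using this
  constructor
  · rintro ⟨p, hp, hG⟩
    set x : ℕ → ℝ := fun i => if h : i / d < I.1 then p ⟨i / d, h⟩ ⟨i % d, Nat.mod_lt _ hd⟩ else 0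
      with hx
    have hxv : ∀ u (hu : u < I.1) (j : Fin d), x (u * d + j.1) = p ⟨u, hu⟩ j := by
      intro u hu j
      have h1 : (u * d + j.1) / d = u := by
        rw [mul_comm, Nat.mul_add_div hd, Nat.div_eq_of_lt j.2, add_zero]
      have h2 : (u * d + j.1) % d = j.1 := by
        rw [mul_comm, Nat.mul_add_mod, Nat.mod_eq_of_lt j.2]
      simp only [hx, h1, h2, hu, dif_pos]
    have hsum : ∀ u v (hu : u < I.1) (hv : v < I.1),
        ∑ j ∈ Finset.range d, (x (u * d + j) - x (v * d + j)) ^ 2 =
          dist (p ⟨u, hu⟩) (p ⟨v, hv⟩) ^ 2 := by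
      intro u v hu hv
      rw [Finset.sum_range, EuclideanSpace.dist_eq, Real.sq_sqrt (by positivity)]
      refine Finset.sum_congr rfl (fun j _ => ?_)
      rw [hxv u hu, hxv v hv, Real.dist_eq, sq_abs]
    refine ⟨x, (hform x).mpr ⟨fun u v huv hne hu hv => ?_, fun u hu v hv => ?_⟩⟩
    · rw [hsum u v hu hv, hG _ _ ?_, one_pow]
      rw [GraphCode.graph, SimpleGraph.fromRel_adj]
      exact ⟨fun h => hne (congrArg Fin.val h), Or.inl huv⟩
    · rw [hsum u v hu (by omega)]
      intro h
      have h1 : dist (p ⟨u, hu⟩) (p ⟨v, by omega⟩) = 0 := by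
        simpa using h
      have h2 := congrArg Fin.val (hp (dist_eq_zero.mp h1))
      simp only at h2
      omega
  · rintro ⟨x, hx⟩
    obtain ⟨h1, h2⟩ := (hform x).mp hx
    set p : Fin I.1 → EuclideanSpace ℝ (Fin d) := fun u =>
      WithLp.toLp 2 (fun j : Fin d => x (u.1 * d + j.1)) with hp
    have hsum : ∀ u v : Fin I.1, dist (p u) (p v) ^ 2 =
        ∑ j ∈ Finset.range d, (x (u.1 * d + j) - x (v.1 * d + j)) ^ 2 := by
      intro u v
      rw [Finset.sum_range, EuclideanSpace.dist_eq, Real.sq_sqrt (by positivity)]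
      refine Finset.sum_congr rfl (fun j _ => ?_)
      rw [Real.dist_eq, sq_abs]
    have hne : ∀ u v : Fin I.1, v.1 < u.1 → p u ≠ p v := by
      intro u v huv h
      have h3 := h2 u.1 u.2 v.1 huv
      rw [← hsum, h, dist_self] at h3
      exact h3 (by norm_num)
    refine ⟨p, fun u v huv => ?_, fun u v huv => ?_⟩
    · rcases lt_trichotomy u.1 v.1 with h | h | h
      · exact absurd huv.symm (hne v u h)
      · exact Fin.ext h
      · exact absurd huv (hne u v h)
    · have key : ∀ u v : Fin I.1, u ≠ v → (u.1, v.1) ∈ I.2 → dist (p u) (p v) = 1 := by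
        intro u v hne huv
        have h3 := h1 u.1 v.1 huv (fun h => hne (Fin.ext h)) u.2 v.2
        rw [← hsum] at h3
        have h4 : (0:ℝ) ≤ dist (p u) (p v) := dist_nonneg
        nlinarith
      rw [GraphCode.graph, SimpleGraph.fromRel_adj] at huv
      rcases huv.2 with h | h
      · exact key u v huv.1 h
      · rw [dist_comm]
        exact key v u huv.1.symm h

theorem inER_EDIM {d : ℕ} (hd : 1 ≤ d) : InER (EDIM d) :=
  inER_of_pt (pt_memFml d) (fun I => memFml_iff hd I)

end Pool.Agent.Lib.MP_0f8b55_lc
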